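import Pool.Agent.Helper44.TS.Small
import Pool.Agent.Helper84.TS.T23

/-!
# The class bounds in the form used for pairs and triples of classes
-/

set_option autoImplicit false

namespace Pool.Agent.Helper44.TS

open Pool.Agent.Helper84.TS Pool.Agent.Helper36.TS

theorem h1 : H1 where
  le_one _ h i := vv_le_one h i
  far _ h _ _ _ hj hF := vv_far h hj hF
  few _ h _ hh := by
    refine vv_few h (hh.imp_right ?_)
    rintro ⟨j, j', F, F', h1, h2, h3, h4, h5⟩
    exact ⟨j, j', h1, h2, h3, by rw [h4]; rfl, by rw [h5]; rfl⟩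

variable {A : Fin 4 → Fin 4 → Option (Fin 4 → ℝ)}

theorem pair_le (h : OF A) {a b k l : Fin 4} (hn : [a, b, k, l].Nodup) :
    VV A a + VV A b ≤ 187 / 100 := T2 h1 h hn

theorem triple_le (h : OF A) {a b c l : Fin 4} (hn : [a, b, c, l].Nodup) :
    VV A a + VV A b + VV A c ≤ 533 / 200 := T3 h1 h hn

/-- if the sum is more than `3.065`, each class has value more than `2/5` -/
theorem each_gt (h : OF A) (hs : 613 / 200 < ∑ i, VV A i) (i : Fin 4) : 2 / 5 < VV A i :=
  VV_gt h1 h (by linarith) i

end Pool.Agent.Helper44.TS
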