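import Pool.Agent.Helper44.TS.OwnClass

/-!
# A verified box search for three far cells of one class

The parameters `w` of the three cells are in `[0, 1]`, in units `1 / 128`. All bounds used for a cell
are increasing in its own parameter and in the bounds for its two components.
-/

set_option autoImplicit false

namespace Pool.Agent.Helper44.TS

open Pool.Agent.Helper84.TS Pool.Agent.Helper36.TS

/-- minimum, for the kernel -/
def mn (a b : ℕ) : ℕ := bif Nat.ble a b then a else b

/-- the types of a cell: any; not an owner; `A + B ≤ w + k / 20` -/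
inductive Knd
  | any
  | non
  | dd (k : ℕ)

/-- the bound without supports, times `1500 * 128 ^ 4` -/
def base : Knd → ℕ → ℕ
  | Knd.any, h => 16000 * (3 * h * 16384 + 768 * h ^ 2 - h ^ 3)
  | Knd.non, h => 512 * h * (983040 + 19200 * h - 31 * h ^ 2)
  | Knd.dd k, h => 120 * h * (20 * h + 128 * k) ^ 2 + 4194304 * (20 - k) ^ 3 - 64000 * h ^ 3

/-- the bound with one support -/
def one (τ : Knd) (l h x : ℕ) : ℕ :=
  mn (mn (64000 * (49152 * x - x ^ 3)) (24576000 * h * x))
    (bif Nat.ble x l then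
      (match τ with
      | Knd.any => 24576000 * h * x - 64000 * x ^ 3
      | Knd.non => bif (Nat.ble 3456 (100 * x) && Nat.ble (5 * x) 512) then
          19660800 * h * x - 64000 * x ^ 3 else 24576000 * h * x - 64000 * x ^ 3
      | Knd.dd k => bif Nat.ble (20 * x) (128 * k) then
          1228800 * k * h * x - 64000 * x ^ 3 else 24576000 * h * x - 64000 * x ^ 3)
    else
      (match τ with
      | Knd.any => 24576000 * h * x
      | Knd.non => bif (Nat.ble 3456 (100 * x) && Nat.ble (5 * x) 512) then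
          2516582400 * x - 64000 * x ^ 3 else 24576000 * h * x
      | Knd.dd k => bif Nat.ble (20 * x) (128 * k) then
          157286400 * k * x - 64000 * x ^ 3 else 24576000 * h * x))

/-- the bound with two supports -/
def two (h x y : ℕ) : ℕ :=
  mn (192000 * h * x * y) (mn (500 * y * (49152 * x - x ^ 3)) (500 * x * (49152 * y - y ^ 3)))

/-- the bound for a cell with `l ≤ 128 w ≤ h`, `128 A ≤ x`, `128 B ≤ y` -/
def cell (τ : Knd) (l h x y : ℕ) : ℕ :=
  bif Nat.ble x 128 then
    (bif Nat.ble y 128 then mn (mn (base τ h) (two h x y)) (mn (one τ l h x) (one τ l h y))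
      else mn (base τ h) (one τ l h x))
  else (bif Nat.ble y 128 then mn (base τ h) (one τ l h y) else base τ h)

theorem mn_le_left (a b : ℕ) : mn a b ≤ a := by
  unfold mn
  rcases h : Nat.ble a b with _ | _
  · simp only [cond_false]
    have : ¬ a ≤ b := by
      intro hab
      rw [Nat.ble_eq_true_of_le hab] at h
      exact absurd h (by simp)
    omega
  · simp

theorem le_mn {r : ℝ} {a b : ℕ} (ha : r ≤ a) (hb : r ≤ b) : r ≤ mn a b := by
  unfold mn
  rcases h : Nat.ble a b with _ | _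
  · simpa using hb
  · simpa using ha

theorem sub_cast {a b : ℕ} {r : ℝ} (h : r ≤ (a : ℝ) - b) : r ≤ ((a - b : ℕ) : ℝ) := by
  have : (a : ℝ) ≤ ((a - b : ℕ) : ℝ) + b := by
    have : a ≤ (a - b) + b := by omega
    exact_mod_cast this
  linarith

/-- the type of a cell -/
def Knd.Ok : Knd → ℝ → ℝ → ℝ → Prop
  | Knd.any, _, _, _ => True
  | Knd.non, w, A, B => NO w A B
  | Knd.dd k, w, A, B => 5 ≤ k ∧ k ≤ 20 ∧ A + B ≤ w + k / 20

/-! ### The real bounds for `A + B ≤ w + D` -/

theorem dd_core {w E D : ℝ} (h1 : 0 < w) (h2 : w ≤ 1) (hD1 : D ≤ 1) (E0 : 0 ≤ E) (Ew : E ≤ w)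
    (ED : E ≤ D) : E * (E + w) ^ 2 / 4 - E ^ 3 / 3 ≤
      w * (w + D) ^ 2 / 4 - w ^ 3 / 3 + (1 - D) ^ 3 / 12 := by
  have hc : 0 ≤ (1 - D) ^ 3 := by
    have : 0 ≤ 1 - D := by linarith
    positivity
  rcases le_total w D with hwD | hwD
  · have e3 := mono_D E0 Ew le_rfl
    have e4 : w * (w + w) ^ 2 / 4 - w ^ 3 / 3 ≤ w * (w + D) ^ 2 / 4 - w ^ 3 / 3 := by
      have : (w + w) ^ 2 ≤ (w + D) ^ 2 := by nlinarith
      have := mul_le_mul_of_nonneg_left this h1.le
      linarith
    linarith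
  · have e3 := mono_D E0 ED hwD
    have e4 : D * (D + w) ^ 2 / 4 - D ^ 3 / 3 =
        w * (w + D) ^ 2 / 4 - w ^ 3 / 3 + (w - D) ^ 3 / 12 := by ring
    have e5 : (w - D) ^ 3 ≤ (1 - D) ^ 3 := pow_le_pow_left₀ (by linarith) (by linarith) 3
    linarith

/-- the case `B ≤ w ≤ A`, `E = A + B - w` -/
theorem dd_mid {w B E D : ℝ} (h1 : 0 < w) (h2 : w ≤ 1) (hD1 : D ≤ 1) (hB : 0 < B) (hBw : B ≤ w)
    (hBE : B ≤ E) (ED : E ≤ D) : w * B * E - B ^ 3 / 3 ≤
      w * (w + D) ^ 2 / 4 - w ^ 3 / 3 + (1 - D) ^ 3 / 12 := by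
  have hc : 0 ≤ (1 - D) ^ 3 := by
    have : 0 ≤ 1 - D := by linarith
    positivity
  rcases le_total E w with hE | hE
  · refine le_trans ?_ (dd_core h1 h2 hD1 (hB.le.trans hBE) hE ED)
    have e1 : 0 ≤ (E - B) * (w * E - (E ^ 2 + E * B + B ^ 2) / 3) := by
      refine mul_nonneg (by linarith) ?_
      nlinarith [mul_nonneg (hB.le.trans hBE) (sub_nonneg.2 hE), mul_nonneg hB.le (sub_nonneg.2 hBE)]
    have e2 : 0 ≤ E * (w - E) ^ 2 := mul_nonneg (hB.le.trans hBE) (sq_nonneg _)
    nlinarith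
  · have e1 : 0 ≤ (w - B) ^ 2 * (2 * w + B) := by positivity
    have e2 : (w + E) ^ 2 ≤ (w + D) ^ 2 := by nlinarith
    have e3 := mul_le_mul_of_nonneg_left e2 h1.le
    have e4 : 0 ≤ w * ((E - w) * ((E + 3 * w) / 4 - B)) :=
      mul_nonneg h1.le (mul_nonneg (by linarith) (by linarith))
    nlinarith

theorem dd_base {w A B D : ℝ} (h : Dom w A B) (hD1 : D ≤ 1) (hs : A + B ≤ w + D) (hD0 : 0 ≤ D) :
    fAB w A B ≤ w * (w + D) ^ 2 / 4 - w ^ 3 / 3 + (1 - D) ^ 3 / 12 := by
  obtain ⟨h1, h2, h3, h4, h5, h6⟩ := h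
  have hc : 0 ≤ (1 - D) ^ 3 := by
    have : 0 ≤ 1 - D := by linarith
    positivity
  rcases fAB_cases ⟨h1, h2, h3, h4, h5, h6⟩ with ⟨a, b, e⟩ | ⟨a, b, e⟩ | ⟨a, b, e⟩ | ⟨a, b, e⟩
  · rw [e]
    have e1 : A * B ≤ (w + D) ^ 2 / 4 := by nlinarith [sq_nonneg (A - B)]
    have e2 := mul_le_mul_of_nonneg_left e1 h1.le
    nlinarith
  · rw [e]
    exact dd_mid h1 h2 hD1 h4 a (by linarith) (by linarith)
  · rw [e]
    exact dd_mid h1 h2 hD1 h3 a (by linarith) (by linarith)
  · rw [e]
    obtain ⟨E, hE⟩ : ∃ E, E = A + B - w := ⟨_, rfl⟩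
    rw [← hE]
    have E0 : 0 ≤ E := by linarith
    have e1 : A * B ≤ (E + w) ^ 2 / 4 := by
      have : E + w = A + B := by linarith
      rw [this]
      nlinarith [sq_nonneg (A - B)]
    have e2 := mul_le_mul_of_nonneg_left e1 E0
    have := dd_core h1 h2 hD1 E0 (by linarith) (by linarith : E ≤ D)
    linarith

theorem dq_mono {D a b : ℝ} (h0 : 0 ≤ a) (hab : a ≤ b) (hb : b ≤ D) (hD : D ≤ 1) :
    D * a - a ^ 3 / 3 ≤ D * b - b ^ 3 / 3 := by
  have : 0 ≤ (b - a) * (D - (a ^ 2 + a * b + b ^ 2) / 3) := by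
    refine mul_nonneg (by linarith) ?_
    have : 0 ≤ D := by linarith
    nlinarith [mul_nonneg h0 (sub_nonneg.2 hab), mul_nonneg (h0.trans hab) (sub_nonneg.2 hb),
      mul_nonneg this (sub_nonneg.2 hD)]
  nlinarith

theorem dn_mono {D w a b : ℝ} (h0 : 0 ≤ a) (hab : a ≤ b) (hb : b ≤ D) (hbw : b ≤ w) :
    D * w * a - a ^ 3 / 3 ≤ D * w * b - b ^ 3 / 3 := by
  have : 0 ≤ (b - a) * (D * w - (a ^ 2 + a * b + b ^ 2) / 3) := by
    refine mul_nonneg (by linarith) ?_
    have hb0 := h0.trans hab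
    have h1 : b * b ≤ D * w := mul_le_mul hb hbw hb0 (by linarith)
    nlinarith [mul_nonneg h0 (sub_nonneg.2 hab)]
  nlinarith

theorem dd_q {w A B X D : ℝ} (h : Dom w A B) (hs : A + B ≤ w + D) (hX : B ≤ X) (hX1 : X ≤ D)
    (hD : D ≤ 1) : fAB w A B ≤ D * X - X ^ 3 / 3 := by
  obtain ⟨h1, h2, h3, h4, h5, h6⟩ := h
  have hB := dq_mono h4.le hX hX1 hD
  have hB1 : B ≤ D := hX.trans hX1
  have D0 : 0 ≤ D := by linarith
  refine le_trans ?_ hB
  rcases fAB_cases ⟨h1, h2, h3, h4, h5, h6⟩ with ⟨a, b, e⟩ | ⟨a, b, e⟩ | ⟨a, b, e⟩ | ⟨a, b, e⟩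
  · rw [e]
    refine le_trans ?_ (dq_mono h1.le b hB1 hD)
    have : w * A * B ≤ D * w := by
      have : A * B ≤ D := by nlinarith [mul_nonneg h4.le (sub_nonneg.2 b)]
      nlinarith
    linarith
  · rw [e]
    have : w * B * (A + B - w) ≤ D * B := by
      have : w * (A + B - w) ≤ D := by nlinarith
      nlinarith
    linarith
  · rw [e]
    refine le_trans ?_ (dq_mono h3.le (a.trans b) hB1 hD)
    have : w * A * (A + B - w) ≤ D * A := by
      have : w * (A + B - w) ≤ D := by nlinarith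
      nlinarith
    linarith
  · rw [e]
    have hE : 0 ≤ A + B - w := by linarith
    refine le_trans ?_ (dq_mono hE (by linarith : A + B - w ≤ B) hB1 hD)
    have : (A + B - w) * A * B ≤ D * (A + B - w) := by
      have : A * B ≤ D := by nlinarith
      nlinarith
    linarith

theorem dd_n {w A B X D : ℝ} (h : Dom w A B) (hs : A + B ≤ w + D) (hX : B ≤ X) (hX1 : X ≤ D)
    (hXw : X ≤ w) : fAB w A B ≤ D * w * X - X ^ 3 / 3 := by
  obtain ⟨h1, h2, h3, h4, h5, h6⟩ := h
  have hB := dn_mono h4.le hX hX1 hXw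
  have hB1 : B ≤ D := hX.trans hX1
  have hBw : B ≤ w := hX.trans hXw
  have D0 : 0 ≤ D := by linarith
  refine le_trans ?_ hB
  rcases fAB_cases ⟨h1, h2, h3, h4, h5, h6⟩ with ⟨a, b, e⟩ | ⟨a, b, e⟩ | ⟨a, b, e⟩ | ⟨a, b, e⟩
  · have hb : B = w := le_antisymm hBw b
    rw [e]
    subst hb
    have : B * A * B ≤ D * B * B := by
      have : A ≤ D := by linarith
      nlinarith [mul_pos h4 h4]
    linarith
  · rw [e]
    have : w * B * (A + B - w) ≤ w * B * D :=
      mul_le_mul_of_nonneg_left (by linarith) (by positivity)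
    linarith
  · have hb : B = w := le_antisymm hBw b
    rw [e]
    subst hb
    refine le_trans ?_ (dn_mono h3.le a hB1 le_rfl)
    have : B * A * (A + B - B) ≤ B * A * D := by
      refine mul_le_mul_of_nonneg_left ?_ (by positivity)
      linarith
    linarith
  · rw [e]
    have hE : 0 ≤ A + B - w := by linarith
    refine le_trans ?_ (dn_mono hE (by linarith : A + B - w ≤ B) hB1 hBw)
    have : (A + B - w) * A * B ≤ D * w * (A + B - w) := by
      have : A * B ≤ D * w := by nlinarith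
      nlinarith
    linarith

/-! ### Soundness of the bounds for one cell -/

theorem any_base {w A B : ℝ} (h : Dom w A B) : fAB w A B ≤ bb w := by
  refine (dd_base h le_rfl (by linarith [h.hi]) zero_le_one).trans (le_of_eq ?_)
  unfold bb
  ring

theorem dd_mono {D a b : ℝ} (hD : 1 / 4 ≤ D) (h0 : 0 ≤ a) (hab : a ≤ b) (hb : b ≤ 1) :
    a * (a + D) ^ 2 / 4 - a ^ 3 / 3 ≤ b * (b + D) ^ 2 / 4 - b ^ 3 / 3 := by
  have : 0 ≤ (b - a) * (D ^ 2 / 4 + D * (a + b) / 2 - (a ^ 2 + a * b + b ^ 2) / 12) := by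
    refine mul_nonneg (by linarith) ?_
    nlinarith [mul_nonneg h0 (sub_nonneg.2 hab), mul_nonneg (h0.trans hab) (sub_nonneg.2 hb),
      mul_nonneg h0 (h0.trans hab), mul_nonneg (sub_nonneg.2 hD) (add_nonneg h0 (h0.trans hab))]
  nlinarith

theorem base_sound (τ : Knd) {w A B : ℝ} (h : Dom w A B) (hτ : τ.Ok w A B) {hh : ℕ}
    (hw : 128 * w ≤ hh) (h1 : hh ≤ 128) : 402653184000 * fAB w A B ≤ base τ hh := by
  have h1' : (hh : ℝ) ≤ 128 := by exact_mod_cast h1
  have w0 := h.w0.le
  have wH : w ≤ (hh : ℝ) / 128 := by linarith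
  have H1 : (hh : ℝ) / 128 ≤ 1 := by linarith
  cases τ with
  | any =>
    have e1 := (any_base h).trans (bb_mono w0 wH H1)
    unfold bb at e1
    unfold base
    rw [Nat.cast_mul]
    have := sub_cast (a := 3 * hh * 16384 + 768 * hh ^ 2) (b := hh ^ 3)
      (r := 402653184000 / 16000 * fAB w A B) (by push_cast; linarith)
    push_cast at this ⊢
    linarith
  | non =>
    have e1 := (no_p h hτ).trans (PP_mono w0 wH H1)
    unfold PP at e1
    unfold base
    rw [Nat.cast_mul]
    have k := sub_cast (a := 983040 + 19200 * hh) (b := 31 * hh ^ 2)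
      (r := (983040 + 19200 * (hh : ℝ)) - 31 * (hh : ℝ) ^ 2) (by push_cast; linarith)
    have k2 : (0 : ℝ) ≤ ((512 * hh : ℕ) : ℝ) := Nat.cast_nonneg _
    have k3 := mul_le_mul_of_nonneg_left k k2
    refine le_trans ?_ k3
    push_cast
    linarith
  | dd k =>
    obtain ⟨k5, k20, hs⟩ := hτ
    have k5' : (5 : ℝ) ≤ k := by exact_mod_cast k5
    have k20' : (k : ℝ) ≤ 20 := by exact_mod_cast k20
    have e1 := dd_base h (D := (k : ℝ) / 20) (by linarith) hs (by linarith)
    have e2 := dd_mono (D := (k : ℝ) / 20) (by linarith) w0 wH H1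
    unfold base
    refine sub_cast ?_
    push_cast [Nat.cast_sub k20]
    nlinarith

theorem one_sound (τ : Knd) {w A B : ℝ} (h : Dom w A B) (hτ : τ.Ok w A B) {l hh x : ℕ}
    (hl : l ≤ 128 * w) (hw : 128 * w ≤ hh) (hx : 128 * B ≤ x) (hx1 : x ≤ 128) :
    402653184000 * fAB w A B ≤ one τ l hh x := by
  have hx1' : (x : ℝ) ≤ 128 := by exact_mod_cast hx1
  have wH : w ≤ (hh : ℝ) / 128 := by linarith
  have hX : B ≤ (x : ℝ) / 128 := by linarith
  have X0 : 0 ≤ (x : ℝ) / 128 := by positivity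
  have X1 : (x : ℝ) / 128 ≤ 1 := by linarith
  have hc : fAB w A B ≤ (hh : ℝ) / 128 * ((x : ℝ) / 128) :=
    (fAB_c h hX).trans (mul_le_mul_of_nonneg_right wH X0)
  have hg := fAB_G h hX X1
  unfold one
  refine le_mn (le_mn ?_ ?_) ?_
  · rw [Nat.cast_mul]
    have := sub_cast (a := 49152 * x) (b := x ^ 3)
      (r := 402653184000 / 64000 * fAB w A B) (by push_cast; linarith)
    push_cast at this ⊢
    linarith
  · push_cast
    linarith
  · have hcc : 402653184000 * fAB w A B ≤ ((24576000 * hh * x : ℕ) : ℝ) := by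
      push_cast
      linarith
    rcases hxl : Nat.ble x l with _ | _
    · simp only [cond_false]
      cases τ with
      | any => exact hcc
      | non =>
        simp only
        rcases hb : (Nat.ble 3456 (100 * x) && Nat.ble (5 * x) 512) with _ | _
        · simpa using hcc
        · simp only [cond_true]
          rw [Bool.and_eq_true] at hb
          have b1 : 3456 ≤ 100 * x := Nat.le_of_ble_eq_true hb.1
          have b2 : 5 * x ≤ 512 := Nat.le_of_ble_eq_true hb.2
          have b1' : (3456 : ℝ) ≤ 100 * x := by exact_mod_cast b1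
          have b2' : (5 : ℝ) * x ≤ 512 := by exact_mod_cast b2
          have := no_q h hτ hX (by linarith) (by linarith)
          refine sub_cast ?_
          push_cast
          linarith
      | dd k =>
        simp only
        rcases hb : Nat.ble (20 * x) (128 * k) with _ | _
        · simpa using hcc
        · simp only [cond_true]
          have b1 : 20 * x ≤ 128 * k := Nat.le_of_ble_eq_true hb
          have b1' : (20 : ℝ) * x ≤ 128 * k := by exact_mod_cast b1
          obtain ⟨k5, k20, hs⟩ := hτ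
          have k20' : (k : ℝ) ≤ 20 := by exact_mod_cast k20
          have := dd_q h hs hX (by linarith) (by linarith)
          refine sub_cast ?_
          push_cast
          linarith
    · simp only [cond_true]
      have hxl' : x ≤ l := Nat.le_of_ble_eq_true hxl
      have hxl2 : (x : ℝ) ≤ l := by exact_mod_cast hxl'
      have Xw : (x : ℝ) / 128 ≤ w := by linarith
      have hs1 := fAB_w h hX Xw
      have hm1 : w * ((x : ℝ) / 128) ≤ (hh : ℝ) / 128 * ((x : ℝ) / 128) :=
        mul_le_mul_of_nonneg_right wH X0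
      have hcc2 : 402653184000 * fAB w A B ≤ ((24576000 * hh * x - 64000 * x ^ 3 : ℕ) : ℝ) := by
        refine sub_cast ?_
        push_cast
        linarith
      cases τ with
      | any => exact hcc2
      | non =>
        simp only
        rcases hb : (Nat.ble 3456 (100 * x) && Nat.ble (5 * x) 512) with _ | _
        · simpa using hcc2
        · simp only [cond_true]
          rw [Bool.and_eq_true] at hb
          have b1 : 3456 ≤ 100 * x := Nat.le_of_ble_eq_true hb.1
          have b2 : 5 * x ≤ 512 := Nat.le_of_ble_eq_true hb.2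
          have b1' : (3456 : ℝ) ≤ 100 * x := by exact_mod_cast b1
          have b2' : (5 : ℝ) * x ≤ 512 := by exact_mod_cast b2
          have := no_n h hτ hX (by linarith) (by linarith) Xw
          refine sub_cast ?_
          push_cast
          linarith
      | dd k =>
        simp only
        rcases hb : Nat.ble (20 * x) (128 * k) with _ | _
        · simpa using hcc2
        · simp only [cond_true]
          have b1 : 20 * x ≤ 128 * k := Nat.le_of_ble_eq_true hb
          have b1' : (20 : ℝ) * x ≤ 128 * k := by exact_mod_cast b1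
          obtain ⟨k5, k20, hs⟩ := hτ
          have k20' : (k : ℝ) ≤ 20 := by exact_mod_cast k20
          have k0' : (0 : ℝ) ≤ k := Nat.cast_nonneg _
          have e1 := dd_n h hs hX (by linarith) Xw
          have e2 := mul_le_mul_of_nonneg_left hm1 k0'
          refine sub_cast ?_
          push_cast
          nlinarith

theorem two_sound {w A B : ℝ} (h : Dom w A B) {hh x y : ℕ}
    (hw : 128 * w ≤ hh) (hx : 128 * A ≤ x) (hx1 : x ≤ 128) (hy : 128 * B ≤ y) (hy1 : y ≤ 128) :
    402653184000 * fAB w A B ≤ two hh x y := by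
  have hx1' : (x : ℝ) ≤ 128 := by exact_mod_cast hx1
  have hy1' : (y : ℝ) ≤ 128 := by exact_mod_cast hy1
  have wH : w ≤ (hh : ℝ) / 128 := by linarith
  have hX : A ≤ (x : ℝ) / 128 := by linarith
  have hY : B ≤ (y : ℝ) / 128 := by linarith
  have X1 : (x : ℝ) / 128 ≤ 1 := by linarith
  have Y1 : (y : ℝ) / 128 ≤ 1 := by linarith
  have X0 : 0 ≤ (x : ℝ) / 128 := by positivity
  have Y0 : 0 ≤ (y : ℝ) / 128 := by positivity
  have H0 : 0 ≤ (hh : ℝ) / 128 := by positivity
  unfold two
  refine le_mn ?_ (le_mn ?_ ?_)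
  · have e1 : w * A * B ≤ (hh : ℝ) / 128 * ((x : ℝ) / 128) * ((y : ℝ) / 128) :=
      mul_le_mul (mul_le_mul wH hX h.A0.le H0) hY h.B0.le (mul_nonneg H0 X0)
    have e2 := (fAB_le h).trans e1
    push_cast
    linarith
  · have e1 := fAB_two h.symm (X := (x : ℝ) / 128) (Y := (y : ℝ) / 128) hX X1 hY Y1
    rw [← fAB_symm] at e1
    rw [Nat.cast_mul]
    have k := sub_cast (a := 49152 * x) (b := x ^ 3)
      (r := 49152 * (x : ℝ) - (x : ℝ) ^ 3) (by push_cast; linarith)
    have k2 : (0 : ℝ) ≤ ((500 * y : ℕ) : ℝ) := Nat.cast_nonneg _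
    have k3 := mul_le_mul_of_nonneg_left k k2
    refine le_trans ?_ k3
    push_cast
    linarith
  · have e1 := fAB_two h (X := (y : ℝ) / 128) (Y := (x : ℝ) / 128) hY Y1 hX X1
    rw [Nat.cast_mul]
    have k := sub_cast (a := 49152 * y) (b := y ^ 3)
      (r := 49152 * (y : ℝ) - (y : ℝ) ^ 3) (by push_cast; linarith)
    have k2 : (0 : ℝ) ≤ ((500 * x : ℕ) : ℝ) := Nat.cast_nonneg _
    have k3 := mul_le_mul_of_nonneg_left k k2
    refine le_trans ?_ k3
    push_cast
    linarith

theorem Knd.Ok.symm {τ : Knd} {w A B : ℝ} (h : τ.Ok w A B) : τ.Ok w B A := by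
  cases τ with
  | any => trivial
  | non => exact NO.symm h
  | dd k =>
    obtain ⟨h1, h2, h3⟩ := h
    exact ⟨h1, h2, by linarith⟩

theorem cell_sound (τ : Knd) {w A B : ℝ} (h : Dom w A B) (hτ : τ.Ok w A B) {l hh x y : ℕ}
    (hl : l ≤ 128 * w) (hw : 128 * w ≤ hh) (h1 : hh ≤ 128) (hx : 128 * A ≤ x) (hy : 128 * B ≤ y) :
    402653184000 * fAB w A B ≤ cell τ l hh x y := by
  have kb := base_sound τ h hτ hw h1
  unfold cell
  rcases bx : Nat.ble x 128 with _ | _ <;> rcases by' : Nat.ble y 128 with _ | _ <;>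
    simp only [cond_true, cond_false]
  · exact kb
  · exact le_mn kb (one_sound τ h hτ hl hw hy (Nat.le_of_ble_eq_true by'))
  · refine le_mn kb ?_
    rw [fAB_symm]
    exact one_sound τ h.symm hτ.symm hl hw hx (Nat.le_of_ble_eq_true bx)
  · refine le_mn (le_mn kb (two_sound h hw hx (Nat.le_of_ble_eq_true bx) hy
      (Nat.le_of_ble_eq_true by'))) (le_mn ?_ ?_)
    · rw [fAB_symm]
      exact one_sound τ h.symm hτ.symm hl hw hx (Nat.le_of_ble_eq_true bx)
    · exact one_sound τ h hτ hl hw hy (Nat.le_of_ble_eq_true by')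

end Pool.Agent.Helper44.TS
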