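import Pool.Agent.Helper44.TS.Search

/-!
# The box searches
-/

set_option autoImplicit false

namespace Pool.Agent.Helper44.TS

/-- no owner -/
def sN : Spec := ⟨Knd.non, Knd.non, Knd.non, 256, 256, 256, 256, 256, 256⟩

/-- two cells which are not owners, the third cell with a small component towards the second one -/
def sK : Spec := ⟨Knd.non, Knd.non, Knd.any, 256, 256, 256, 256, 256, 49⟩

/-- the first cell is not an owner, the two others have small components towards each other -/
def sKK : Spec := ⟨Knd.non, Knd.any, Knd.any, 256, 256, 256, 49, 256, 36⟩

/-- the first cell has `d ≥ 1/20`, the others are not owners -/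
def sD19 : Spec := ⟨Knd.dd 19, Knd.non, Knd.non, 256, 256, 256, 256, 256, 256⟩

/-- the first cell has `d ≥ 1/10`, the others are not owners -/
def sD18 : Spec := ⟨Knd.dd 18, Knd.non, Knd.non, 256, 256, 256, 256, 256, 256⟩

theorem box_N : srchAll sN 259308650496 21 = true := by decide +kernel

theorem box_K : srchAll sK 259308650496 21 = true := by decide +kernel

theorem box_KK : srchAll sKK 253913097830 21 = true := by decide +kernel

theorem box_D19 : srchAll sD19 268569673728 21 = true := by decide +kernel

theorem box_D18 : srchAll sD18 259308650496 21 = true := by decide +kernel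

end Pool.Agent.Helper44.TS
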