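import Pool.Agent.Helper44.TS.Fourth2

/-!
# Three classes that are not good
-/

set_option autoImplicit false

namespace Pool.Agent.Helper44.TS

open Pool.Agent.Helper84.TS Pool.Agent.Helper36.TS

variable {A : Fin 4 → Fin 4 → Option (Fin 4 → ℝ)}

/-! ### More bounds for tall classes -/

theorem TC.no' (h : OF A) {i m : Fin 4} {M F : Fin 4 → ℝ} (hc : TC A i m M F)
    (ho : ¬ HasOw A i m) : VV A i ≤ 31 / 50 :=
  hc.no h fun h1 => ho ⟨hc.ne, F, hc.hF, h1⟩

/-- a tall class with a main cell with `d ≥ 2/5` and a far cell with `d ≥ 1/10` -/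
theorem TC.dd (h : OF A) {i m : Fin 4} {M F : Fin 4 → ℝ} (hc : TC A i m M F)
    (hd : 1 / 10 ≤ F i - 1) (hm : 2 / 5 ≤ M i - 1) : VV A i ≤ 161 / 250 := by
  obtain ⟨x, y, hn⟩ := exists_rest2 hc.ne.symm
  have ht := hc.nums h hn
  have t0 : 13 / 20 ≤ M m + (M i - 1) := by linarith [hc.hw, ht.wt]
  have t1 := ht.t1
  have e1 := (fcl_ph_d h hc.ne hc.hF hd).trans (ph_mono (by linarith [hc.hw]) ht.wt t1)
  have e2 := ht.fM
  have e3 := ht.vv
  have e5 : 0 ≤ (M i - 1 - 2 / 5) * ((1 - (M m + (M i - 1))) * (5 - (M m + (M i - 1)))) :=
    mul_nonneg (by linarith) (mul_nonneg (by linarith [ht.t1]) (by linarith [ht.t1]))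
  have e6 : 0 ≤ (1 - (M i - 1)) * (M x + (1 + (M m + (M i - 1))) / 2) ^ 2 :=
    mul_nonneg (by linarith [hc.hd]) (sq_nonneg _)
  obtain ⟨t, htt⟩ : ∃ t, t = M m + (M i - 1) := ⟨_, rfl⟩
  rw [← htt] at e1 e2 t0 t1 e5 e6
  have e4 : HH t + ph t - 1 / 10 * ((1 - t) * (5 - t)) ≤ 161 / 250 := by
    unfold HH ph
    nlinarith [mul_nonneg (sub_nonneg.2 t0) (sub_nonneg.2 t1),
      mul_nonneg (mul_nonneg (sub_nonneg.2 t0) (sub_nonneg.2 t1)) (sub_nonneg.2 t0)]
  linarith

/-- a tall class with a main cell with `d ≥ 2/5` -/
theorem TC.high (h : OF A) {i m : Fin 4} {M F : Fin 4 → ℝ} (hc : TC A i m M F)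
    (hd : 2 / 5 ≤ M i - 1) : VV A i ≤ 2 / 3 := by
  obtain ⟨x, y, hn⟩ := exists_rest2 hc.ne.symm
  have ht := hc.nums h hn
  have t0 : 13 / 20 ≤ M m + (M i - 1) := by linarith [hc.hw, ht.wt]
  have t1 := ht.t1
  have e1 := TN.le_bb h hc ht
  have e2 := ht.fM
  have e3 := ht.vv
  have e5 : 0 ≤ (M i - 1 - 2 / 5) * ((1 - (M m + (M i - 1))) * (5 - (M m + (M i - 1)))) :=
    mul_nonneg (by linarith) (mul_nonneg (by linarith [ht.t1]) (by linarith [ht.t1]))
  have e6 : 0 ≤ (1 - (M i - 1)) * (M x + (1 + (M m + (M i - 1))) / 2) ^ 2 :=
    mul_nonneg (by linarith [hc.hd]) (sq_nonneg _)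
  obtain ⟨t, htt⟩ : ∃ t, t = M m + (M i - 1) := ⟨_, rfl⟩
  rw [← htt] at e1 e2 t0 t1 e5 e6
  have e4 : HH t + bb t - 1 / 10 * ((1 - t) * (5 - t)) ≤ 2 / 3 := by
    unfold HH bb
    nlinarith [mul_nonneg (sub_nonneg.2 t0) (sub_nonneg.2 t1),
      mul_nonneg (mul_nonneg (sub_nonneg.2 t0) (sub_nonneg.2 t1)) (sub_nonneg.2 t0)]
  linarith

/-! ### Star classes -/

/-- a star class: a tall class with `V > 3403/5000` -/
structure Star (A : Fin 4 → Fin 4 → Option (Fin 4 → ℝ)) (b m x y : Fin 4) (M F : Fin 4 → ℝ) :
    Prop where
  d : M b - 1 < 1 / 10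
  hx : 1 + M x + (M b - 1) ≤ 19 / 50
  hy : 1 + M y + (M b - 1) ≤ 19 / 50
  xy : 1 + M x + (M b - 1) ≤ 7 / 25 ∨ 1 + M y + (M b - 1) ≤ 7 / 25
  ow : HasOw A b m
  q : 3519 / 5000 < VV A b → -M y ≤ 19 / 20

theorem TC.star (h : OF A) {b m x y : Fin 4} {M F : Fin 4 → ℝ} (hc : TC A b m M F)
    (hn : [b, m, x, y].Nodup) (hV : 3403 / 5000 < VV A b) : Star A b m x y M F := by
  have ht := hc.nums h hn
  have ht' := hc.nums h (perm_kl hn)
  have e1 := TN.le_bb h hc ht
  have t0 : 13 / 20 ≤ M m + (M b - 1) := by linarith [hc.hw, ht.wt]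
  have vx : VV A b ≤ HH (M m + (M b - 1)) -
      (M b - 1) * ((1 - (M m + (M b - 1))) * (5 - (M m + (M b - 1)))) / 4 -
      (1 - (M b - 1)) * (M x + (1 + (M m + (M b - 1))) / 2) ^ 2 + bb (M m + (M b - 1)) := by
    linarith [ht.vv, ht.fM]
  have vy : VV A b ≤ HH (M m + (M b - 1)) -
      (M b - 1) * ((1 - (M m + (M b - 1))) * (5 - (M m + (M b - 1)))) / 4 -
      (1 - (M b - 1)) * (M y + (1 + (M m + (M b - 1))) / 2) ^ 2 + bb (M m + (M b - 1)) := by
    linarith [ht'.vv, ht'.fM]
  have d1 : M b - 1 ≤ 3 / 5 := hc.hd.le
  have hd := star_d t0 ht.t1 d1 (hV.trans_le vx)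
  refine ⟨hd, ?_, ?_, ?_, ?_, ?_⟩
  · exact star_x t0 ht.t1 ht.d0 d1 (by linarith [ht.xy, ht.y1]) (hV.trans_le vx)
  · exact star_x t0 ht.t1 ht.d0 d1 (by linarith [ht.xy, ht.x1]) (hV.trans_le vy)
  · by_contra hcon
    push Not at hcon
    linarith [hcon.1, hcon.2, ht.xy]
  · by_contra hcon
    have := hc.no' h hcon
    linarith
  · intro hV'
    exact star_q t0 ht.t1 ht.d0 d1 (hV'.trans_le vy)

/-! ### Classes that are not good -/

/-- a class of kind `R2` or a tall class -/
def NG (A : Fin 4 → Fin 4 → Option (Fin 4 → ℝ)) (i : Fin 4) : Prop :=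
  R2 A i ∨ ∃ m M F, TC A i m M F

theorem ng_of {i : Fin 4} (h : ¬ Good A i) : NG A i := by
  rcases not_good h with h | ⟨M, hM, hd, j, F, hj, hF, hw⟩
  · exact Or.inl h
  · exact Or.inr ⟨j, M, F, hM, hd, hj, hF, hw⟩

theorem NG.le (h : OF A) {i : Fin 4} (hi : NG A i) : VV A i ≤ 1793 / 2500 := by
  rcases hi with hi | ⟨m, M, F, hi⟩
  · have := R2_le h hi
    linarith
  · exact hi.le h

/-- a class that is not good and not a star -/
def Pl (A : Fin 4 → Fin 4 → Option (Fin 4 → ℝ)) (i : Fin 4) : Prop :=
  R2 A i ∨ ((∃ m M F, TC A i m M F) ∧ VV A i ≤ 3403 / 5000)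

theorem Pl.le (h : OF A) {i : Fin 4} (hi : Pl A i) : VV A i ≤ 19 / 27 := by
  rcases hi with hi | ⟨-, hi⟩
  · exact R2_le h hi
  · linarith

theorem Pl.no (h : OF A) {i : Fin 4} (hi : Pl A i) (ho : ∀ m, ¬ HasOw A i m) :
    VV A i ≤ 263 / 400 := by
  rcases hi with hi | ⟨⟨m, M, F, hi⟩, -⟩
  · exact R2_no h hi ho
  · have := hi.no' h (ho m)
    linarith

theorem Pl.one (h : OF A) {i : Fin 4} (hi : Pl A i)
    (ho : ∀ m m', HasOw A i m → HasOw A i m' → m = m') : VV A i ≤ 3403 / 5000 := by
  rcases hi with hi | ⟨-, hi⟩
  · exact R2_one h hi ho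
  · exact hi

theorem three_Pl_sum (h : OF A) {b c e : Fin 4} (hbc : b ≠ c) (hbe : b ≠ e) (hce : c ≠ e)
    (Rb : Pl A b) (Rc : Pl A c) (Re : Pl A e) : VV A b + VV A c + VV A e ≤ 413 / 200 := by
  have vb := Rb.le h
  have vc := Rc.le h
  have ve := Re.le h
  rcases count (HasOw A) (fun i x m hix h1 h2 => ow_excl h hix h1 h2) hbc hbe hce with
    ⟨i, hi, h0⟩ | ⟨i, x, hi, h0, h1⟩
  · rcases hi with rfl | rfl | rfl
    · have := Rb.no h h0
      linarith
    · have := Rc.no h h0
      linarith
    · have := Re.no h h0
      linarith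
  · rcases hi with ⟨rfl, rfl⟩ | ⟨rfl, rfl⟩ | ⟨rfl, rfl⟩
    · have := Rb.one h h0
      have := Rc.one h h1
      linarith
    · have := Rb.one h h0
      have := Re.one h h1
      linarith
    · have := Rc.one h h0
      have := Re.one h h1
      linarith

/-! ### A star class -/

/-- the far cell of the star class is in the column of the good class -/
theorem star_a (h : OF A) {a b c e : Fin 4} {M F : Fin 4 → ℝ} (hn : [b, c, a, e].Nodup)
    (ha : Good A a) (hb : TC A b a M F) (hd : M b - 1 < 1 / 10) (hc : NG A c) (he : NG A e) :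
    ∑ i, VV A i ≤ 613 / 200 := by
  rw [sum4 hn]
  have h1 := a_star h hb hd ha
  have h2 := hb.le h
  have h3 := hc.le h
  have h4 := he.le h
  linarith

theorem perm_c1 : ∀ {a b c e : Fin 4}, [b, c, a, e].Nodup → [c, b, a, e].Nodup ∧
    [c, a, b, e].Nodup ∧ [c, e, b, a].Nodup ∧ [e, b, c, a].Nodup ∧ [e, a, b, c].Nodup ∧
    [c, b, e, a].Nodup ∧ [e, c, a, b].Nodup ∧ [b, c, e, a].Nodup ∧ c ≠ e ∧ b ≠ e ∧ a ≠ b ∧ a ≠ c ∧ a ≠ e ∧
    b ≠ c := by
  decide

/-- a tall class whose column is not `b`, not `c` -/
theorem TC.col {A : Fin 4 → Fin 4 → Option (Fin 4 → ℝ)} {e m : Fin 4} {M F : Fin 4 → ℝ}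
    (he : TC A e m M F) {b c a : Fin 4} (hn : [e, b, c, a].Nodup) (h1 : m ≠ b) (h2 : m ≠ c) :
    m = a := by
  rcases mem4 hn m with e1 | e1 | e1 | e1
  · exact absurd e1 he.ne
  · exact absurd e1 h1
  · exact absurd e1 h2
  · exact e1

theorem cap_not_ow {i m n : Fin 4} (hni : n ≠ i) (hnm : n ≠ m)
    (hc : ∀ G, A i m = some G → 1 - (G n + (G i - 1)) ≤ 1 / 5) : ¬ HasOw A i m := by
  rintro ⟨-, G, hG, hO⟩
  have := hc G hG
  have := hO.2 n hni hnm
  linarith

/-- the far cell of the star class is in the column of the class `c` -/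
theorem star_c (h : OF A) {a b c e : Fin 4} {M F : Fin 4 → ℝ} (hn : [b, c, a, e].Nodup)
    (ha : Good A a) (hb : TC A b c M F) (hV : 3403 / 5000 < VV A b) (hc : NG A c) (he : NG A e) :
    ∑ i, VV A i ≤ 613 / 200 := by
  obtain ⟨n1, n2, n3, n4, n5, n6, n7, n8, ce, be, ab, ac, ae, bc⟩ := perm_c1 hn
  have hs := hb.star h hn hV
  have va := vv_le_one h a
  have vb := hb.le h
  have vc := hc.le h
  have ve := he.le h
  rcases hc with Rc | ⟨m, N, G, tc⟩
  · have vc' := R2_le h Rc
    by_cases hH : HasOw A c b
    · have heb : ¬ HasOw A e b := fun ho => ow_excl h ce hH ho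
      have hec : ¬ HasOw A e c := fun ho => ow_excl h be hs.ow ho
      rcases he with Re | ⟨m, N, G, te⟩
      · by_cases hG : HasOw A e a
        · obtain ⟨-, G, hG, hO⟩ := id hG
          rcases tall_AB h hb hn hG with kA | kB
          · have := R2_cap h n4 Re heb hec fun G' hG' => by
              rw [hG] at hG'
              obtain rfl := Option.some.inj hG'
              linarith [hs.hx]
            rw [sum4 hn]
            linarith
          · have hca : ¬ HasOw A c a := fun ho => ow_excl h ce ho ‹HasOw A e a›
            by_cases hX : 1 + M e + (M b - 1) ≤ 1 / 5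
            · have hce : ¬ HasOw A c e := cap_not_ow ac ae fun G' hG' =>
                (tall_A h hb n8 hG').trans hX
              have vc2 := R2_one h Rc fun m m' h1 h2 => by
                have k1 : m = b := by
                  rcases mem4 n1 m with e1 | e1 | e1 | e1
                  · exact absurd e1 h1.1
                  · exact e1
                  · rw [e1] at h1
                    exact absurd h1 hca
                  · rw [e1] at h1
                    exact absurd h1 hce
                have k2 : m' = b := by
                  rcases mem4 n1 m' with e1 | e1 | e1 | e1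
                  · exact absurd e1 h2.1
                  · exact e1
                  · rw [e1] at h2
                    exact absurd h2 hca
                  · rw [e1] at h2
                    exact absurd h2 hce
                rw [k1, k2]
              by_cases hb2 : VV A b ≤ 3519 / 5000
              · have ve2 := R2_one h Re fun m m' h1 h2 => by
                  have k1 : m = a := by
                    rcases mem4 n4 m with e1 | e1 | e1 | e1
                    · exact absurd e1 h1.1
                    · rw [e1] at h1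
                      exact absurd h1 heb
                    · rw [e1] at h1
                      exact absurd h1 hec
                    · exact e1
                  have k2 : m' = a := by
                    rcases mem4 n4 m' with e1 | e1 | e1 | e1
                    · exact absurd e1 h2.1
                    · rw [e1] at h2
                      exact absurd h2 heb
                    · rw [e1] at h2
                      exact absurd h2 hec
                    · exact e1
                  rw [k1, k2]
                rw [sum4 hn]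
                linarith
              · have hq := hs.q (not_le.1 hb2)
                have := R2_d19 h n5 Re (fun G' hG' => by
                  rw [hG] at hG'
                  obtain rfl := Option.some.inj hG'
                  linarith) heb hec
                rw [sum4 hn]
                linarith
            · have := R2_d18 h n5 Re (fun G' hG' => by
                rw [hG] at hG'
                obtain rfl := Option.some.inj hG'
                linarith [hs.d]) heb hec
              rw [sum4 hn]
              linarith
        · have := R2_no' h Re fun m hm => by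
            rcases mem4 n4 m with e1 | e1 | e1 | e1
            · exact hm.1 e1
            · rw [e1] at hm
              exact heb hm
            · rw [e1] at hm
              exact hec hm
            · rw [e1] at hm
              exact hG hm
          rw [sum4 hn]
          linarith
      · by_cases hO : HasOw A e m
        · have hma : m = a := te.col n4 (by rintro rfl; exact heb hO) (by rintro rfl; exact hec hO)
          subst hma
          rcases tall_AB h hb hn te.hF with kA | kB
          · have := te.cap h n5 (by linarith [hs.hx])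
            rw [sum4 hn]
            linarith
          · by_cases hst : 3403 / 5000 < VV A e
            · have hd := (te.star h n5 hst).d
              refine star_a h (a := m) (b := e) (c := c) (e := b) n7 ha te hd (Or.inl Rc)
                (Or.inr ⟨_, _, _, hb⟩)
            · rcases le_total (N e - 1) (2 / 5) with hd | hd
              · have := a_high h te hd ha
                rw [sum4 hn]
                linarith
              · have ve2 := te.high h hd
                by_cases hG : 1 / 10 ≤ G e - 1
                · have := te.dd h hG hd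
                  rw [sum4 hn]
                  linarith
                · have hX : 1 + M e + (M b - 1) ≤ 1 / 5 := by linarith [hs.d]
                  have hca : ¬ HasOw A c m := fun ho => ow_excl h ce ho hO
                  have hce : ¬ HasOw A c e := cap_not_ow ac ae fun G' hG' =>
                    (tall_A h hb n8 hG').trans hX
                  have vc2 := R2_one h Rc fun p p' h1 h2 => by
                    have k1 : p = b := by
                      rcases mem4 n1 p with e1 | e1 | e1 | e1
                      · exact absurd e1 h1.1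
                      · exact e1
                      · rw [e1] at h1
                        exact absurd h1 hca
                      · rw [e1] at h1
                        exact absurd h1 hce
                    have k2 : p' = b := by
                      rcases mem4 n1 p' with e1 | e1 | e1 | e1
                      · exact absurd e1 h2.1
                      · exact e1
                      · rw [e1] at h2
                        exact absurd h2 hca
                      · rw [e1] at h2
                        exact absurd h2 hce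
                    rw [k1, k2]
                  rw [sum4 hn]
                  linarith
        · have := te.no' h hO
          rw [sum4 hn]
          linarith
    · have k1 : ∀ G, A c a = some G → 1 - (G e + (G c - 1)) ≤ 1 + M a + (M b - 1) :=
        fun G hG => tall_A h hb hn hG
      have k2 : ∀ G, A c e = some G → 1 - (G a + (G c - 1)) ≤ 1 + M e + (M b - 1) :=
        fun G hG => tall_A h hb n8 hG
      have : VV A c ≤ 3153 / 5000 := by
        rcases hs.xy with h7 | h7
        · exact R2_caps h n6 Rc hH (fun G hG => (k2 G hG).trans hs.hy)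
            (fun G hG => (k1 G hG).trans h7)
        · exact R2_caps h n1 Rc hH (fun G hG => (k1 G hG).trans hs.hx)
            (fun G hG => (k2 G hG).trans h7)
      rw [sum4 hn]
      linarith
  · have key : VV A c ≤ 3 / 5 := by
      rcases mem4 n1 m with e1 | e1 | e1 | e1
      · exact absurd e1 tc.ne
      · subst e1
        exact absurd (tall_two h hb tc) not_false
      · subst e1
        exact tc.cap h n2 ((tall_A h hb hn tc.hF).trans hs.hx)
      · subst e1
        exact tc.cap h n3 ((tall_A h hb n8 tc.hF).trans hs.hy)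
    rw [sum4 hn]
    linarith

theorem star_any (h : OF A) {a b c e m : Fin 4} {M F : Fin 4 → ℝ} (hn : [b, c, a, e].Nodup)
    (ha : Good A a) (hb : TC A b m M F) (hV : 3403 / 5000 < VV A b) (hc : NG A c) (he : NG A e) :
    ∑ i, VV A i ≤ 613 / 200 := by
  rcases mem4 hn m with e1 | e1 | e1 | e1
  · exact absurd e1 hb.ne
  · subst e1
    exact star_c h hn ha hb hV hc he
  · subst e1
    have hn' : [b, m, c, e].Nodup := perm_jk hn
    exact star_a h hn ha hb (hb.star h hn' hV).d hc he
  · subst e1
    exact star_c h (perm_jl hn |> perm_kl) ha hb hV he hc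

/-- **Three classes that are not good.** -/
theorem caseThree : CaseThree := by
  intro A h a b c l hn ha hb hc
  obtain ⟨n1, n2, n3, n4, n5, n6, n7, n8, bl, al, ca, cb, cl, ab⟩ := perm_c1 hn
  have Ra := ng_of ha
  have Rb := ng_of hb
  have Rc := ng_of hc
  by_cases hl : Good A l
  · have pl : ∀ i, NG A i → Pl A i ∨ ∃ m M F, TC A i m M F ∧ 3403 / 5000 < VV A i := by
      rintro i (h1 | ⟨m, M, F, h1⟩)
      · exact Or.inl (Or.inl h1)
      · by_cases hV : 3403 / 5000 < VV A i
        · exact Or.inr ⟨m, M, F, h1, hV⟩
        · exact Or.inl (Or.inr ⟨⟨m, M, F, h1⟩, not_lt.1 hV⟩)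
    rcases pl a Ra with Pa | ⟨m, M, F, ta, hV⟩
    · rcases pl b Rb with Pb | ⟨m, M, F, tb, hV⟩
      · rcases pl c Rc with Pc | ⟨m, M, F, tc, hV⟩
        · have := three_Pl_sum h ab ca.symm cb.symm Pa Pb Pc
          have := vv_le_one h l
          rw [sum4 hn]
          linarith
        · exact star_any h (a := l) (b := c) (c := a) (e := b) (by
            clear * - hn
            revert hn
            revert a b c l
            decide) hl tc hV Ra Rb
      · exact star_any h (a := l) (b := b) (c := a) (e := c) (by
          clear * - hn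
          revert hn
          revert a b c l
          decide) hl tb hV Ra Rc
    · exact star_any h (a := l) (b := a) (c := b) (e := c) (by
        clear * - hn
        revert hn
        revert a b c l
        decide) hl ta hV Rb Rc
  · have h1 := Ra.le h
    have h2 := Rb.le h
    have h3 := Rc.le h
    have h4 := (ng_of hl).le h
    rw [sum4 hn]
    linarith

end Pool.Agent.Helper44.TS
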