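import Pool.Agent.Helper44.TS.Main

/-!
# The value of one class

The cells of one class have total volume at most `1`; at most `19/27` if there is no main cell or if
there are two far cells; and there is a bound with the parameter of a far cell.
-/

set_option autoImplicit false

namespace Pool.Agent.Helper44.TS

open Pool.Agent.Helper84.TS Pool.Agent.Helper36.TS

/-- two far cells of one class: one of them supports the other one -/
theorem sup_pair {i j k : Fin 4} {u v : Fin 4 → ℝ} (hu : IsCell i u) (hv : IsCell i v)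
    (hs : Sep u v) (hj : j ≠ i) (hk : k ≠ i) (h1 : 1 < -u j) (h2 : 1 < -v k) :
    2 + v k ≤ u k + (u i - 1) ∨ 2 + u j ≤ v j + (v i - 1) := by
  have e1 : max (v i - u i) 0 ≤ v i - 1 := max_le (by linarith [hu.one]) (by linarith [hv.one])
  have e2 : max (u i - v i) 0 ≤ u i - 1 := max_le (by linarith [hv.one]) (by linarith [hu.one])
  rcases sep_far_far hu hv hs hj hk h1 h2 with h | h
  · right
    linarith [h.1]
  · left
    linarith [h.1]

theorem perm_kl : ∀ {i j k l : Fin 4}, [i, j, k, l].Nodup → [i, j, l, k].Nodup := by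
  decide

theorem perm_jk : ∀ {i j k l : Fin 4}, [i, j, k, l].Nodup → [i, k, j, l].Nodup := by
  decide

theorem perm_jl : ∀ {i j k l : Fin 4}, [i, j, k, l].Nodup → [i, l, j, k].Nodup := by
  decide

/-- a far cell `(i; j)` supported in the column `l` -/
theorem far_sup {i j k l : Fin 4} {v : Fin 4 → ℝ} {S : ℝ} (hv : IsCell i v)
    (h : [i, j, k, l].Nodup) (hf : 1 < -v j) (h0 : 0 ≤ S) (hS : S ≤ v l + (v i - 1)) :
    Sup (fcl i v) (2 + v j) S := by
  rw [far_AB hv h hf.le]
  exact sup_of (far_dom hv h hf.le) (by linarith) h0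

/-- a far cell supported in the two other columns -/
theorem far_sup_two {i j k l : Fin 4} {v : Fin 4 → ℝ} {S T : ℝ} (hv : IsCell i v)
    (h : [i, j, k, l].Nodup) (hf : 1 < -v j) (h0 : 0 ≤ S) (hS : S ≤ v k + (v i - 1))
    (h1 : 0 ≤ T) (hT : T ≤ v l + (v i - 1)) :
    fcl i v ≤ (2 + v j) * (1 - S) * (1 - T) ∧
      fcl i v ≤ (1 - T) * ((1 - S) - (1 - S) ^ 3 / 3) ∧
      fcl i v ≤ (1 - S) * ((1 - T) - (1 - T) ^ 3 / 3) := by
  have d := far_dom hv h hf.le
  rw [far_AB hv h hf.le]
  refine ⟨?_, ?_, ?_⟩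
  · refine (fAB_le d).trans ?_
    refine mul_le_mul ?_ (by linarith) d.B0.le ?_
    · exact mul_le_mul_of_nonneg_left (by linarith) d.w0.le
    · exact mul_nonneg d.w0.le (by linarith [d.A0])
  · rw [fAB_symm]
    exact fAB_two d.symm (by linarith) (by linarith) (by linarith) (by linarith)
  · exact fAB_two d (by linarith) (by linarith) (by linarith) (by linarith)

theorem far_W {i j : Fin 4} {v : Fin 4 → ℝ} (hv : IsCell i v) (hj : j ≠ i) (hf : 1 < -v j) :
    0 ≤ 2 + v j ∧ 2 + v j ≤ 1 := by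
  obtain ⟨k, l, h⟩ := exists_rest2 hj.symm
  have := cell_lin hv h
  constructor <;> linarith

theorem far_bb' {i j : Fin 4} {v : Fin 4 → ℝ} (hv : IsCell i v) (hj : j ≠ i) (hf : 1 < -v j) :
    fcl i v ≤ bb (2 + v j) := by
  obtain ⟨k, l, h⟩ := exists_rest2 hj.symm
  exact far_bb hv h hf.le

theorem one_far {i j : Fin 4} {v : Fin 4 → ℝ} (hv : IsCell i v) (hj : j ≠ i) (hf : 1 < -v j) :
    fcl i v ≤ 2 / 3 :=
  (far_bb' hv hj hf).trans (bb_le (far_W hv hj hf).1 (far_W hv hj hf).2)

theorem two_far {i j k l : Fin 4} {u v : Fin 4 → ℝ} (hu : IsCell i u) (hv : IsCell i v)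
    (h : [i, j, k, l].Nodup) (h1 : 1 < -u j) (h2 : 1 < -v k) (hs : Sep u v) :
    fcl i u + fcl i v ≤ 19 / 27 := by
  have n := nodup_ne h
  have wu := far_W hu n.1 h1
  have wv := far_W hv n.2.1 h2
  have fu := far_bb' hu n.1 h1
  have fv := far_bb' hv n.2.1 h2
  rcases sup_pair hu hv hs n.1 n.2.1 h1 h2 with e | e
  · have s := (far_sup hu (perm_kl h) h1 wv.1 e).g
    have t := two_num (x := 1 - (2 + v k)) (by linarith) (by linarith)
    rw [show 1 - (1 - (2 + v k)) = 2 + v k by ring] at t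
    linarith
  · have s := (far_sup hv (perm_kl (perm_jk h)) h2 wu.1 e).g
    have t := two_num (x := 1 - (2 + u j)) (by linarith) (by linarith)
    rw [show 1 - (1 - (2 + u j)) = 2 + u j by ring] at t
    linarith

/-- one of three far cells is supported by the two others -/
theorem three_tra {i j k l : Fin 4} {u v w : Fin 4 → ℝ} (hu : IsCell i u) (hv : IsCell i v)
    (hw : IsCell i w) (h : [i, j, k, l].Nodup) (h1 : 1 < -u j) (h2 : 1 < -v k) (h3 : 1 < -w l)
    (vw : Sep v w) (e1 : 2 + v k ≤ u k + (u i - 1)) (e2 : 2 + w l ≤ u l + (u i - 1)) :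
    fcl i u + fcl i v + fcl i w ≤ 19 / 27 := by
  have n := nodup_ne h
  have wu := far_W hu n.1 h1
  have wv := far_W hv n.2.1 h2
  have ww := far_W hw n.2.2 h3
  have fv := far_bb' hv n.2.1 h2
  have fw := far_bb' hw n.2.2 h3
  obtain ⟨s1, s2, s3⟩ := far_sup_two hu h h1 wv.1 e1 ww.1 e2
  rcases sup_pair hv hw vw n.2.1 n.2.2 h2 h3 with e | e
  · have s := far_sup hv (perm_jk h) h2 ww.1 e
    exact tra wv.1 ww.1 wu.2 wv.2 ww.2 fv fw s1 s2 s
  · have s := far_sup hw (perm_jl h) h3 wv.1 e
    have := tra ww.1 wv.1 wu.2 ww.2 wv.2 fw fv (by linarith) s3 s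
    linarith

theorem three_far {i j k l : Fin 4} {u v w : Fin 4 → ℝ} (hu : IsCell i u) (hv : IsCell i v)
    (hw : IsCell i w) (h : [i, j, k, l].Nodup) (h1 : 1 < -u j) (h2 : 1 < -v k) (h3 : 1 < -w l)
    (uv : Sep u v) (uw : Sep u w) (vw : Sep v w) :
    fcl i u + fcl i v + fcl i w ≤ 19 / 27 := by
  have n := nodup_ne h
  have wu := far_W hu n.1 h1
  have wv := far_W hv n.2.1 h2
  have ww := far_W hw n.2.2 h3
  have fu := far_bb' hu n.1 h1
  have fv := far_bb' hv n.2.1 h2
  have fw := far_bb' hw n.2.2 h3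
  have vu : Sep v u := sep_comm hu.sum hv.sum uv
  have wu' : Sep w u := sep_comm hu.sum hw.sum uw
  rcases sup_pair hu hv uv n.1 n.2.1 h1 h2 with a | a <;>
    rcases sup_pair hv hw vw n.2.1 n.2.2 h2 h3 with b | b <;>
    rcases sup_pair hu hw uw n.1 n.2.2 h1 h3 with c | c
  · exact three_tra hu hv hw h h1 h2 h3 vw a c
  · -- `u` by `v`, `v` by `w`, `w` by `u`
    exact cyc wu.1 wv.1 ww.1 wu.2 wv.2 ww.2 fu fv fw (far_sup hu (perm_kl h) h1 wv.1 a)
      (far_sup hv (perm_jk h) h2 ww.1 b) (far_sup hw (perm_kl (perm_jl h)) h3 wu.1 c)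
  · exact three_tra hu hv hw h h1 h2 h3 vw a c
  · -- `w` by `v` and `u`
    have := three_tra hw hu hv (perm_jl h) h3 h1 h2 uv c b
    linarith
  · -- `v` by `u` and `w`
    have := three_tra hv hu hw (perm_jk h) h2 h1 h3 uw a b
    linarith
  · have := three_tra hv hu hw (perm_jk h) h2 h1 h3 uw a b
    linarith
  · -- `v` by `u`, `w` by `v`, `u` by `w`
    have := cyc wu.1 ww.1 wv.1 wu.2 ww.2 wv.2 fu fw fv (far_sup hu h h1 ww.1 c)
      (far_sup hw (perm_jl h) h3 wv.1 b) (far_sup hv (perm_kl (perm_jk h)) h2 wu.1 a)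
    linarith
  · have := three_tra hw hu hv (perm_jl h) h3 h1 h2 uv c b
    linarith

theorem own' {i j : Fin 4} {v w : Fin 4 → ℝ} (hv : IsCell i v) (hw : IsCell i w)
    (hs : Sep v w) (hj : j ≠ i) (hm : ∀ m, m ≠ i → -v m ≤ 1) (hf : 1 < -w j) :
    2 + w j ≤ v j + (v i - 1) := by
  have e2 : max (v i - w i) 0 ≤ v i - 1 := max_le (by linarith [hw.one]) (by linarith [hv.one])
  have := own hv hw hs hj hm hf
  linarith

theorem main_far {i j : Fin 4} {v w : Fin 4 → ℝ} (hv : IsCell i v) (hw : IsCell i w)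
    (hs : Sep v w) (hj : j ≠ i) (hm : ∀ m, m ≠ i → -v m ≤ 1) (hf : 1 < -w j) :
    fcl i v + fcl i w ≤ 11 / 12 - (2 + w j) / 4 - (2 + w j) ^ 2 / 4 + (2 + w j) ^ 3 / 4 := by
  obtain ⟨k, l, h⟩ := exists_rest2 hj.symm
  have a := main_sup hv h hm (far_W hw hj hf).1 (own' hv hw hs hj hm hf)
  have b := far_bb' hw hj hf
  unfold HH at a
  unfold bb at b
  nlinarith

section

variable {A : Fin 4 → Fin 4 → Option (Fin 4 → ℝ)}

theorem VV_eq {i j k l : Fin 4} (h : [i, j, k, l].Nodup) :
    VV A i = fo i (A i i) + fo i (A i j) + fo i (A i k) + fo i (A i l) :=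
  sum4 h _

theorem sep' (h : OF A) {i j k : Fin 4} {v w : Fin 4 → ℝ} (hjk : j ≠ k)
    (hv : A i j = some v) (hw : A i k = some w) : Sep v w :=
  h.sep i j i k v w hv hw fun e => hjk (Prod.mk.inj e).2

/-- only far cells -/
theorem far_only (h : OF A) {i : Fin 4} (h0 : A i i = none) : VV A i ≤ 19 / 27 := by
  obtain ⟨j, k, l, hn⟩ := exists_rest3 i
  have n := nodup_ne hn
  have njk : j ≠ k := by
    clear h h0 n
    revert hn; revert i j k l; decide
  have njl : j ≠ l := by
    clear h h0 n njk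
    revert hn; revert i j k l; decide
  have nkl : k ≠ l := by
    clear h h0 n njk njl
    revert hn; revert i j k l; decide
  rw [VV_eq hn, h0]
  rcases hj : A i j with _ | u <;> rcases hk : A i k with _ | v <;> rcases hl : A i l with _ | w
  · norm_num [fo]
  · have := one_far (h.cell i l w hl) n.2.2 (h.far i l w n.2.2 hl)
    simp only [fo]
    linarith
  · have := one_far (h.cell i k v hk) n.2.1 (h.far i k v n.2.1 hk)
    simp only [fo]
    linarith
  · have := two_far (h.cell i k v hk) (h.cell i l w hl) (perm_jl (perm_jl hn))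
      (h.far i k v n.2.1 hk) (h.far i l w n.2.2 hl) (sep' h nkl hk hl)
    simp only [fo]
    linarith
  · have := one_far (h.cell i j u hj) n.1 (h.far i j u n.1 hj)
    simp only [fo]
    linarith
  · have := two_far (h.cell i j u hj) (h.cell i l w hl) (perm_kl hn)
      (h.far i j u n.1 hj) (h.far i l w n.2.2 hl) (sep' h njl hj hl)
    simp only [fo]
    linarith
  · have := two_far (h.cell i j u hj) (h.cell i k v hk) hn
      (h.far i j u n.1 hj) (h.far i k v n.2.1 hk) (sep' h njk hj hk)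
    simp only [fo]
    linarith
  · have := three_far (h.cell i j u hj) (h.cell i k v hk) (h.cell i l w hl) hn
      (h.far i j u n.1 hj) (h.far i k v n.2.1 hk) (h.far i l w n.2.2 hl)
      (sep' h njk hj hk) (sep' h njl hj hl) (sep' h nkl hk hl)
    simp only [fo]
    linarith

/-- a main cell and two far cells in given columns -/
theorem main_two_far (h : OF A) {i j k : Fin 4} (hj : j ≠ i) (hk : k ≠ i) (hjk : j ≠ k)
    {m u v : Fin 4 → ℝ} (hm : A i i = some m) (hu : A i j = some u) (hv : A i k = some v) :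
    VV A i ≤ 19 / 27 := by
  obtain ⟨l, hn⟩ := exists_rest1 (i := i) (j := j) (k := k) (by simp [hj.symm, hk.symm, hjk])
  have n := nodup_ne hn
  have cm := h.cell i i m hm
  have cu := h.cell i j u hu
  have cv := h.cell i k v hv
  have mm := h.main i m hm
  have ou := own' cm cu (sep' h hj.symm hm hu) hj mm (h.far i j u hj hu)
  have ov := own' cm cv (sep' h hk.symm hm hv) hk mm (h.far i k v hk hv)
  have bu := far_bb' cu hj (h.far i j u hj hu)
  have bv := far_bb' cv hk (h.far i k v hk hv)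
  have wu := far_W cu hj (h.far i j u hj hu)
  have wv := far_W cv hk (h.far i k v hk hv)
  rw [VV_eq hn, hm, hu, hv]
  rcases hl : A i l with _ | w
  · have := main_two cm hn mm wu.1 wv.1 ou ov
    simp only [fo]
    linarith
  · have cw := h.cell i l w hl
    have ow := own' cm cw (sep' h n.2.2.symm hm hl) n.2.2 mm (h.far i l w n.2.2 hl)
    have bw := far_bb' cw n.2.2 (h.far i l w n.2.2 hl)
    have ww := far_W cw n.2.2 (h.far i l w n.2.2 hl)
    have := main_three cm hn mm wu.1 wv.1 ww.1 ou ov ow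
    simp only [fo]
    linarith

theorem nodup_jk : ∀ {i j k l : Fin 4}, [i, j, k, l].Nodup → j ≠ k := by decide

theorem nodup_jl : ∀ {i j k l : Fin 4}, [i, j, k, l].Nodup → j ≠ l := by decide

theorem vv_few (h : OF A) {i : Fin 4}
    (hh : A i i = none ∨ ∃ j j', j ≠ i ∧ j' ≠ i ∧ j ≠ j' ∧ (A i j).isSome ∧ (A i j').isSome) :
    VV A i ≤ 19 / 27 := by
  rcases hm : A i i with _ | m
  · exact far_only h hm
  · rcases hh with hh | ⟨j, j', hj, hj', hne, h1, h2⟩
    · rw [hm] at hh
      exact absurd hh (by simp)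
    · obtain ⟨u, hu⟩ := Option.isSome_iff_exists.1 h1
      obtain ⟨v, hv⟩ := Option.isSome_iff_exists.1 h2
      exact main_two_far h hj hj' hne hm hu hv

theorem vv_far (h : OF A) {i j : Fin 4} (hj : j ≠ i) {F : Fin 4 → ℝ} (hF : A i j = some F) :
    VV A i ≤ max (19 / 27) (11 / 12 - (2 + F j) / 4 - (2 + F j) ^ 2 / 4 + (2 + F j) ^ 3 / 4) := by
  by_cases hh : A i i = none ∨
      ∃ j j', j ≠ i ∧ j' ≠ i ∧ j ≠ j' ∧ (A i j).isSome ∧ (A i j').isSome
  · exact (vv_few h hh).trans (le_max_left _ _)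
  · push Not at hh
    obtain ⟨hm, hh⟩ := hh
    obtain ⟨m, hm⟩ := Option.ne_none_iff_exists'.1 hm
    refine le_trans ?_ (le_max_right _ _)
    obtain ⟨k, l, hn⟩ := exists_rest2 hj.symm
    have n := nodup_ne hn
    have njk : j ≠ k := nodup_jk hn
    have njl : j ≠ l := nodup_jl hn
    have ek : A i k = none := by
      have := hh j k n.1 n.2.1 njk (by rw [hF]; rfl)
      simpa using this
    have el : A i l = none := by
      have := hh j l n.1 n.2.2 njl (by rw [hF]; rfl)
      simpa using this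
    rw [VV_eq hn, hm, hF, ek, el]
    have := main_far (h.cell i i m hm) (h.cell i j F hF) (sep' h hj.symm hm hF) hj (h.main i m hm)
      (h.far i j F hj hF)
    simp only [fo]
    linarith

theorem vv_le_one (h : OF A) (i : Fin 4) : VV A i ≤ 1 := by
  obtain ⟨j, k, l, hn⟩ := exists_rest3 i
  have n := nodup_ne hn
  have key : ∀ {j : Fin 4} {F : Fin 4 → ℝ}, j ≠ i → A i j = some F → VV A i ≤ 1 := by
    intro j F hj hF
    have w := far_W (h.cell i j F hF) hj (h.far i j F hj hF)
    refine (vv_far h hj hF).trans (max_le (by norm_num) ?_)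
    have : (2 + F j) ^ 3 ≤ (2 + F j) ^ 2 := by
      have := sq_nonneg (2 + F j)
      nlinarith
    nlinarith
  rcases hj : A i j with _ | u
  · rcases hk : A i k with _ | v
    · rcases hl : A i l with _ | w
      · rw [VV_eq hn, hj, hk, hl]
        rcases hm : A i i with _ | m
        · norm_num [fo]
        · have := main_one (h.cell i i m hm) (h.main i m hm)
          simp only [fo]
          linarith
      · exact key n.2.2 hl
    · exact key n.2.1 hk
  · exact key n.1 hj

end

end Pool.Agent.Helper44.TS
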