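import Pool.Agent.Helper44.TS.Boxes

/-!
# Classes without main cell and the box search
-/

set_option autoImplicit false

namespace Pool.Agent.Helper44.TS

open Pool.Agent.Helper84.TS Pool.Agent.Helper36.TS

variable {A : Fin 4 → Fin 4 → Option (Fin 4 → ℝ)}

/-- the parameters of the cell `(i; j)`: `w`, the component towards `k`, the component towards `l` -/
structure Rep (A : Fin 4 → Fin 4 → Option (Fin 4 → ℝ)) (i j k l : Fin 4) (w X Y : ℝ) : Prop where
  n : A i j = none → w = 0 ∧ X = 0 ∧ Y = 0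
  s : ∀ v, A i j = some v →
    w = 2 + v j ∧ X = 1 - (v k + (v i - 1)) ∧ Y = 1 - (v l + (v i - 1))

theorem exists_rep (A : Fin 4 → Fin 4 → Option (Fin 4 → ℝ)) (i j k l : Fin 4) :
    ∃ w X Y, Rep A i j k l w X Y := by
  rcases h : A i j with _ | v
  · exact ⟨0, 0, 0, fun _ => ⟨rfl, rfl, rfl⟩, fun v hv => by rw [h] at hv; exact absurd hv (by simp)⟩
  · refine ⟨2 + v j, 1 - (v k + (v i - 1)), 1 - (v l + (v i - 1)), fun hn => ?_, fun v' hv' => ?_⟩
    · rw [h] at hn
      exact absurd hn (by simp)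
    · rw [h] at hv'
      obtain rfl : v = v' := Option.some.inj hv'
      exact ⟨rfl, rfl, rfl⟩

/-- the condition on a cell -/
def Cnd (τ : Knd) (ca cb : ℕ) (i j k l : Fin 4) (v : Fin 4 → ℝ) : Prop :=
  τ.Ok (2 + v j) (1 - (v k + (v i - 1))) (1 - (v l + (v i - 1))) ∧
    128 * (1 - (v k + (v i - 1))) ≤ ca ∧ 128 * (1 - (v l + (v i - 1))) ≤ cb

theorem Rep.cb (h : OF A) {i j k l : Fin 4} (hn : [i, j, k, l].Nodup) {w X Y : ℝ}
    (hr : Rep A i j k l w X Y) {τ : Knd} {ca cb : ℕ}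
    (hc : ∀ v, A i j = some v → Cnd τ ca cb i j k l v) : CB τ ca cb (fo i (A i j)) w X Y := by
  rcases hv : A i j with _ | v
  · obtain ⟨rfl, rfl, rfl⟩ := hr.n hv
    exact CB.none τ ca cb
  · obtain ⟨rfl, rfl, rfl⟩ := hr.s v hv
    have n := nodup_ne hn
    have hcell := h.cell i j v hv
    have hf := h.far i j v n.1 hv
    obtain ⟨c1, c2, c3⟩ := hc v hv
    simp only [fo]
    rw [far_AB hcell hn hf.le]
    exact CB.some (far_dom hcell hn hf.le) c1 c2 c3

theorem Rep.pair (h : OF A) {i j k l : Fin 4} (hn : [i, j, k, l].Nodup) {w X Y w' X' Y' : ℝ}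
    (hr : Rep A i j k l w X Y) (hr' : Rep A i k j l w' X' Y') : X ≤ 1 - w' ∨ X' ≤ 1 - w := by
  have n := nodup_ne hn
  have njk := nodup_jk hn
  rcases hv : A i j with _ | v
  · obtain ⟨rfl, rfl, rfl⟩ := hr.n hv
    rcases hu : A i k with _ | u
    · obtain ⟨rfl, rfl, rfl⟩ := hr'.n hu
      left; norm_num
    · obtain ⟨rfl, rfl, rfl⟩ := hr'.s u hu
      have w := far_W (h.cell i k u hu) n.2.1 (h.far i k u n.2.1 hu)
      left; linarith
  · obtain ⟨rfl, rfl, rfl⟩ := hr.s v hv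
    rcases hu : A i k with _ | u
    · obtain ⟨rfl, rfl, rfl⟩ := hr'.n hu
      have w := far_W (h.cell i j v hv) n.1 (h.far i j v n.1 hv)
      right; linarith
    · obtain ⟨rfl, rfl, rfl⟩ := hr'.s u hu
      rcases sup_pair (h.cell i j v hv) (h.cell i k u hu) (sep' h njk hv hu) n.1 n.2.1
        (h.far i j v n.1 hv) (h.far i k u n.2.1 hu) with e | e
      · left; linarith
      · right; linarith

theorem Rep.swap {i j k l : Fin 4} {w X Y : ℝ} (hr : Rep A i j k l w X Y) :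
    Rep A i j l k w Y X :=
  ⟨fun h => ⟨(hr.n h).1, (hr.n h).2.2, (hr.n h).2.1⟩,
    fun v h => ⟨(hr.s v h).1, (hr.s v h).2.2, (hr.s v h).2.1⟩⟩

/-- **A class without main cell.** -/
theorem class_box (h : OF A) {i j k l : Fin 4} (hn : [i, j, k, l].Nodup) (h0 : A i i = none)
    {s : Spec} {T n : ℕ} (hc : srchAll s T n = true)
    (c1 : ∀ v, A i j = some v → Cnd s.t1 s.a1 s.b1 i j k l v)
    (c2 : ∀ v, A i k = some v → Cnd s.t2 s.a2 s.b2 i k j l v)
    (c3 : ∀ v, A i l = some v → Cnd s.t3 s.a3 s.b3 i l j k v) :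
    402653184000 * VV A i ≤ T := by
  obtain ⟨w1, X1, Y1, r1⟩ := exists_rep A i j k l
  obtain ⟨w2, X2, Y2, r2⟩ := exists_rep A i k j l
  obtain ⟨w3, X3, Y3, r3⟩ := exists_rep A i l j k
  have b1 := r1.cb h hn c1
  have b2 := r2.cb h (perm_jk hn) c2
  have b3 := r3.cb h (perm_jl hn) c3
  have p12 := r1.pair h hn r2
  have p13 := r1.swap.pair h (perm_kl hn) r3
  have p23 := r2.swap.pair h (perm_kl (perm_jk hn)) r3.swap
  have := three_box s T n hc b1 b2 b3 p12 p13 p23
  rw [VV_eq hn, h0]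
  simp only [fo] at this ⊢
  linarith

theorem comp_two {i j k l : Fin 4} {v : Fin 4 → ℝ} (hv : IsCell i v) (hn : [i, j, k, l].Nodup)
    (hf : 1 < -v j) : 128 * (1 - (v k + (v i - 1))) ≤ ((256 : ℕ) : ℝ) ∧
      128 * (1 - (v l + (v i - 1))) ≤ ((256 : ℕ) : ℝ) := by
  have d := far_dom hv hn hf.le
  have := d.A0
  have := d.B0
  have := d.hi
  have := d.w1
  push_cast
  constructor <;> linarith

/-- the condition without caps -/
theorem cnd_free {i j k l : Fin 4} {v : Fin 4 → ℝ} {τ : Knd} (hv : IsCell i v)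
    (hn : [i, j, k, l].Nodup) (hf : 1 < -v j)
    (hτ : τ.Ok (2 + v j) (1 - (v k + (v i - 1))) (1 - (v l + (v i - 1)))) :
    Cnd τ 256 256 i j k l v :=
  ⟨hτ, (comp_two hv hn hf).1, (comp_two hv hn hf).2⟩

/-- a class without main cell and without owner, the better bound -/
theorem no_class' (h : OF A) {i : Fin 4} (h0 : A i i = none)
    (ho : ∀ m F, A i m = some F → ¬ Ow i m F) : VV A i ≤ 161 / 250 := by
  obtain ⟨j, k, l, hn⟩ := exists_rest3 i
  have n := nodup_ne hn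
  have := class_box h hn h0 box_N
    (fun v hv => cnd_free (h.cell i j v hv) hn (h.far i j v n.1 hv)
      (not_ow (h.cell i j v hv) hn (ho j v hv)))
    (fun v hv => cnd_free (h.cell i k v hv) (perm_jk hn) (h.far i k v n.2.1 hv)
      (not_ow (h.cell i k v hv) (perm_jk hn) (ho k v hv)))
    (fun v hv => cnd_free (h.cell i l v hv) (perm_jl hn) (h.far i l v n.2.2 hv)
      (not_ow (h.cell i l v hv) (perm_jl hn) (ho l v hv)))
  push_cast at this
  linarith

end Pool.Agent.Helper44.TS
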