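import Pool.Agent.Helper44.TS.MainBig
import Pool.Agent.Helper36.TS.Frame

/-!
# Three classes without a main cell with `d < 3/5`

Two owners of different classes are never in one column, so there are at most four owners.
-/

set_option autoImplicit false

namespace Pool.Agent.Helper44.TS

open Pool.Agent.Helper84.TS Pool.Agent.Helper36.TS

/-- the class `i` has no main cell, or a main cell with `d ≥ 3/5` -/
def R2 (A : Fin 4 → Fin 4 → Option (Fin 4 → ℝ)) (i : Fin 4) : Prop :=
  A i i = none ∨ ∃ M, A i i = some M ∧ 3 / 5 ≤ M i - 1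

/-- `(i; m)` is an owner -/
def HasOw (A : Fin 4 → Fin 4 → Option (Fin 4 → ℝ)) (i m : Fin 4) : Prop :=
  m ≠ i ∧ ∃ F, A i m = some F ∧ Ow i m F

section

variable {A : Fin 4 → Fin 4 → Option (Fin 4 → ℝ)}

theorem R2_le (h : OF A) {i : Fin 4} (hR : R2 A i) : VV A i ≤ 19 / 27 := by
  rcases hR with h0 | ⟨M, hM, hd⟩
  · exact vv_few h (Or.inl h0)
  · have := main_big_le h hM hd
    linarith

theorem R2_no (h : OF A) {i : Fin 4} (hR : R2 A i) (ho : ∀ m, ¬ HasOw A i m) :
    VV A i ≤ 263 / 400 := by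
  rcases hR with h0 | ⟨M, hM, hd⟩
  · refine no_class h h0 fun m F hF hO => ho m ⟨?_, F, hF, hO⟩
    rintro rfl
    rw [h0] at hF
    exact absurd hF (by simp)
  · exact main_big_no h hM hd fun m F hm hF hO => ho m ⟨hm, F, hF, hO⟩

theorem R2_one (h : OF A) {i : Fin 4} (hR : R2 A i)
    (ho : ∀ m m', HasOw A i m → HasOw A i m' → m = m') : VV A i ≤ 3403 / 5000 := by
  rcases hR with h0 | ⟨M, hM, hd⟩
  · refine own_class h h0 fun m m' F F' hne hF hF' hO hO' => hne (ho m m' ⟨?_, F, hF, hO⟩ ⟨?_, F', hF', hO'⟩)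
    · rintro rfl
      rw [h0] at hF
      exact absurd hF (by simp)
    · rintro rfl
      rw [h0] at hF'
      exact absurd hF' (by simp)
  · have := main_big_le h hM hd
    linarith

/-- two owners of different classes are in different columns -/
theorem ow_excl (h : OF A) {i x m : Fin 4} (hix : i ≠ x) (h1 : HasOw A i m) (h2 : HasOw A x m) :
    False := by
  obtain ⟨hmi, F, hF, hO⟩ := h1
  obtain ⟨hmx, G, hG, hO'⟩ := h2
  obtain ⟨y, hn⟩ := exists_rest1 (i := i) (j := m) (k := x) (by simp [hmi.symm, hix, hmx])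
  have n := nodup_ne hn
  have e := two_rst h hF hG hn
  have f1 := h.far i m F hmi hF
  have f2 := h.far x m G hmx hG
  have hyx : y ≠ x := by
    clear * - hn
    revert hn
    revert i m x y
    decide
  have hym : y ≠ m := by
    clear * - hn
    revert hn
    revert i m x y
    decide
  have o1 := hO.2 y n.2.2 hym
  have o2 := hO'.2 y hyx hym
  have e1 : 1 < min (2 - (2 + F m)) (2 - (2 + G m)) := lt_min (by linarith) (by linarith)
  have e2 : max (F y) (G y) < 1 - (F i - 1) - (G x - 1) := by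
    refine max_lt ?_ ?_
    · linarith [hO'.1]
    · linarith [hO.1]
  linarith

end

/-- the counting argument -/
theorem count (o : Fin 4 → Fin 4 → Prop) (ho : ∀ i x m, i ≠ x → o i m → o x m → False)
    {b c e : Fin 4} (hbc : b ≠ c) (hbe : b ≠ e) (hce : c ≠ e) :
    (∃ i, (i = b ∨ i = c ∨ i = e) ∧ ∀ m, ¬ o i m) ∨
      (∃ i x, ((i = b ∧ x = c) ∨ (i = b ∧ x = e) ∨ (i = c ∧ x = e)) ∧
        (∀ m m', o i m → o i m' → m = m') ∧ (∀ m m', o x m → o x m' → m = m')) := by
  classical
  set N : Fin 4 → ℕ := fun i => (Finset.univ.filter fun m => o i m).card with hN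
  have key : N b + N c + N e ≤ 4 := by
    have h1 : N b + N c + N e =
        ((Finset.univ.filter fun m => o b m) ∪ (Finset.univ.filter fun m => o c m) ∪
          (Finset.univ.filter fun m => o e m)).card := by
      rw [Finset.card_union_of_disjoint, Finset.card_union_of_disjoint]
      · rw [Finset.disjoint_left]
        intro m hm hm'
        simp only [Finset.mem_filter, Finset.mem_univ, true_and] at hm hm'
        exact ho b c m hbc hm hm'
      · rw [Finset.disjoint_left]
        intro m hm hm'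
        simp only [Finset.mem_union, Finset.mem_filter, Finset.mem_univ, true_and] at hm hm'
        rcases hm with hm | hm
        · exact ho b e m hbe hm hm'
        · exact ho c e m hce hm hm'
    rw [h1]
    refine (Finset.card_le_univ _).trans ?_
    simp
  have z : ∀ i, N i = 0 → ∀ m, ¬ o i m := by
    intro i hi m hm
    have : m ∈ (Finset.univ.filter fun m => o i m) := by simp [hm]
    rw [Finset.card_eq_zero.1 hi] at this
    exact absurd this (Finset.notMem_empty m)
  have w : ∀ i, N i ≤ 1 → ∀ m m', o i m → o i m' → m = m' := by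
    intro i hi m m' hm hm'
    exact Finset.card_le_one.1 hi m (by simp [hm]) m' (by simp [hm'])
  by_cases hb : N b = 0
  · exact Or.inl ⟨b, Or.inl rfl, z b hb⟩
  by_cases hc : N c = 0
  · exact Or.inl ⟨c, Or.inr (Or.inl rfl), z c hc⟩
  by_cases he : N e = 0
  · exact Or.inl ⟨e, Or.inr (Or.inr rfl), z e he⟩
  right
  by_cases hb1 : N b ≤ 1
  · by_cases hc1 : N c ≤ 1
    · exact ⟨b, c, Or.inl ⟨rfl, rfl⟩, w b hb1, w c hc1⟩
    · exact ⟨b, e, Or.inr (Or.inl ⟨rfl, rfl⟩), w b hb1, w e (by omega)⟩
  · exact ⟨c, e, Or.inr (Or.inr ⟨rfl, rfl⟩), w c (by omega), w e (by omega)⟩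

variable {A : Fin 4 → Fin 4 → Option (Fin 4 → ℝ)}

theorem three_R2_sum (h : OF A) {b c e : Fin 4} (hbc : b ≠ c) (hbe : b ≠ e) (hce : c ≠ e)
    (Rb : R2 A b) (Rc : R2 A c) (Re : R2 A e) : VV A b + VV A c + VV A e ≤ 413 / 200 := by
  have vb := R2_le h Rb
  have vc := R2_le h Rc
  have ve := R2_le h Re
  rcases count (HasOw A) (fun i x m hix h1 h2 => ow_excl h hix h1 h2) hbc hbe hce with
    ⟨i, hi, h0⟩ | ⟨i, x, hi, h0, h1⟩
  · rcases hi with rfl | rfl | rfl
    · have := R2_no h Rb h0
      linarith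
    · have := R2_no h Rc h0
      linarith
    · have := R2_no h Re h0
      linarith
  · rcases hi with ⟨rfl, rfl⟩ | ⟨rfl, rfl⟩ | ⟨rfl, rfl⟩
    · have := R2_one h Rb h0
      have := R2_one h Rc h1
      linarith
    · have := R2_one h Rb h0
      have := R2_one h Re h1
      linarith
    · have := R2_one h Rc h0
      have := R2_one h Re h1
      linarith

/-- **Three classes without a main cell with `d < 3/5`.** -/
theorem three_R2 (h : OF A) {b c e : Fin 4} (hbc : b ≠ c) (hbe : b ≠ e) (hce : c ≠ e)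
    (Rb : R2 A b) (Rc : R2 A c) (Re : R2 A e) : ∑ i, VV A i ≤ 613 / 200 := by
  obtain ⟨a, hn⟩ := exists_rest1 (i := b) (j := c) (k := e) (by simp [hbc, hbe, hce])
  rw [sum4 hn]
  have := three_R2_sum h hbc hbe hce Rb Rc Re
  have := vv_le_one h a
  linarith

end Pool.Agent.Helper44.TS
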