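import Pool.Agent.Helper44.TS.ClassBox
import Pool.Agent.Helper44.TS.ThreeR2

/-!
# Class bounds from the box search
-/

set_option autoImplicit false

namespace Pool.Agent.Helper44.TS

open Pool.Agent.Helper84.TS Pool.Agent.Helper36.TS

/-- the bound for restricted cells of a class with a high main cell -/
noncomputable def ph (w : ℝ) : ℝ := 6 / 25 * w + 9 / 20 * w ^ 2 - 2 / 25 * w ^ 3

theorem ph_mono {a b : ℝ} (h0 : 0 ≤ a) (hab : a ≤ b) (hb : b ≤ 1) : ph a ≤ ph b := by
  unfold ph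
  have : 0 ≤ (b - a) * (6 / 25 + 9 / 20 * (a + b) - 2 / 25 * (a ^ 2 + a * b + b ^ 2)) := by
    refine mul_nonneg (by linarith) ?_
    nlinarith
  nlinarith

theorem adm_ph : Adm ph (31 / 50) where
  add a b h1 h2 h3 := by
    unfold ph
    have : 0 ≤ a * b * (9 / 10 - 6 / 25 * (a + b)) :=
      mul_nonneg (mul_nonneg h1 h2) (by linarith)
    nlinarith
  mono _ _ h1 h2 h3 := ph_mono h1 h2 h3
  nn a h1 h2 := by
    have := ph_mono le_rfl h1 h2
    have e : ph 0 = 0 := by norm_num [ph]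
    linarith
  n1 d h1 h2 := by
    unfold ph
    nlinarith [mul_nonneg (sub_nonneg.2 h1) (sub_nonneg.2 h2),
      mul_nonneg (mul_nonneg (sub_nonneg.2 h1) (sub_nonneg.2 h2)) (by linarith : 0 ≤ d)]
  n2 t h1 h2 := by
    unfold ph HH
    nlinarith [mul_nonneg (sub_nonneg.2 h1) (sub_nonneg.2 h2),
      mul_nonneg (mul_nonneg (sub_nonneg.2 h1) (sub_nonneg.2 h2)) (by linarith : 0 ≤ t)]

theorem PP_le_ph {w : ℝ} (h0 : 0 ≤ w) (h1 : w ≤ 1) : PP w ≤ ph w := by
  unfold PP ph
  nlinarith [mul_nonneg h0 h0, mul_nonneg (mul_nonneg h0 h0) (sub_nonneg.2 h1)]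

theorem cap_ph {w A B : ℝ} (h : Dom w A B) (hB : B ≤ 19 / 50) : fAB w A B ≤ ph w := by
  have h0 := h.w0
  have h1 := h.w1
  rcases le_total w (19 / 50) with hw | hw
  · refine (fAB_m h hB hw (by linarith)).trans ?_
    unfold ph
    have : 0 ≤ w ^ 3 := by positivity
    nlinarith [sq_nonneg w]
  · refine (fAB_w h hB hw).trans ?_
    unfold ph
    nlinarith [mul_nonneg (sub_nonneg.2 hw) (sub_nonneg.2 h1),
      mul_nonneg (mul_nonneg (sub_nonneg.2 hw) (sub_nonneg.2 h1)) h0.le]

theorem d_ph {w A B : ℝ} (h : Dom w A B) (hd : A + B ≤ w + 9 / 10) : fAB w A B ≤ ph w := by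
  have h0 := h.w0
  have h1 := h.w1
  rcases le_total w (3 / 10) with hw | hw
  · have e1 := fAB_le h
    have e2 : A * B ≤ (w + 9 / 10) ^ 2 / 4 := by
      nlinarith [sq_nonneg (A - B), h.A0, h.B0]
    have e3 := mul_le_mul_of_nonneg_left e2 h0.le
    have e4 : w * ((w + 9 / 10) ^ 2 / 4) ≤ ph w := by
      unfold ph
      have : 0 ≤ w * (3 / 80 - 33 / 100 * w ^ 2) := by
        refine mul_nonneg h0.le ?_
        nlinarith
      nlinarith
    linarith
  · refine (dd_base (D := 9 / 10) h (by norm_num) (by linarith) (by norm_num)).trans ?_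
    unfold ph
    nlinarith [mul_nonneg (sub_nonneg.2 hw) (sub_nonneg.2 h1),
      mul_nonneg (mul_nonneg (sub_nonneg.2 hw) (sub_nonneg.2 h1)) h0.le]

variable {A : Fin 4 → Fin 4 → Option (Fin 4 → ℝ)}

theorem fcl_ph_no (h : OF A) {i m : Fin 4} {F : Fin 4 → ℝ} (hm : m ≠ i) (hF : A i m = some F)
    (hn : ¬ HasOw A i m) : fcl i F ≤ ph (2 + F m) := by
  have cF := h.cell i m F hF
  have fF := h.far i m F hm hF
  have w := far_W cF hm fF
  exact (far_p cF hm fF fun ho => hn ⟨hm, F, hF, ho⟩).trans (PP_le_ph w.1 w.2)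

theorem fcl_ph_cap (h : OF A) {i m x y : Fin 4} {F : Fin 4 → ℝ} (hn : [i, m, x, y].Nodup)
    (hF : A i m = some F) (hC : 1 - (F y + (F i - 1)) ≤ 19 / 50) : fcl i F ≤ ph (2 + F m) := by
  have n := nodup_ne hn
  have cF := h.cell i m F hF
  have fF := h.far i m F n.1 hF
  rw [far_AB cF hn fF.le]
  exact cap_ph (far_dom cF hn fF.le) hC

theorem fcl_ph_d (h : OF A) {i m : Fin 4} {F : Fin 4 → ℝ} (hm : m ≠ i)
    (hF : A i m = some F) (hd : 1 / 10 ≤ F i - 1) : fcl i F ≤ ph (2 + F m) := by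
  obtain ⟨x, y, hn⟩ := exists_rest2 hm.symm
  have cF := h.cell i m F hF
  have fF := h.far i m F hm hF
  have a := (cell_lin cF hn).1
  rw [far_AB cF hn fF.le]
  exact d_ph (far_dom cF hn fF.le) (by linarith)

theorem cnd_no (h : OF A) {i j k l : Fin 4} (hn : [i, j, k, l].Nodup) (ho : ¬ HasOw A i j) :
    ∀ v, A i j = some v → Cnd Knd.non 256 256 i j k l v := by
  intro v hv
  have n := nodup_ne hn
  exact cnd_free (h.cell i j v hv) hn (h.far i j v n.1 hv)
    (not_ow (h.cell i j v hv) hn fun hw => ho ⟨n.1, v, hv, hw⟩)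

theorem cnd_cap (h : OF A) {i j k l : Fin 4} (hn : [i, j, k, l].Nodup) {c : ℕ} {r : ℝ}
    (hr : 128 * r ≤ c) (hC : ∀ v, A i j = some v → 1 - (v l + (v i - 1)) ≤ r) :
    ∀ v, A i j = some v → Cnd Knd.any 256 c i j k l v := by
  intro v hv
  have n := nodup_ne hn
  have c2 := comp_two (h.cell i j v hv) hn (h.far i j v n.1 hv)
  exact ⟨trivial, c2.1, by linarith [hC v hv]⟩

theorem cnd_d (h : OF A) {i j k l : Fin 4} (hn : [i, j, k, l].Nodup) {c : ℕ} (h5 : 5 ≤ c)
    (h20 : c ≤ 20) (hC : ∀ v, A i j = some v → 1 - (c : ℝ) / 20 ≤ v i - 1) :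
    ∀ v, A i j = some v → Cnd (Knd.dd c) 256 256 i j k l v := by
  intro v hv
  have n := nodup_ne hn
  have a := (cell_lin (h.cell i j v hv) hn).1
  refine cnd_free (h.cell i j v hv) hn (h.far i j v n.1 hv) ⟨h5, h20, ?_⟩
  linarith [hC v hv]

/-- two cells are not owners, the third one has a small component towards the second one -/
theorem R2_cap (h : OF A) {i j k l : Fin 4} (hn : [i, j, k, l].Nodup) (hR : R2 A i)
    (hj : ¬ HasOw A i j) (hk : ¬ HasOw A i k)
    (hl : ∀ G, A i l = some G → 1 - (G k + (G i - 1)) ≤ 19 / 50) : VV A i ≤ 161 / 250 := by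
  rcases hR with h0 | ⟨M, hM, hd⟩
  · have := class_box h hn h0 box_K (cnd_no h hn hj) (cnd_no h (perm_jk hn) hk)
      (cnd_cap h (perm_jl hn) (r := 19 / 50) (by norm_num [sK]) hl)
    push_cast at this
    linarith
  · have := main_big h hM hd adm_ph fun m F hm hF => by
      rcases mem4 hn m with rfl | rfl | rfl | rfl
      · exact absurd rfl hm
      · exact fcl_ph_no h hm hF hj
      · exact fcl_ph_no h hm hF hk
      · exact fcl_ph_cap h (perm_jl hn) hF (hl F hF)
    linarith

/-- no owner -/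
theorem R2_no' (h : OF A) {i : Fin 4} (hR : R2 A i) (ho : ∀ m, ¬ HasOw A i m) :
    VV A i ≤ 161 / 250 := by
  obtain ⟨j, k, l, hn⟩ := exists_rest3 i
  rcases hR with h0 | ⟨M, hM, hd⟩
  · have := class_box h hn h0 box_N (cnd_no h hn (ho j)) (cnd_no h (perm_jk hn) (ho k))
      (cnd_no h (perm_jl hn) (ho l))
    push_cast at this
    linarith
  · have := main_big h hM hd adm_ph fun m F hm hF => fcl_ph_no h hm hF (ho m)
    linarith

/-- the first cell is not an owner, the others have small components towards each other -/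
theorem R2_caps (h : OF A) {i j k l : Fin 4} (hn : [i, j, k, l].Nodup) (hR : R2 A i)
    (hj : ¬ HasOw A i j) (hk : ∀ G, A i k = some G → 1 - (G l + (G i - 1)) ≤ 19 / 50)
    (hl : ∀ G, A i l = some G → 1 - (G k + (G i - 1)) ≤ 7 / 25) : VV A i ≤ 3153 / 5000 := by
  rcases hR with h0 | ⟨M, hM, hd⟩
  · have := class_box h hn h0 box_KK (cnd_no h hn hj)
      (cnd_cap h (perm_jk hn) (r := 19 / 50) (by norm_num [sKK]) hk)
      (cnd_cap h (perm_jl hn) (r := 7 / 25) (by norm_num [sKK]) hl)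
    push_cast at this
    linarith
  · have := main_big h hM hd adm_ph fun m F hm hF => by
      rcases mem4 hn m with rfl | rfl | rfl | rfl
      · exact absurd rfl hm
      · exact fcl_ph_no h hm hF hj
      · exact fcl_ph_cap h (perm_jk hn) hF (hk F hF)
      · exact fcl_ph_cap h (perm_jl hn) hF ((hl F hF).trans (by norm_num))
    linarith

/-- the first cell has `d ≥ 1/10`, the others are not owners -/
theorem R2_d18 (h : OF A) {i j k l : Fin 4} (hn : [i, j, k, l].Nodup) (hR : R2 A i)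
    (hj : ∀ G, A i j = some G → 1 / 10 ≤ G i - 1) (hk : ¬ HasOw A i k) (hl : ¬ HasOw A i l) :
    VV A i ≤ 161 / 250 := by
  rcases hR with h0 | ⟨M, hM, hd⟩
  · have := class_box h hn h0 box_D18
      (cnd_d h hn (by norm_num) (by norm_num) fun v hv => by
        have := hj v hv
        push_cast
        linarith)
      (cnd_no h (perm_jk hn) hk) (cnd_no h (perm_jl hn) hl)
    push_cast at this
    linarith
  · have := main_big h hM hd adm_ph fun m F hm hF => by
      rcases mem4 hn m with rfl | rfl | rfl | rfl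
      · exact absurd rfl hm
      · exact fcl_ph_d h hm hF (hj F hF)
      · exact fcl_ph_no h hm hF hk
      · exact fcl_ph_no h hm hF hl
    linarith

/-- the first cell has `d ≥ 1/20`, the others are not owners -/
theorem R2_d19 (h : OF A) {i j k l : Fin 4} (hn : [i, j, k, l].Nodup) (hR : R2 A i)
    (hj : ∀ G, A i j = some G → 1 / 20 ≤ G i - 1) (hk : ¬ HasOw A i k) (hl : ¬ HasOw A i l) :
    VV A i ≤ 667 / 1000 := by
  rcases hR with h0 | ⟨M, hM, hd⟩
  · have := class_box h hn h0 box_D19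
      (cnd_d h hn (by norm_num) (by norm_num) fun v hv => by
        have := hj v hv
        push_cast
        linarith)
      (cnd_no h (perm_jk hn) hk) (cnd_no h (perm_jl hn) hl)
    push_cast at this
    linarith
  · have := main_big_le h hM hd
    linarith

end Pool.Agent.Helper44.TS
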