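import Pool.Agent.Helper44.TS.Tall
import Pool.Agent.Helper44.TS.R2Box

/-!
# A tall class and the other classes
-/

set_option autoImplicit false

namespace Pool.Agent.Helper44.TS

open Pool.Agent.Helper84.TS Pool.Agent.Helper36.TS

/-- the inequality behind `main_u` -/
theorem u_key {d p u x y : ℝ} (d0 : 0 ≤ d) (d1 : d < 1) (p1 : p ≤ 1) (hup : u ≤ p)
    (h1 : 1 + d ≤ 3 * u) (hxy : x + y = 1 + d - p) (_hx : x ≤ 1) (hy : y ≤ 1) (hy0 : 0 ≤ y) :
    (max (-x) 0) ^ 3 / 3 ≤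
      (1 - d) * (p ^ 2 + x ^ 2 + y ^ 2) / 2 - (1 - d) * (u ^ 2 + (1 + d - u) ^ 2 / 2) / 2 := by
  have m1 : 0 ≤ (p - u) * (3 * (p + u) - 2 * (1 + d)) := mul_nonneg (by linarith) (by linarith)
  have m2 : 0 ≤ (1 - d) * ((p - u) * (3 * (p + u) - 2 * (1 + d))) :=
    mul_nonneg (by linarith) m1
  have m3 : 0 ≤ (1 - d) * (x - y) ^ 2 := mul_nonneg (by linarith) (sq_nonneg _)
  have ey : y = 1 + d - p - x := by linarith
  rcases le_total 0 x with hx0 | hx0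
  · rw [max_eq_right (by linarith : -x ≤ 0)]
    subst ey
    nlinarith
  · rw [max_eq_left (by linarith : 0 ≤ -x)]
    have m4 : 0 ≤ x ^ 2 * (1 - d + x) := mul_nonneg (sq_nonneg _) (by linarith)
    have m5 : 0 ≤ (1 - d) * ((-x) * (1 + d - p)) :=
      mul_nonneg (by linarith) (mul_nonneg (by linarith) (by linarith))
    have m6 : 0 ≤ (1 - d) * x ^ 2 := mul_nonneg (by linarith) (sq_nonneg _)
    have m7 : 0 ≤ (1 - d) * (1 + d - p) ^ 2 := mul_nonneg (by linarith) (sq_nonneg _)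
    have e1 : (1 - d) * (p ^ 2 + x ^ 2 + y ^ 2) - (1 - d) * (u ^ 2 + (1 + d - u) ^ 2 / 2) =
        (1 - d) * ((p - u) * (3 * (p + u) - 2 * (1 + d))) / 2 + (1 - d) * (x - y) ^ 2 / 2 := by
      subst ey
      ring
    have e2 : (1 - d) * (x - y) ^ 2 = 4 * ((1 - d) * x ^ 2) + 4 * ((1 - d) * ((-x) * (1 + d - p)))
        + (1 - d) * (1 + d - p) ^ 2 := by
      subst ey
      ring
    have e3 : (-x) ^ 3 = (1 - d) * x ^ 2 - x ^ 2 * (1 - d + x) := by ring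
    linarith

/-- a main cell with an entry at least `u` -/
theorem main_u {i j k l : Fin 4} {v : Fin 4 → ℝ} {u : ℝ} (hv : IsCell i v)
    (h : [i, j, k, l].Nodup) (hm : ∀ m, m ≠ i → -v m ≤ 1) (hu : u ≤ -v j)
    (h1 : 1 + (v i - 1) ≤ 3 * u) : fcl i v ≤
      7 / 6 - 3 / 2 * (v i - 1) + (v i - 1) ^ 2 / 2 - (v i - 1) ^ 3 / 6
      - (1 - (v i - 1)) * (u ^ 2 + (1 + (v i - 1) - u) ^ 2 / 2) / 2 := by
  obtain ⟨a1, a2, a3, a4, a5, a6, a7, a8, a9⟩ := cell_lin hv h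
  obtain ⟨b1, b2, b3⟩ := main_ent h hm
  rw [main_f h hm]
  obtain ⟨d, hd⟩ : ∃ d, d = v i - 1 := ⟨_, rfl⟩
  obtain ⟨p, hp⟩ : ∃ p, p = -v j := ⟨_, rfl⟩
  obtain ⟨q, hq⟩ : ∃ q, q = -v k := ⟨_, rfl⟩
  obtain ⟨r, hr⟩ : ∃ r, r = -v l := ⟨_, rfl⟩
  have ej : v j = -p := by linarith
  have ek : v k = -q := by linarith
  have el : v l = -r := by linarith
  rw [← hd] at h1 ⊢
  rw [ej, ek, el]
  have d0 : 0 ≤ d := by linarith
  have d1 : d < 1 := by linarith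
  have p1 : p ≤ 1 := by linarith
  have q1 : q ≤ 1 := by linarith
  have r1 : r ≤ 1 := by linarith
  have hup : u ≤ p := by linarith
  have hs : q + r = 1 + d - p := by linarith
  have e0 : max (-p) 0 = 0 := max_eq_right (by linarith)
  rw [e0]
  rcases le_total 0 q with hq0 | hq0
  · have := u_key d0 d1 p1 hup h1 (by linarith : r + q = 1 + d - p) r1 q1 hq0
    rw [max_eq_right (by linarith : -q ≤ 0)]
    nlinarith
  · have := u_key d0 d1 p1 hup h1 hs q1 r1 (by linarith)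
    rw [max_eq_right (by linarith : -r ≤ 0)]
    nlinarith

end Pool.Agent.Helper44.TS
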