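import Pool.Agent.Helper44.TS.TallRel
import Pool.Agent.Helper44.TS.Fourth
import Pool.Agent.Helper84.TS.Cases

/-!
# The good class whose column has the far cell of a tall class
-/

set_option autoImplicit false

namespace Pool.Agent.Helper44.TS

open Pool.Agent.Helper84.TS Pool.Agent.Helper36.TS

variable {A : Fin 4 → Fin 4 → Option (Fin 4 → ℝ)}

theorem vv_split (h : OF A) {i : Fin 4} {N : Fin 4 → ℝ} (hN : A i i = some N) :
    VV A i ≤ 19 / 27 ∨ VV A i = fcl i N ∨
      ∃ j F, j ≠ i ∧ A i j = some F ∧ VV A i = fcl i N + fcl i F := by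
  obtain ⟨j, k, l, hn⟩ := exists_rest3 i
  have n := nodup_ne hn
  rcases hj : A i j with _ | u <;> rcases hk : A i k with _ | v <;> rcases hl : A i l with _ | w
  · right; left
    rw [VV_eq hn, hN, hj, hk, hl]
    simp only [fo]
    ring
  · right; right
    refine ⟨l, w, n.2.2, hl, ?_⟩
    rw [VV_eq hn, hN, hj, hk, hl]
    simp only [fo]
    ring
  · right; right
    refine ⟨k, v, n.2.1, hk, ?_⟩
    rw [VV_eq hn, hN, hj, hk, hl]
    simp only [fo]
    ring
  · left
    exact vv_few h (Or.inr ⟨k, l, n.2.1, n.2.2, nodup_kl hn, by simp [hk], by simp [hl]⟩)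
  · right; right
    refine ⟨j, u, n.1, hj, ?_⟩
    rw [VV_eq hn, hN, hj, hk, hl]
    simp only [fo]
    ring
  · left
    exact vv_few h (Or.inr ⟨j, l, n.1, n.2.2, nodup_jl hn, by simp [hj], by simp [hl]⟩)
  · left
    exact vv_few h (Or.inr ⟨j, k, n.1, n.2.1, nodup_jk hn, by simp [hj], by simp [hk]⟩)
  · left
    exact vv_few h (Or.inr ⟨j, k, n.1, n.2.1, nodup_jk hn, by simp [hj], by simp [hk]⟩)

/-- the main cell of the class `a`, when a tall class with `d ≤ 2/5` points at it -/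
theorem n_high (h : OF A) {r a : Fin 4} {M F N : Fin 4 → ℝ} (hc : TC A r a M F)
    (hr : M r - 1 ≤ 2 / 5) (hN : A a a = some N) (hd : N a - 1 < 3 / 5) :
    fcl a N ≤ 19 / 20 := by
  obtain ⟨x, y, hn⟩ := exists_rest2 hc.ne.symm
  have hn1 := swap_nodup hn
  have cN := h.cell a a N hN
  have mN := h.main a N hN
  have aN := cell_lin cN hn1
  have key : ∀ p q s : Fin 4, [a, p, q, s].Nodup → 3 / 5 ≤ -N p → fcl a N ≤ 19 / 20 := by
    intro p q s hp hu
    refine (main_u cN hp mN hu (by linarith)).trans ?_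
    obtain ⟨d, hdd⟩ : ∃ d, d = N a - 1 := ⟨_, rfl⟩
    have d0 : 0 ≤ d := by linarith
    have d1 : d < 3 / 5 := by linarith
    rw [← hdd]
    have e1 : 0 ≤ d ^ 3 := by positivity
    nlinarith [mul_nonneg d0 d0, mul_nonneg d0 (sub_nonneg.2 d1.le)]
  rcases tall_N h hc hn hN hd with e | ⟨e, -⟩ | ⟨e, -⟩
  · exact key r x y hn1 (by linarith)
  · exact key x r y (perm_jk hn1) (by linarith)
  · exact key y r x (perm_jk (perm_kl hn1)) (by linarith)

/-- the main cell of the class `a`, when a star class points at it -/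
theorem n_star (h : OF A) {r a : Fin 4} {M F N : Fin 4 → ℝ} (hc : TC A r a M F)
    (hr : M r - 1 < 1 / 10) (hN : A a a = some N) (hd : N a - 1 < 3 / 5) :
    fcl a N ≤ 4 / 5 := by
  obtain ⟨x, y, hn⟩ := exists_rest2 hc.ne.symm
  have hn1 := swap_nodup hn
  have cN := h.cell a a N hN
  have mN := h.main a N hN
  have aN := cell_lin cN hn1
  have hH : HH (11 / 20) ≤ 4 / 5 := by norm_num [HH]
  rcases tall_N h hc hn hN hd with e | ⟨-, e⟩ | ⟨-, e⟩
  · refine (main_u (u := 9 / 10) cN hn1 mN (by linarith) (by linarith)).trans ?_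
    obtain ⟨d, hdd⟩ : ∃ d, d = N a - 1 := ⟨_, rfl⟩
    have d0 : 0 ≤ d := by linarith
    have d1 : d < 3 / 5 := by linarith
    rw [← hdd]
    have e1 : 0 ≤ d ^ 3 := by positivity
    nlinarith [mul_nonneg d0 d0, mul_nonneg d0 (sub_nonneg.2 d1.le)]
  · exact (main_sup cN (perm_jl hn1) mN (by norm_num : (0 : ℝ) ≤ 11 / 20) (by linarith)).trans hH
  · exact (main_sup cN (perm_jk hn1) mN (by norm_num : (0 : ℝ) ≤ 11 / 20) (by linarith)).trans hH

theorem a_high (h : OF A) {r a : Fin 4} {M F : Fin 4 → ℝ} (hc : TC A r a M F)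
    (hr : M r - 1 ≤ 2 / 5) (ha : Good A a) : VV A a ≤ 19 / 20 := by
  obtain ⟨N, hN, hd, -⟩ := ha
  rcases vv_split h hN with e | e | ⟨j, G, hj, hG, -⟩
  · linarith
  · rw [e]
    exact n_high h hc hr hN hd
  · refine (vv_far h hj hG).trans (max_le (by norm_num) ?_)
    have w := far_W (h.cell a j G hG) hj (h.far a j G hj hG)
    obtain ⟨t, ht⟩ : ∃ t, t = 2 + G j := ⟨_, rfl⟩
    rw [← ht] at w ⊢
    nlinarith [mul_nonneg w.1 (sub_nonneg.2 w.2), mul_nonneg w.1 (mul_nonneg w.1 (sub_nonneg.2 w.2))]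

theorem a_star (h : OF A) {r a : Fin 4} {M F : Fin 4 → ℝ} (hc : TC A r a M F)
    (hr : M r - 1 < 1 / 10) (ha : Good A a) : VV A a ≤ 9 / 10 := by
  obtain ⟨N, hN, hd, -⟩ := ha
  have hf := n_star h hc hr hN hd
  rcases vv_split h hN with e | e | ⟨j, G, hj, hG, e⟩
  · linarith
  · linarith
  · have w := far_W (h.cell a j G hG) hj (h.far a j G hj hG)
    rcases le_total (2 + G j) (3 / 20) with hw | hw
    · have e1 := far_bb' (h.cell a j G hG) hj (h.far a j G hj hG)
      have e2 := bb_mono w.1 hw (by norm_num)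
      have e3 : bb (3 / 20) ≤ 1 / 10 := by norm_num [bb]
      linarith
    · refine (vv_far h hj hG).trans (max_le (by norm_num) ?_)
      obtain ⟨t, ht⟩ : ∃ t, t = 2 + G j := ⟨_, rfl⟩
      rw [← ht] at w hw ⊢
      nlinarith [mul_nonneg w.1 (sub_nonneg.2 w.2),
        mul_nonneg (sub_nonneg.2 hw) (mul_nonneg w.1 (sub_nonneg.2 w.2))]

end Pool.Agent.Helper44.TS
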