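import Pool.Agent.Helper74.TS.GoodOr

/-!
# The value of a good class with a main cell with `d ≥ 57/250`
-/

set_option autoImplicit false

namespace Pool.Agent.Helper44.TS

open Pool.Agent.Helper84.TS Pool.Agent.Helper23.TS Pool.Agent.Helper36.TS

/-! ### The polynomial inequalities -/

private theorem q1 {d t : ℝ} (ht : 0 ≤ t) (htd : t ≤ d) (h1 : 57 / 250 ≤ d) (h2 : d ≤ 3 / 5) :
    0 ≤ -409 / 1500 + 5 / 4 * d + 1 / 4 * t - 3 / 2 * d * t + 1 / 4 * t ^ 2 - 1 / 3 * d ^ 3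
      + d ^ 2 * t - 3 / 4 * d * t ^ 2 + 1 / 12 * t ^ 3 := by
  -- increasing in `d`
  have key : ∀ e, 0 ≤ e → t ≤ e → e ≤ d →
      0 ≤ -409 / 1500 + 5 / 4 * e + 1 / 4 * t - 3 / 2 * e * t + 1 / 4 * t ^ 2 - 1 / 3 * e ^ 3
      + e ^ 2 * t - 3 / 4 * e * t ^ 2 + 1 / 12 * t ^ 3 →
      0 ≤ -409 / 1500 + 5 / 4 * d + 1 / 4 * t - 3 / 2 * d * t + 1 / 4 * t ^ 2 - 1 / 3 * d ^ 3
      + d ^ 2 * t - 3 / 4 * d * t ^ 2 + 1 / 12 * t ^ 3 := by
    intro e e0 te ed he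
    have h : 0 ≤ (d - e) * (5 / 4 - 3 / 2 * t - 1 / 3 * (d ^ 2 + d * e + e ^ 2) + (d + e) * t
        - 3 / 4 * t ^ 2) := by
      refine mul_nonneg (by linarith) ?_
      nlinarith [mul_nonneg ht (by linarith : 0 ≤ e - t), mul_nonneg ht (by linarith : 0 ≤ d - t),
        mul_nonneg e0 (by linarith : 0 ≤ d - e)]
    nlinarith
  rcases le_total t (57 / 250) with h | h
  · refine key (57 / 250) (by norm_num) h h1 ?_
    nlinarith [sq_nonneg (t - 57 / 250), mul_nonneg ht (sub_nonneg.2 h),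
      mul_nonneg (mul_nonneg ht ht) ht]
  · refine key t ht le_rfl htd ?_
    nlinarith [mul_nonneg (sub_nonneg.2 h) (by linarith : 0 ≤ 3 / 5 - t)]

private theorem q2 {d w : ℝ} (hwd : d ≤ w) (hw : w ≤ 13 / 20) (h1 : 57 / 250 ≤ d) :
    0 ≤ -409 / 1500 + 5 / 4 * d + 1 / 4 * w - 3 / 2 * d * w + 1 / 4 * w ^ 2 + 1 / 4 * d * w ^ 2
      - 1 / 4 * w ^ 3 := by
  have w0 : 0 ≤ w := by linarith
  have h : 0 ≤ (d - 57 / 250) * (5 / 4 - 3 / 2 * w + w ^ 2 / 4) := by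
    refine mul_nonneg (by linarith) ?_
    nlinarith
  have h' : 0 ≤ 37 / 3000 - 23 / 250 * w + 307 / 1000 * w ^ 2 - w ^ 3 / 4 := by
    nlinarith [mul_nonneg (by linarith : 0 ≤ w - 57 / 250) (sub_nonneg.2 hw),
      mul_nonneg (mul_nonneg (by linarith : 0 ≤ w - 57 / 250) (sub_nonneg.2 hw)) w0]
  nlinarith

private theorem q3 {d t : ℝ} (ht : 0 ≤ t) (htd : t ≤ d) (h1 : 57 / 250 ≤ d) (h2 : d ≤ 3 / 5) :
    0 ≤ -17 / 750 + 3 / 4 * t + 2 * d ^ 2 - 3 * d * t + 1 / 4 * t ^ 2 - 4 / 3 * d ^ 3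
      + 2 * d ^ 2 * t - 3 / 4 * d * t ^ 2 + 1 / 12 * t ^ 3 := by
  have h : 0 ≤ (d - t) * (2 * (d + t) - 3 * t - 4 / 3 * (d ^ 2 + d * t + t ^ 2)
      + 2 * (d + t) * t - 3 / 4 * t ^ 2) ∨ True := Or.inr trivial
  nlinarith [mul_nonneg ht (sub_nonneg.2 htd), mul_nonneg (sub_nonneg.2 htd) (sub_nonneg.2 htd),
    mul_nonneg ht (sub_nonneg.2 h2), mul_nonneg (sub_nonneg.2 h1) (sub_nonneg.2 h2),
    mul_nonneg (mul_nonneg ht (sub_nonneg.2 htd)) (sub_nonneg.2 h2),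
    mul_nonneg (mul_nonneg (sub_nonneg.2 htd) (sub_nonneg.2 htd)) (sub_nonneg.2 h2),
    mul_nonneg (mul_nonneg ht ht) (sub_nonneg.2 htd)]

private theorem bb_mono44 {x y : ℝ} (h0 : 0 ≤ x) (h : x ≤ y) (h1 : y ≤ 1) : bb x ≤ bb y := by
  unfold bb
  have : 0 ≤ (y - x) * (1 / 4 + (y + x) / 2 - (y ^ 2 + y * x + x ^ 2) / 12) := by
    refine mul_nonneg (by linarith) ?_
    nlinarith
  nlinarith

private theorem bb_add44 {x y : ℝ} (h0 : 0 ≤ x) (h1 : 0 ≤ y) (h2 : x + y ≤ 1) :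
    bb x + bb y ≤ bb (x + y) := by
  unfold bb
  nlinarith [mul_nonneg (mul_nonneg h0 h1) (by linarith : 0 ≤ 1 - (x + y)), mul_nonneg h0 h1]

private theorem gg_anti44 {d x r : ℝ} (hx : 0 ≤ x) (hxr : x ≤ r) (hr : r ≤ 1 - d) (hd : 0 ≤ d) :
    -(1 - d) * (r ^ 2 + (1 + d + r) ^ 2 / 2) / 2 + r ^ 3 / 3 ≤
      -(1 - d) * (x ^ 2 + (1 + d + x) ^ 2 / 2) / 2 + x ^ 3 / 3 := by
  have h : 0 ≤ (r - x) * ((1 - d) * (3 * (r + x) / 2 + (1 + d)) / 2
      - (r ^ 2 + r * x + x ^ 2) / 3) := by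
    refine mul_nonneg (by linarith) ?_
    have h0 : 0 ≤ r := hx.trans hxr
    nlinarith [mul_nonneg h0 (sub_nonneg.2 hr), mul_nonneg hx (by linarith : 0 ≤ 1 - d - x),
      mul_nonneg hx (sub_nonneg.2 hr), mul_nonneg h0 (by linarith : 0 ≤ 1 - d - x),
      mul_nonneg (by linarith : 0 ≤ 1 - d) h0, mul_nonneg (by linarith : 0 ≤ 1 - d) hx,
      mul_nonneg (by linarith : 0 ≤ 1 - d) hd]
  nlinarith

/-! ### One, two, three far cells -/

private theorem one44 {i j k l : Fin 4} {v : Fin 4 → ℝ} {w : ℝ} (hv : IsCell i v)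
    (hn : [i, j, k, l].Nodup) (hm : ∀ m, m ≠ i → -v m ≤ 1) (hdl : 57 / 250 ≤ v i - 1)
    (hd35 : v i - 1 < 3 / 5) (w0 : 0 ≤ w)
    (w1 : w ≤ 13 / 20) (hw : w ≤ v j + (v i - 1)) : fcl i v + bb w ≤ 161 / 250 := by
  obtain ⟨a1, a2, a3, a4, a5, a6, a7, a8, a9⟩ := cell_lin hv hn
  obtain ⟨b1, b2, b3⟩ := main_ent hn hm
  have hk0 : v k ≤ 0 := by linarith
  have hl0 : v l ≤ 0 := by linarith
  rw [main_f hn hm, max_eq_right hk0, max_eq_right hl0]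
  obtain ⟨d, hd⟩ : ∃ d, d = v i - 1 := ⟨_, rfl⟩
  obtain ⟨r, hr⟩ : ∃ r, r = v j := ⟨_, rfl⟩
  have hd0 : 0 ≤ d := by linarith
  have hr1 : r ≤ 1 - d := by linarith
  have hwr : w ≤ d + r := by linarith
  rw [← hd] at hd35 hdl
  have e : v l = -(1 + d + r + v k) := by rw [hd, hr]; linarith
  rw [e, ← hd, ← hr]
  have sq : 0 ≤ (1 - d) * (v k + (1 + d + r) / 2) ^ 2 :=
    mul_nonneg (by linarith) (sq_nonneg _)
  have key : (1 - d) * (r ^ 2 + (v k) ^ 2 + (-(1 + d + r + v k)) ^ 2) / 2 ≥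
      (1 - d) * (r ^ 2 + (1 + d + r) ^ 2 / 2) / 2 := by nlinarith [sq]
  have z3 : (0 : ℝ) ^ 3 = 0 := by norm_num
  rcases le_total r 0 with r0 | r0
  · rw [max_eq_right r0]
    have hb : bb w ≤ bb (d + r) := bb_mono44 w0 hwr (by linarith)
    unfold bb at hb ⊢
    have := q1 (d := d) (t := d + r) (by linarith) (by linarith) hdl (by linarith)
    linarith [this, key]
  · rw [max_eq_left r0]
    rcases le_total w d with hwd | hwd
    · have hg := gg_anti44 (d := d) (x := 0) (r := r) le_rfl r0 hr1 hd0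
      have hb : bb w ≤ bb d := bb_mono44 w0 hwd (by linarith)
      unfold bb at hb ⊢
      have := q1 (d := d) (t := d) hd0 le_rfl hdl (by linarith)
      linarith [this, key]
    · have hg := gg_anti44 (d := d) (x := w - d) (r := r) (by linarith) (by linarith) hr1 hd0
      unfold bb
      have := q2 (d := d) (w := w) hwd w1 hdl
      linarith [this, key]

private theorem two44 {i j k l : Fin 4} {v : Fin 4 → ℝ} {w w' : ℝ} (hv : IsCell i v)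
    (hn : [i, j, k, l].Nodup) (hm : ∀ m, m ≠ i → -v m ≤ 1) (hdl : 57 / 250 ≤ v i - 1)
    (hd35 : v i - 1 < 3 / 5) (w0 : 0 ≤ w)
    (w0' : 0 ≤ w') (hw : w ≤ v j + (v i - 1)) (hw' : w' ≤ v k + (v i - 1)) :
    fcl i v + bb w + bb w' ≤ 161 / 250 := by
  obtain ⟨a1, a2, a3, a4, a5, a6, a7, a8, a9⟩ := cell_lin hv hn
  obtain ⟨b1, b2, b3⟩ := main_ent hn hm
  rw [main_f hn hm, max_eq_right (by linarith : v j ≤ 0), max_eq_right (by linarith : v k ≤ 0),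
    max_eq_right (by linarith : v l ≤ 0)]
  obtain ⟨d, hd⟩ : ∃ d, d = v i - 1 := ⟨_, rfl⟩
  obtain ⟨t, ht⟩ : ∃ t, t = v j + v k + 2 * d := ⟨_, rfl⟩
  have hd0 : 0 ≤ d := by linarith
  have ht0 : w + w' ≤ t := by linarith
  have htd : t ≤ d := by linarith
  rw [← hd] at hd35 hdl
  have e : v l = -(1 - d + t) := by rw [hd, ht, hd]; linarith
  rw [e, ← hd]
  have hb1 := bb_add44 w0 w0' (by linarith)
  have hb2 : bb (w + w') ≤ bb t := bb_mono44 (by linarith) ht0 (by linarith)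
  have hb : bb w + bb w' ≤ bb t := hb1.trans hb2
  have sq : 0 ≤ (1 - d) * (v j - v k) ^ 2 := mul_nonneg (by linarith) (sq_nonneg _)
  have key : (1 - d) * ((v j) ^ 2 + (v k) ^ 2 + (-(1 - d + t)) ^ 2) / 2 ≥
      (1 - d) * ((2 * d - t) ^ 2 / 2 + (1 - d + t) ^ 2) / 2 := by
    have e2 : 2 * d - t = -(v j + v k) := by rw [ht]; ring
    rw [e2]
    nlinarith [sq]
  generalize bb w = p at *
  generalize bb w' = q at *
  unfold bb at hb
  have := q3 (d := d) (t := t) (by linarith) (by linarith) hdl (by linarith)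
  linarith [this, key, hb]

private theorem three44 {i j k l : Fin 4} {v : Fin 4 → ℝ} {w w' w'' : ℝ} (hv : IsCell i v)
    (hn : [i, j, k, l].Nodup) (hm : ∀ m, m ≠ i → -v m ≤ 1) (hd35 : v i - 1 < 3 / 5) (w0 : 0 ≤ w)
    (w0' : 0 ≤ w') (w0'' : 0 ≤ w'') (hw : w ≤ v j + (v i - 1)) (hw' : w' ≤ v k + (v i - 1))
    (hw'' : w'' ≤ v l + (v i - 1)) :
    fcl i v + bb w + bb w' + bb w'' ≤ 161 / 250 := by
  obtain ⟨a1, a2, a3, a4, a5, a6, a7, a8, a9⟩ := cell_lin hv hn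
  have hf := main_d hv hm
  obtain ⟨d, hd⟩ : ∃ d, d = v i - 1 := ⟨_, rfl⟩
  rw [← hd] at hd35 hf
  have hs : w + w' + w'' ≤ 1 / 5 := by linarith
  have hd2 : 1 / 2 ≤ d := by linarith
  have h1 := bb_add44 w0 w0' (by linarith)
  have h2 := bb_add44 (by linarith : 0 ≤ w + w') w0'' (by linarith)
  have h3 : bb (w + w' + w'') ≤ bb (1 / 5) := bb_mono44 (by linarith) hs (by norm_num)
  have h4 : bb (1 / 5) ≤ 1 / 10 := by unfold bb; norm_num
  nlinarith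

variable {A : Fin 4 → Fin 4 → Option (Fin 4 → ℝ)}

private theorem gfar44 (h : OF A) {i j : Fin 4} (hj : j ≠ i) {v F : Fin 4 → ℝ}
    (hv : A i i = some v) (hF : A i j = some F) (hw : 2 + F j ≤ 13 / 20) :
    fcl i F ≤ bb (2 + F j) ∧ 0 ≤ 2 + F j ∧ 2 + F j ≤ 13 / 20 ∧ 2 + F j ≤ v j + (v i - 1) := by
  have cF := h.cell i j F hF
  have fF := h.far i j F hj hF
  exact ⟨far_bb' cF hj fF, (far_W cF hj fF).1, hw,
    own' (h.cell i i v hv) cF (sep' h hj.symm hv hF) hj (h.main i v hv) fF⟩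

/-- **The value of a good class with `d ≥ 57/250`.** -/
theorem good_hi (h : OF A) {i : Fin 4} (hg : Good A i) {M : Fin 4 → ℝ} (hM : A i i = some M)
    (hdl : 57 / 250 ≤ M i - 1) :
    VV A i ≤ (1 - (M i - 1)) * (1 - 2 / 3 * (M i - 1)) ∨ VV A i ≤ 161 / 250 := by
  obtain ⟨M', hM', hd, hw⟩ := hg
  obtain rfl : M = M' := by rw [hM] at hM'; exact Option.some.inj hM'
  obtain ⟨j, k, l, hn⟩ := exists_rest3 i
  have n := nodup_ne hn
  have cv := h.cell i i M hM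
  have mv := h.main i M hM
  have nk : [i, k, j, l].Nodup := perm_jk hn
  have nl : [i, l, k, j].Nodup := by
    clear * - hn; revert hn; revert i j k l; decide
  have njl : [i, j, l, k].Nodup := perm_kl hn
  have nkl : [i, k, l, j].Nodup := by
    clear * - hn; revert hn; revert i j k l; decide
  rw [Pool.Agent.Helper44.TS.VV_eq hn, hM]
  simp only [fo]
  rcases hj : A i j with _ | F <;> rcases hk : A i k with _ | G <;> rcases hl : A i l with _ | H <;>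
    simp only [add_zero]
  · exact Or.inl (main_d cv mv)
  · obtain ⟨g1, g2, g3, g4⟩ := gfar44 h n.2.2 hM hl (hw l H n.2.2 hl)
    have := one44 cv nl mv hdl hd g2 g3 g4
    exact Or.inr (by linarith)
  · obtain ⟨g1, g2, g3, g4⟩ := gfar44 h n.2.1 hM hk (hw k G n.2.1 hk)
    have := one44 cv nk mv hdl hd g2 g3 g4
    exact Or.inr (by linarith)
  · obtain ⟨g1, g2, g3, g4⟩ := gfar44 h n.2.1 hM hk (hw k G n.2.1 hk)
    obtain ⟨e1, e2, e3, e4⟩ := gfar44 h n.2.2 hM hl (hw l H n.2.2 hl)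
    have := two44 cv nkl mv hdl hd g2 e2 g4 e4
    exact Or.inr (by linarith)
  · obtain ⟨g1, g2, g3, g4⟩ := gfar44 h n.1 hM hj (hw j F n.1 hj)
    have := one44 cv hn mv hdl hd g2 g3 g4
    exact Or.inr (by linarith)
  · obtain ⟨g1, g2, g3, g4⟩ := gfar44 h n.1 hM hj (hw j F n.1 hj)
    obtain ⟨e1, e2, e3, e4⟩ := gfar44 h n.2.2 hM hl (hw l H n.2.2 hl)
    have := two44 cv njl mv hdl hd g2 e2 g4 e4
    exact Or.inr (by linarith)
  · obtain ⟨g1, g2, g3, g4⟩ := gfar44 h n.1 hM hj (hw j F n.1 hj)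
    obtain ⟨e1, e2, e3, e4⟩ := gfar44 h n.2.1 hM hk (hw k G n.2.1 hk)
    have := two44 cv hn mv hdl hd g2 e2 g4 e4
    exact Or.inr (by linarith)
  · obtain ⟨g1, g2, g3, g4⟩ := gfar44 h n.1 hM hj (hw j F n.1 hj)
    obtain ⟨e1, e2, e3, e4⟩ := gfar44 h n.2.1 hM hk (hw k G n.2.1 hk)
    obtain ⟨f1, f2, f3, f4⟩ := gfar44 h n.2.2 hM hl (hw l H n.2.2 hl)
    have := three44 cv hn mv hd g2 e2 f2 g4 e4 f4
    exact Or.inr (by linarith)

end Pool.Agent.Helper44.TS
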