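import Pool.Agent.Helper44.TS.Three

/-!
# A main cell together with far cells of its class
-/

set_option autoImplicit false

namespace Pool.Agent.Helper44.TS

open Pool.Agent.Helper84.TS Pool.Agent.Helper36.TS

/-- the bound for a main cell supported by a far cell with the parameter `y` -/
noncomputable def HH (y : ℝ) : ℝ := 11 / 12 - y / 2 - 3 / 4 * y ^ 2 + y ^ 3 / 3

theorem HH_anti {y t : ℝ} (h0 : 0 ≤ y) (h : y ≤ t) (h1 : t ≤ 1) : HH t ≤ HH y := by
  unfold HH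
  have : 0 ≤ (t - y) * (1 / 2 + 3 / 4 * (t + y) - (t ^ 2 + t * y + y ^ 2) / 3) := by
    refine mul_nonneg (by linarith) ?_
    nlinarith
  nlinarith

/-- the entries of a main cell -/
theorem main_ent {i j k l : Fin 4} {v : Fin 4 → ℝ} (h : [i, j, k, l].Nodup)
    (hm : ∀ m, m ≠ i → -v m ≤ 1) : -v j ≤ 1 ∧ -v k ≤ 1 ∧ -v l ≤ 1 := by
  have b := nodup_ne h
  exact ⟨hm j b.1, hm k b.2.1, hm l b.2.2⟩

/-- the volume of a main cell -/
theorem main_f {i j k l : Fin 4} {v : Fin 4 → ℝ} (h : [i, j, k, l].Nodup)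
    (hm : ∀ m, m ≠ i → -v m ≤ 1) :
    fcl i v = 7 / 6 - 3 / 2 * (v i - 1) + (v i - 1) ^ 2 / 2 - (v i - 1) ^ 3 / 6
      - (1 - (v i - 1)) * ((v j) ^ 2 + (v k) ^ 2 + (v l) ^ 2) / 2
      + ((max (v j) 0) ^ 3 + (max (v k) 0) ^ 3 + (max (v l) 0) ^ 3) / 3 := by
  obtain ⟨a, b, c⟩ := main_ent h hm
  rw [fcl_eq h v, ff, neg_neg, neg_neg, neg_neg, max_eq_right (by linarith : -v j - 1 ≤ 0),
    max_eq_right (by linarith : -v k - 1 ≤ 0), max_eq_right (by linarith : -v l - 1 ≤ 0)]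
  ring

/-- **A main cell supported in the column `j`.** -/
theorem main_sup {i j k l : Fin 4} {v : Fin 4 → ℝ} {y : ℝ} (hv : IsCell i v)
    (h : [i, j, k, l].Nodup) (hm : ∀ m, m ≠ i → -v m ≤ 1) (hy : 0 ≤ y)
    (hs : y ≤ v j + (v i - 1)) : fcl i v ≤ HH y := by
  obtain ⟨a1, a2, a3, a4, a5, a6, a7, a8, a9⟩ := cell_lin hv h
  obtain ⟨b1, b2, b3⟩ := main_ent h hm
  have hk0 : v k ≤ 0 := by linarith
  have hl0 : v l ≤ 0 := by linarith
  rw [main_f h hm, max_eq_right hk0, max_eq_right hl0]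
  refine le_trans ?_ (HH_anti hy hs (by linarith))
  obtain ⟨d, hd⟩ : ∃ d, d = v i - 1 := ⟨_, rfl⟩
  obtain ⟨r, hr⟩ : ∃ r, r = v j := ⟨_, rfl⟩
  rw [← hd, ← hr]
  have e : v l = -(1 + d + r + v k) := by rw [hd, hr]; linarith
  rw [e]
  have hd0 : 0 ≤ d := by linarith
  have ht1 : r + d ≤ 1 := by linarith
  have ht0 : 0 ≤ r + d := by linarith
  have hd1 : d < 1 := by linarith
  have sq : 0 ≤ (1 - d) * (v k + (1 + d + r) / 2) ^ 2 :=
    mul_nonneg (by linarith) (sq_nonneg _)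
  have key : 0 ≤ d * ((1 - (r + d)) * (5 - (r + d))) / 4 := by
    have : 0 ≤ (1 - (r + d)) * (5 - (r + d)) := mul_nonneg (by linarith) (by linarith)
    positivity
  unfold HH
  rcases le_total 0 r with h0 | h0
  · rw [max_eq_left h0]
    first | linarith only [sq, key] | nlinarith
  · rw [max_eq_right h0]
    have c1 : (-r) ^ 3 ≤ d * (1 - (r + d)) := by
      have e1 : -r ≤ d * (1 - (r + d)) := by
        have : 0 ≤ (r + d) * (1 - d) := mul_nonneg ht0 (by linarith only [hd1])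
        linarith only [this]
      have e2 : (-r) ^ 3 ≤ -r := by
        have g0 : 0 ≤ -r := by linarith only [h0]
        have g1 : (-r) ^ 2 ≤ 1 := pow_le_one₀ g0 (by linarith only [ht0, hd1])
        have g2 := mul_le_mul_of_nonneg_right g1 g0
        linarith only [g2]
      linarith only [e1, e2]
    have c2 : d * (1 - (r + d)) ≤ d * ((1 - (r + d)) * (5 - (r + d))) / 4 := by
      have : 0 ≤ d * (1 - (r + d)) * (1 - (r + d)) :=
        mul_nonneg (mul_nonneg hd0 (by linarith only [ht1])) (by linarith only [ht1])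
      linarith only [this]
    linarith only [sq, c1, c2, key]

/-- the bound for a main cell in terms of `d` -/
theorem main_d {i : Fin 4} {v : Fin 4 → ℝ} (hv : IsCell i v)
    (hm : ∀ m, m ≠ i → -v m ≤ 1) :
    fcl i v ≤ (1 - (v i - 1)) * (1 - 2 / 3 * (v i - 1)) := by
  obtain ⟨j, k, l, h⟩ := exists_rest3 i
  obtain ⟨a1, a2, a3, a4, a5, a6, a7, a8, a9⟩ := cell_lin hv h
  obtain ⟨b1, b2, b3⟩ := main_ent h hm
  rw [main_f h hm]
  obtain ⟨d, hd⟩ : ∃ d, d = v i - 1 := ⟨_, rfl⟩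
  rw [← hd]
  have hd0 : 0 ≤ d := by linarith
  have hd1 : d < 1 := by linarith
  have hsum : v j + v k + v l = -(1 + d) := by linarith
  -- the case of one entry that may be negative
  have gen : ∀ x y z : ℝ, x + y + z = -(1 + d) → x ≤ 1 - d →
      -((1 - d) * (x ^ 2 + y ^ 2 + z ^ 2) / 2) + (max x 0) ^ 3 / 3 ≤
        -((1 - d) * (1 + d) ^ 2 / 6) := by
    intro x y z hs hx
    have e : z = -(1 + d) - x - y := by linarith
    subst e
    have sq : 0 ≤ (1 - d) * (y + (1 + d + x) / 2) ^ 2 := mul_nonneg (by linarith) (sq_nonneg _)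
    rcases le_total x 0 with h0 | h0
    · rw [max_eq_right h0]
      have sq2 : 0 ≤ (1 - d) * (x + (1 + d) / 3) ^ 2 := mul_nonneg (by linarith) (sq_nonneg _)
      linarith only [sq, sq2]
    · rw [max_eq_left h0]
      have p1 : 0 ≤ x ^ 2 * (1 - d - x) := mul_nonneg (sq_nonneg _) (by linarith)
      have p2 : 0 ≤ (1 - d) * ((1 + d) * x) :=
        mul_nonneg (by linarith) (mul_nonneg (by linarith) h0)
      linarith only [mul_nonneg (by linarith only [hd1] : 0 ≤ 1 - d) (sq_nonneg x),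
        mul_nonneg (by linarith only [hd1] : 0 ≤ 1 - d) (sq_nonneg (1 + d)), sq, p1, p2]
  have fin : ∀ x y z : ℝ, x + y + z = -(1 + d) → x ≤ 1 - d → y ≤ 0 → z ≤ 0 →
      7 / 6 - 3 / 2 * d + d ^ 2 / 2 - d ^ 3 / 6 - (1 - d) * (x ^ 2 + y ^ 2 + z ^ 2) / 2
        + ((max x 0) ^ 3 + (max y 0) ^ 3 + (max z 0) ^ 3) / 3 ≤ (1 - d) * (1 - 2 / 3 * d) := by
    intro x y z hs hx hy hz
    have := gen x y z hs hx
    rw [max_eq_right hy, max_eq_right hz]
    linarith only [this]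
  have hj : v j ≤ 1 - d := by linarith
  have hk : v k ≤ 1 - d := by linarith
  have hl : v l ≤ 1 - d := by linarith
  rcases le_total (v j) 0 with h1 | h1
  · rcases le_total (v k) 0 with h2 | h2
    · have := fin (v l) (v j) (v k) (by linarith) hl h1 h2
      linarith only [this]
    · have := fin (v k) (v j) (v l) (by linarith) hk h1 (by linarith)
      linarith only [this]
  · have := fin (v j) (v k) (v l) (by linarith) hj (by linarith) (by linarith)
    linarith only [this]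

theorem main_one {i : Fin 4} {v : Fin 4 → ℝ} (hv : IsCell i v)
    (hm : ∀ m, m ≠ i → -v m ≤ 1) : fcl i v ≤ 1 := by
  have h := main_d hv hm
  obtain ⟨j, k, l, hn⟩ := exists_rest3 i
  have a := cell_lin hv hn
  have h0 : 0 ≤ v i - 1 := by linarith
  have h1 : v i - 1 ≤ 1 := by linarith
  nlinarith

/-- **A main cell and two far cells.** -/
theorem main_two {i j k l : Fin 4} {v : Fin 4 → ℝ} {y z : ℝ} (hv : IsCell i v)
    (h : [i, j, k, l].Nodup) (hm : ∀ m, m ≠ i → -v m ≤ 1) (hy : 0 ≤ y) (hz : 0 ≤ z)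
    (hs : y ≤ v j + (v i - 1)) (hs' : z ≤ v k + (v i - 1)) :
    fcl i v + bb y + bb z ≤ 19 / 27 := by
  obtain ⟨a1, a2, a3, a4, a5, a6, a7, a8, a9⟩ := cell_lin hv h
  obtain ⟨b1, b2, b3⟩ := main_ent h hm
  obtain ⟨d, hd⟩ : ∃ d, d = v i - 1 := ⟨_, rfl⟩
  obtain ⟨a, ha⟩ : ∃ a, a = v j + d := ⟨_, rfl⟩
  obtain ⟨b, hb⟩ : ∃ b, b = v k + d := ⟨_, rfl⟩
  have hd0 : 0 ≤ d := by linarith
  have hd1 : d < 1 := by linarith
  have hab : a + b ≤ d := by linarith
  have ha0 : 0 ≤ a := by linarith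
  have hb0 : 0 ≤ b := by linarith
  have ej : v j = a - d := by linarith
  have ek : v k = b - d := by linarith
  have el : v l = -(1 - d + a + b) := by linarith
  have f1 : bb y ≤ bb a := bb_mono hy (by linarith) (by linarith)
  have f2 : bb z ≤ bb b := bb_mono hz (by linarith) (by linarith)
  have f3 := bb_add ha0 hb0 (by linarith)
  rw [main_f h hm, ← hd, max_eq_right (by linarith : v j ≤ 0), max_eq_right (by linarith : v k ≤ 0),
    max_eq_right (by linarith : v l ≤ 0), ej, ek, el]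
  obtain ⟨s, hs⟩ : ∃ s, s = a + b := ⟨_, rfl⟩
  rw [← hs] at f3 hab
  have s0 : 0 ≤ s := by linarith
  have sq : 0 ≤ (1 - d) * (a - b) ^ 2 := mul_nonneg (by linarith) (sq_nonneg _)
  have key : 7 / 6 - 3 / 2 * d + d ^ 2 / 2 - d ^ 3 / 6 - (1 - d) * ((2 * d - s) ^ 2 / 2 + (1 - d + s) ^ 2) / 2
      + bb s ≤ 19 / 27 := by
    unfold bb
    have hsd : 0 ≤ d - s := by linarith
    have h1d : 0 ≤ 1 - d := by linarith
    obtain ⟨P, hP⟩ : ∃ P, P = -2 * d ^ 2 + 4 / 3 * d ^ 3 + s * (-3 / 4 + 3 * d - 2 * d ^ 2)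
        + s ^ 2 * (-1 / 4 + 3 / 4 * d) - s ^ 3 / 12 := ⟨_, rfl⟩
    have q1 : 0 ≤ 4 / 3 * d ^ 2 - 2 / 3 * s * d + s ^ 2 / 12 := by
      linarith only [mul_nonneg hd0 hsd, sq_nonneg d, sq_nonneg s]
    have q2 : 0 ≤ 2 / 3 * d ^ 2 + 5 / 12 * s * d - s ^ 2 / 12 := by
      linarith only [mul_nonneg s0 hsd, mul_nonneg s0 hd0, sq_nonneg d]
    have n1 : 0 ≤ (1 - d) * (s * d) := mul_nonneg h1d (mul_nonneg s0 hd0)
    have n2 := mul_nonneg h1d (mul_nonneg hsd q1)
    have n3 := mul_nonneg hsd q2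
    have hdP : d * P ≤ 0 := by
      have e : d * P = -(3 / 4 * ((1 - d) * (s * d)))
          - (1 - d) * ((d - s) * (4 / 3 * d ^ 2 - 2 / 3 * s * d + s ^ 2 / 12))
          - (d - s) * (2 / 3 * d ^ 2 + 5 / 12 * s * d - s ^ 2 / 12) := by
        rw [hP]
        ring
      linarith
    have hP0 : P ≤ 0 := by
      rcases hd0.eq_or_lt with h0 | h0
      · have : s = 0 := by linarith
        rw [hP, this, ← h0]
        norm_num
      · by_contra hcon
        push Not at hcon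
        have := mul_pos h0 hcon
        linarith
    have e3 : 7 / 6 - 3 / 2 * d + d ^ 2 / 2 - d ^ 3 / 6
        - (1 - d) * ((2 * d - s) ^ 2 / 2 + (1 - d + s) ^ 2) / 2
        + (s / 4 + s ^ 2 / 2 - s ^ 3 / 12) = 2 / 3 + P := by
      rw [hP]
      ring
    rw [e3]
    linarith
  have e2 : (1 - d) * ((a - d) ^ 2 + (b - d) ^ 2 + (-(1 - d + a + b)) ^ 2) / 2 =
      (1 - d) * ((2 * d - s) ^ 2 / 2 + (1 - d + s) ^ 2) / 2 + (1 - d) * (a - b) ^ 2 / 4 := by
    rw [hs]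
    ring
  rw [e2]
  linarith

/-- **A main cell and three far cells.** -/
theorem main_three {i j k l : Fin 4} {v : Fin 4 → ℝ} {x y z : ℝ} (hv : IsCell i v)
    (h : [i, j, k, l].Nodup) (hm : ∀ m, m ≠ i → -v m ≤ 1) (hx : 0 ≤ x) (hy : 0 ≤ y) (hz : 0 ≤ z)
    (hs : x ≤ v j + (v i - 1)) (hs' : y ≤ v k + (v i - 1)) (hs'' : z ≤ v l + (v i - 1)) :
    fcl i v + bb x + bb y + bb z ≤ 19 / 27 := by
  obtain ⟨a1, a2, a3, a4, a5, a6, a7, a8, a9⟩ := cell_lin hv h
  have hd := main_d hv hm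
  obtain ⟨d, hdd⟩ : ∃ d, d = v i - 1 := ⟨_, rfl⟩
  rw [← hdd] at hd hs hs' hs''
  have hsum : x + y + z ≤ 2 * d - 1 := by linarith
  have hd1 : d < 1 := by linarith
  have f1 := bb_add hx hy (by linarith)
  have f2 := bb_add (by linarith : 0 ≤ x + y) hz (by linarith)
  have f3 : bb (x + y + z) ≤ bb (2 * d - 1) := bb_mono (by linarith) hsum (by linarith)
  have f4 : (1 - d) * (1 - 2 / 3 * d) + bb (2 * d - 1) ≤ 19 / 27 := by
    unfold bb
    have hd2 : 0 ≤ 2 * d - 1 := by linarith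
    nlinarith [mul_nonneg hd2 (by linarith : 0 ≤ 1 - d),
      mul_nonneg (mul_nonneg hd2 (by linarith : 0 ≤ 1 - d)) hd2]
  linarith

end Pool.Agent.Helper44.TS
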