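import Pool.Agent.Helper44.TS.OwnClass

/-!
# Classes with a main cell with large `d`
-/

set_option autoImplicit false

namespace Pool.Agent.Helper44.TS

open Pool.Agent.Helper84.TS Pool.Agent.Helper36.TS

/-- a main cell with a positive entry -/
theorem main_sup_d {i j k l : Fin 4} {v : Fin 4 → ℝ} (hv : IsCell i v)
    (h : [i, j, k, l].Nodup) (hm : ∀ m, m ≠ i → -v m ≤ 1) (h0 : 0 ≤ v j) :
    fcl i v ≤ HH (v j + (v i - 1)) -
      (v i - 1) * ((1 - (v j + (v i - 1))) * (5 - (v j + (v i - 1)))) / 4 := by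
  obtain ⟨a1, a2, a3, a4, a5, a6, a7, a8, a9⟩ := cell_lin hv h
  obtain ⟨b1, b2, b3⟩ := main_ent h hm
  have hk0 : v k ≤ 0 := by linarith
  have hl0 : v l ≤ 0 := by linarith
  rw [main_f h hm, max_eq_right hk0, max_eq_right hl0, max_eq_left h0]
  obtain ⟨d, hd⟩ : ∃ d, d = v i - 1 := ⟨_, rfl⟩
  obtain ⟨r, hr⟩ : ∃ r, r = v j := ⟨_, rfl⟩
  rw [← hd, ← hr]
  have e : v l = -(1 + d + r + v k) := by rw [hd, hr]; linarith
  rw [e]
  have hd0 : 0 ≤ d := by linarith
  have hd1 : d < 1 := by linarith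
  have sq : 0 ≤ (1 - d) * (v k + (1 + d + r) / 2) ^ 2 :=
    mul_nonneg (by linarith) (sq_nonneg _)
  unfold HH
  nlinarith

/-- an admissible bound for the far cells -/
structure Adm (φ : ℝ → ℝ) (K : ℝ) : Prop where
  add : ∀ a b, 0 ≤ a → 0 ≤ b → a + b ≤ 1 → φ a + φ b ≤ φ (a + b)
  mono : ∀ a b, 0 ≤ a → a ≤ b → b ≤ 1 → φ a ≤ φ b
  nn : ∀ a, 0 ≤ a → a ≤ 1 → 0 ≤ φ a
  n1 : ∀ d, 3 / 5 ≤ d → d ≤ 1 → (1 - d) * (1 - 2 / 3 * d) + φ d ≤ K
  n2 : ∀ t, 3 / 5 ≤ t → t ≤ 1 → HH t - 3 / 20 * ((1 - t) * (5 - t)) + φ t ≤ K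

theorem adm_bb : Adm bb (2 / 3) where
  add _ _ h1 h2 h3 := bb_add h1 h2 h3
  mono _ _ h1 h2 h3 := bb_mono h1 h2 h3
  nn _ h1 h2 := bb_nonneg h1 h2
  n1 d h1 h2 := by
    unfold bb
    nlinarith [mul_nonneg (sub_nonneg.2 h1) (sub_nonneg.2 h2),
      mul_nonneg (mul_nonneg (sub_nonneg.2 h1) (sub_nonneg.2 h2)) (by linarith : 0 ≤ d)]
  n2 t h1 h2 := by
    unfold bb HH
    nlinarith [mul_nonneg (sub_nonneg.2 h1) (sub_nonneg.2 h2),
      mul_nonneg (mul_nonneg (sub_nonneg.2 h1) (sub_nonneg.2 h2)) (by linarith : 0 ≤ t)]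

theorem adm_PP : Adm PP (263 / 400) where
  add _ _ h1 h2 h3 := PP_add h1 h2 h3
  mono _ _ h1 h2 h3 := PP_mono h1 h2 h3
  nn _ h1 h2 := PP_nonneg h1 h2
  n1 d h1 h2 := by
    unfold PP
    nlinarith [mul_nonneg (sub_nonneg.2 h1) (sub_nonneg.2 h2),
      mul_nonneg (mul_nonneg (sub_nonneg.2 h1) (sub_nonneg.2 h2)) (by linarith : 0 ≤ d)]
  n2 t h1 h2 := by
    unfold PP HH
    nlinarith [mul_nonneg (sub_nonneg.2 h1) (sub_nonneg.2 h2),
      mul_nonneg (mul_nonneg (sub_nonneg.2 h1) (sub_nonneg.2 h2)) (by linarith : 0 ≤ t)]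

section

variable {A : Fin 4 → Fin 4 → Option (Fin 4 → ℝ)}

theorem main_big (h : OF A) {i : Fin 4} {M : Fin 4 → ℝ} (hM : A i i = some M)
    (hd : 3 / 5 ≤ M i - 1) {φ : ℝ → ℝ} {K : ℝ} (hφ : Adm φ K)
    (hf : ∀ m F, m ≠ i → A i m = some F → fcl i F ≤ φ (2 + F m)) : VV A i ≤ K := by
  obtain ⟨j, k, l, hn⟩ := exists_rest3 i
  have n := nodup_ne hn
  have cM := h.cell i i M hM
  have mM := h.main i M hM
  have aM := cell_lin cM hn
  have eM := main_ent hn mM
  have fM := main_d cM mM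
  have d1 : M i - 1 ≤ 1 := by linarith
  have N1 := hφ.n1 (M i - 1) hd d1
  have p0 := hφ.nn (M i - 1) (by linarith) d1
  have own1 : ∀ {m : Fin 4} {F : Fin 4 → ℝ}, m ≠ i → A i m = some F →
      0 ≤ 2 + F m ∧ 2 + F m ≤ 1 ∧ 2 + F m ≤ M m + (M i - 1) ∧ fcl i F ≤ φ (2 + F m) := by
    intro m F hm hF
    have w := far_W (h.cell i m F hF) hm (h.far i m F hm hF)
    exact ⟨w.1, w.2, own' cM (h.cell i m F hF) (sep' h hm.symm hM hF) hm mM (h.far i m F hm hF),
      hf m F hm hF⟩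
  have one : ∀ {m p q : Fin 4} {F : Fin 4 → ℝ}, [i, m, p, q].Nodup → A i m = some F →
      fcl i M + fcl i F ≤ K := by
    intro m p q F hn hF
    have n := nodup_ne hn
    obtain ⟨w0, w1, w2, w3⟩ := own1 n.1 hF
    have aM := cell_lin cM hn
    have t1 : M m + (M i - 1) ≤ 1 := by linarith
    rcases le_total 0 (M m) with h0 | h0
    · have e1 := main_sup_d cM hn mM h0
      have e2 := hφ.n2 (M m + (M i - 1)) (by linarith) t1
      have e3 := hφ.mono _ _ w0 w2 t1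
      have e4 : 0 ≤ (M i - 1 - 3 / 5) * ((1 - (M m + (M i - 1))) * (5 - (M m + (M i - 1)))) :=
        mul_nonneg (by linarith) (mul_nonneg (by linarith) (by linarith))
      linarith
    · have e3 := hφ.mono _ _ w0 (by linarith : 2 + F m ≤ M i - 1) d1
      linarith
  have two : ∀ {m p q : Fin 4} {F G : Fin 4 → ℝ}, [i, m, p, q].Nodup → A i m = some F →
      A i p = some G → fcl i M + fcl i F + fcl i G ≤ K := by
    intro m p q F G hn hF hG
    have n := nodup_ne hn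
    obtain ⟨w0, w1, w2, w3⟩ := own1 n.1 hF
    obtain ⟨v0, v1, v2, v3⟩ := own1 n.2.1 hG
    have aM := cell_lin cM hn
    have eM := main_ent hn mM
    have e1 := hφ.add _ _ w0 v0 (by linarith)
    have e2 := hφ.mono _ _ (by linarith) (by linarith : (2 + F m) + (2 + G p) ≤ M i - 1) d1
    linarith
  rw [VV_eq hn, hM]
  rcases hj : A i j with _ | u <;> rcases hk : A i k with _ | v <;> rcases hl : A i l with _ | w
  · simp only [fo]
    linarith
  · have := one (perm_kl (perm_jl hn)) hl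
    simp only [fo]
    linarith
  · have := one (perm_jk hn) hk
    simp only [fo]
    linarith
  · have := two (perm_jl (perm_jl hn)) hk hl
    simp only [fo]
    linarith
  · have := one hn hj
    simp only [fo]
    linarith
  · have := two (perm_kl hn) hj hl
    simp only [fo]
    linarith
  · have := two hn hj hk
    simp only [fo]
    linarith
  · obtain ⟨w0, w1, w2, w3⟩ := own1 n.1 hj
    obtain ⟨v0, v1, v2, v3⟩ := own1 n.2.1 hk
    obtain ⟨x0, x1, x2, x3⟩ := own1 n.2.2 hl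
    have e1 := hφ.add _ _ w0 v0 (by linarith)
    have e2 := hφ.add _ _ (by linarith) x0 (by linarith : (2 + u j) + (2 + v k) + (2 + w l) ≤ 1)
    have e3 := hφ.mono _ _ (by linarith)
      (by linarith : (2 + u j) + (2 + v k) + (2 + w l) ≤ M i - 1) d1
    simp only [fo]
    linarith

/-- a main cell with `d ≥ 3/5` -/
theorem main_big_le (h : OF A) {i : Fin 4} {M : Fin 4 → ℝ} (hM : A i i = some M)
    (hd : 3 / 5 ≤ M i - 1) : VV A i ≤ 2 / 3 :=
  main_big h hM hd adm_bb fun m F hm hF => far_bb' (h.cell i m F hF) hm (h.far i m F hm hF)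

/-- a main cell with `d ≥ 3/5` and no owner -/
theorem main_big_no (h : OF A) {i : Fin 4} {M : Fin 4 → ℝ} (hM : A i i = some M)
    (hd : 3 / 5 ≤ M i - 1) (ho : ∀ m F, m ≠ i → A i m = some F → ¬ Ow i m F) :
    VV A i ≤ 263 / 400 :=
  main_big h hM hd adm_PP fun m F hm hF =>
    far_p (h.cell i m F hF) hm (h.far i m F hm hF) (ho m F hm hF)

end

end Pool.Agent.Helper44.TS
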