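import Pool.Agent.Helper44.TS.Mixed
import Pool.Agent.Helper90.TS.NEU

/-!
# `MixedII` in canonical coordinates

Indices: `0` = the class `a` of kind `R2`, `1` = the tall class `b` with the main cell `(1; 1)` and the
far cell `(1; 0)`, `2`, `3` = the rows. The class `1` has the entries `u 1 m` of its main cell like a row.
-/

set_option autoImplicit false

namespace Pool.Agent.Helper44.TS

open Pool.Agent.Helper84.TS Pool.Agent.Helper23.TS Pool.Agent.Helper36.TS Pool.Agent.Helper90.TS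
  Pool.Agent.Helper74.TS Pool.Agent.Helper59.TS

/-- **The relations of a mixed configuration.** -/
structure OkF (c : Cf) : Prop where
  -- the rows
  d0 : ∀ r, (r = 2 ∨ r = 3) → 0 ≤ c.d r
  ds : c.d 2 + c.d 3 ≤ 59 / 250
  lo : ∀ r m, (r = 2 ∨ r = 3) → m ≠ r → -(1 - c.d r) ≤ c.u r m
  hi : ∀ r m, (r = 2 ∨ r = 3) → m ≠ r → c.u r m ≤ 1
  us : ∀ r j k l, (r = 2 ∨ r = 3) → [r, j, k, l].Nodup → c.u r j + c.u r k + c.u r l = 1 + c.d r
  gr : ∀ r j k l, (r = 2 ∨ r = 3) → [r, j, k, l].Nodup →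
    Pool.Agent.Helper65.TS.GR (c.VR r) (c.d r) (c.u r j) (c.u r k) (c.u r l)
  -- the far cells of the class `0`
  fd : ∀ m r z, [0, m, r, z].Nodup → c.pr 0 m →
    Fd (c.f 0 m) (c.w 0 m) (c.X 0 m r) (c.X 0 m z) (c.D 0 m)
  ab : ∀ i m r, (i = 0 ∨ i = 1) → ¬ c.pr i m →
    c.f i m = 0 ∧ c.w i m = 0 ∧ c.D i m = 0 ∧ c.X i m r = 0
  -- the high main cell of the class `0`
  mn : c.mp 0 → 3 / 5 ≤ c.md 0 ∧ c.md 0 < 1
  mab : ¬ c.mp 0 → c.mf 0 = 0
  mlo : ∀ m, m ≠ 0 → c.mp 0 → -(1 - c.md 0) ≤ c.mu 0 m ∧ c.mu 0 m ≤ 1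
  mus : ∀ j k l, [0, j, k, l].Nodup → c.mp 0 →
    c.mu 0 j + c.mu 0 k + c.mu 0 l = 1 + c.md 0 ∧
      c.mf 0 = ff (c.md 0) (c.mu 0 j) (c.mu 0 k) (c.mu 0 l)
  msat : ∀ m, m ≠ 0 → c.mp 0 → c.pr 0 m → c.w 0 m ≤ max (c.md 0 - c.D 0 m) 0 - c.mu 0 m
  -- a cell and a row
  kd : ∀ i m r z, (i = 0 ∨ i = 1) → (r = 2 ∨ r = 3) → [i, m, r, z].Nodup →
    c.u r m - c.d r ≤ 1 - c.X i m r ∨ c.KB i m r z
  f1 : ∀ i m r z, (i = 0 ∨ i = 1) → (r = 2 ∨ r = 3) → (z = 2 ∨ z = 3) → [i, m, r, z].Nodup →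
    c.KB i m r z → ¬ c.KB i m z r
  f2 : ∀ m r z, (r = 2 ∨ r = 3) → [0, m, r, z].Nodup → c.KB 0 m r z → ¬ c.KB 0 z r m
  -- two cells of the class `0`
  sp : ∀ m n r, [0, m, n, r].Nodup → c.pr 0 m → c.pr 0 n →
    c.X 0 m r ≤ 1 - c.w 0 n ∨ c.X 0 n r ≤ 1 - c.w 0 m
  -- the tall class
  tp : c.pr 1 0
  t2 : ¬ c.pr 1 2
  t3 : ¬ c.pr 1 3
  tf : Fd (c.f 1 0) (c.w 1 0) (c.X 1 0 2) (c.X 1 0 3) (c.D 1 0)
  td : 0 ≤ c.d 1 ∧ c.d 1 < 3 / 5
  tu : c.u 1 0 + c.u 1 2 + c.u 1 3 = 1 + c.d 1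
  tx : c.u 1 2 ≤ 1 ∧ c.u 1 3 ≤ 1
  tw : 13 / 20 < c.w 1 0 ∧ c.w 1 0 ≤ c.d 1 - c.u 1 0 ∧ c.d 1 - c.u 1 0 ≤ 1
  tz : c.u 1 0 ≤ 0
  tm : c.mf 1 = Pool.Agent.Helper65.TS.mp (c.d 1) (c.u 1 0) (c.u 1 2) (c.u 1 3) +
    (-c.u 1 0) ^ 3 / 3
  /-- the caps of the cells `(0; 2)`, `(0; 3)` on the tall class -/
  tr : c.u 1 2 - c.d 1 ≤ 1 - c.X 0 2 1 ∧ c.u 1 3 - c.d 1 ≤ 1 - c.X 0 3 1
  /-- the cell `(0; 1)` beside a high main cell of the class `0` -/
  r5 : c.mp 0 → c.pr 0 1 → c.w 0 1 ≤ 7 / 20 + c.d 1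

variable {A : Fin 4 → Fin 4 → Option (Fin 4 → ℝ)} {P : Fin 4 → Fin 4 → ℝ}

/-- the far cell `(a; b)` beside a main cell `N` of `a`, when the tall class `b` points at `a` -/
theorem tall_G (h : OF A) {b a x y : Fin 4} {M F N G : Fin 4 → ℝ} (hc : TC A b a M F)
    (hn : [b, a, x, y].Nodup) (hN : A a a = some N) (hd : 0 ≤ N a - 1) (hG : A a b = some G) :
    2 + G b ≤ 7 / 20 + (M b - 1) := by
  have ht := hc.nums h hn
  have bg := TN.big h hc hn
  have cN := h.cell a a N hN
  have aN := cell_lin cN (swap_nodup hn)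
  have hs := (sep_min (h.cell b b M hc.hM) cN hn).1
    (h.sep b b a a M N hc.hM hN (by simp [hc.ne.symm]))
  have hx : -N x ≤ 1 := h.main a N hN x (by
    clear * - hn
    revert hn
    revert b a x y
    decide)
  have hy : -N y ≤ 1 := h.main a N hN y (by
    clear * - hn
    revert hn
    revert b a x y
    decide)
  have hw := supp_main h hc.ne.symm hN hG
  have dG := (cell_lin (h.cell a b G hG) (swap_nodup hn)).2.1
  have hm : max ((N a - 1) - (G a - 1)) 0 ≤ N a - 1 := max_le (by linarith) hd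
  have b1 := bg.1
  have b2 := bg.2
  have m0 := ht.m0
  have xy := ht.xy
  have d0 := ht.d0
  rcases min_cases (-M x) (-N x) with ⟨e1, f1⟩ | ⟨e1, f1⟩ <;>
    rcases min_cases (-M y) (-N y) with ⟨e2, f2⟩ | ⟨e2, f2⟩ <;> rw [e1, e2] at hs <;>
    linarith

/-- **A mixed configuration satisfies the relations.** -/
theorem okF_of {a b x y : Fin 4} {F : Fin 4 → ℝ} (h : MX A P a b x y) (hF : TC A b a (P b) F) :
    OkF (cfOf A P a b x y) := by
  have hs := h.hn
  have hR : ∀ r, (r = 2 ∨ r = 3) →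
      A (sg a b x y r) (sg a b x y r) = some (P (sg a b x y r)) ∧
      0 ≤ P (sg a b x y r) (sg a b x y r) - 1 ∧
      P (sg a b x y r) (sg a b x y r) - 1 ≤ 59 / 250 ∧
      ∀ m H, m ≠ sg a b x y r → A (sg a b x y r) m = some H → 2 + H m ≤ 13 / 20 := by
    rintro r (rfl | rfl)
    · exact ⟨h.hc, h.dc, by
        show P x x - 1 ≤ 59 / 250
        linarith [h.ds, h.dl], h.wc⟩
    · exact ⟨h.hl, h.dl, by
        show P y y - 1 ≤ 59 / 250
        linarith [h.ds, h.dc], h.wl⟩
  have hinj := sg_inj hs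
  have hba : [b, a, x, y].Nodup := by
    clear * - hs; revert hs; revert a b x y; decide
  have tn := hF.nums h.of hba
  have no : ∀ m, m = x ∨ m = y → A b m = none := by
    intro m hm
    rcases hG : A b m with _ | G
    · rfl
    · exfalso
      have hmb : m ≠ b := by
        have n := nodup_ne hba
        rcases hm with rfl | rfl
        · exact n.2.1
        · exact n.2.2
      have e := hF.only h.of hmb hG
      subst e
      clear * - hs hm
      revert hs hm
      revert m b x y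
      decide
  have hmain : (cfOf A P a b x y).mp 0 →
      ∃ M, A a a = some M ∧ 3 / 5 ≤ M a - 1 ∧
        (cfOf A P a b x y).md 0 = M a - 1 ∧
        (∀ m, (cfOf A P a b x y).mu 0 m = -M (sg a b x y m)) ∧
        (cfOf A P a b x y).mf 0 = fcl a M := by
    rintro ⟨M, hM⟩
    have hM' : A a a = some M := hM
    refine ⟨M, hM', ?_, ?_, fun m => ?_, ?_⟩
    · rcases h.ha with h0 | ⟨M', hM'', hd⟩
      · rw [hM'] at h0
        exact absurd h0 (by simp)
      · rw [hM', Option.some.injEq] at hM''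
        rw [hM'']
        exact hd
    · simp only [cfOf, hM, Option.elim]
      rfl
    · simp only [cfOf, hM, Option.elim]
    · simp only [cfOf, hM, fo]
      rfl
  constructor
  · intro r hr
    exact (hR r hr).2.1
  · exact h.ds
  · intro r m hr hm
    exact (row_entry h.of (hR r hr).1 fun e => hm (hinj e)).1
  · intro r m hr hm
    exact (row_entry h.of (hR r hr).1 fun e => hm (hinj e)).2.1
  · intro r j' k l hr hn
    exact row_sum h.of (sg_nodup hs hn) (hR r hr).1
  · intro r j' k l hr hn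
    exact Pool.Agent.Helper65.TS.gr_of h.of (hR r hr).1 (by linarith [(hR r hr).2.2.1])
      (sg_nodup hs hn) (hR r hr).2.2.2
  · rintro m r z hn ⟨G, hG⟩
    have := fdd h.of (sg_nodup hs hn) hG
    rw [cfOf_f hG, cfOf_w hG, cfOf_X hG hn, cfOf_X hG (perm_last hn), cfOf_D hG]
    exact this
  · intro k m r hk hp
    have h0 : A (sg a b x y k) (sg a b x y m) = none := by
      rcases hG : A (sg a b x y k) (sg a b x y m) with _ | G
      · rfl
      · exact absurd ⟨G, hG⟩ hp
    simp only [cfOf, h0, Option.elim, fo, and_self]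
  · intro hp
    obtain ⟨M, hM, h1, h2, h3, h4⟩ := hmain hp
    obtain ⟨p, q, s, hn⟩ := exists_rest3 a
    have := cell_lin (h.of.cell _ _ M hM) hn
    rw [h2]
    exact ⟨h1, by linarith⟩
  · intro hp
    have h0 : A (sg a b x y 0) (sg a b x y 0) = none := by
      rcases hG : A (sg a b x y 0) (sg a b x y 0) with _ | G
      · rfl
      · exact absurd ⟨G, hG⟩ hp
    simp only [cfOf, h0, fo]
  · intro m hm hp
    obtain ⟨M, hM, h1, h2, h3, h4⟩ := hmain hp
    have hm' : sg a b x y m ≠ a := fun e => hm (hinj (a₂ := 0) e)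
    obtain ⟨p, q, hn⟩ := exists_rest2 (Ne.symm hm')
    obtain ⟨c1, c2, c3, c4, -⟩ := cell_lin (h.of.cell _ _ M hM) hn
    rw [h2, h3]
    exact ⟨by linarith, h.of.main _ M hM _ hm'⟩
  · intro j' k' l hn hp
    obtain ⟨M, hM, h1, h2, h3, h4⟩ := hmain hp
    have hn' : [a, sg a b x y j', sg a b x y k', sg a b x y l].Nodup := sg_nodup hs hn
    have c1 := (cell_lin (h.of.cell _ _ M hM) hn').1
    rw [h2, h3, h3, h3, h4]
    exact ⟨by linarith, fcl_eq hn' M⟩
  · rintro m hm hp ⟨G, hG⟩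
    obtain ⟨M, hM, h1, h2, h3, h4⟩ := hmain hp
    have hm' : sg a b x y m ≠ a := fun e => hm (hinj (a₂ := 0) e)
    have hG' : A a (sg a b x y m) = some G := hG
    have := supp_main h.of hm' hM hG'
    rw [h2, h3, cfOf_w hG, cfOf_D hG]
    show 2 + G (sg a b x y m) ≤ max (M a - 1 - (G a - 1)) 0 - -M (sg a b x y m)
    linarith
  · intro k m r z hk hr hn
    have hn' := sg_nodup hs hn
    rcases hG : A (sg a b x y k) (sg a b x y m) with _ | G
    · left
      have e : (cfOf A P a b x y).X k m r = 0 := by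
        simp only [cfOf, hG, Option.elim]
      have hmr : sg a b x y m ≠ sg a b x y r := by
        intro e
        have := hinj e
        revert this hn
        clear * -
        revert k m r z
        decide
      obtain ⟨-, e2, e3, -⟩ := row_entry h.of (hR r hr).1 hmr
      rw [e]
      simp only [cfOf]
      linarith
    · rcases kd_or h.of hn' hG (hR r hr).1 with k1 | k1
      · left
        rw [cfOf_X hG hn]
        exact k1
      · right
        exact kb_of h.of hn k1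
  · intro k m r z hk hr hz hn h1 h2
    obtain ⟨F', hF'⟩ := cfOf_kb hn hs (hR r hr).1 h1
    obtain ⟨G, hG⟩ := cfOf_kb (perm_last hn) hs (hR z hz).1 h2
    have e : F' = G := by
      have := hF'.hF
      rw [hG.hF, Option.some.injEq] at this
      exact this.symm
    subst e
    exact viol_not_both h.of hF' hG
  · intro m r z hr hn h1 h2
    have hn2 : [0, z, r, m].Nodup := by
      revert hn
      clear * -
      revert m r z
      decide
    obtain ⟨F', hF'⟩ := cfOf_kb hn hs (hR r hr).1 h1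
    obtain ⟨G, hG⟩ := cfOf_kb hn2 hs (hR r hr).1 h2
    exact viol_not_two h.of hF' hG
  · rintro m n r hn ⟨F', hF'⟩ ⟨G, hG⟩
    have hn2 : [0, m, r, n].Nodup := perm_last hn
    have hn3 : [0, n, r, m].Nodup := by
      revert hn
      clear * -
      revert m n r
      decide
    rw [cfOf_X hF' hn2, cfOf_X hG hn3, cfOf_w hF', cfOf_w hG]
    exact supp h.of (sg_nodup hs hn) hF' hG
  · exact ⟨F, hF.hF⟩
  · rintro ⟨G, hG⟩
    have := no x (Or.inl rfl)
    have hG' : A b x = some G := hG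
    rw [this] at hG'
    exact absurd hG' (by simp)
  · rintro ⟨G, hG⟩
    have := no y (Or.inr rfl)
    have hG' : A b y = some G := hG
    rw [this] at hG'
    exact absurd hG' (by simp)
  · have hFF : A (sg a b x y 1) (sg a b x y 0) = some F := hF.hF
    have hn : [1, 0, 2, (3 : Fin 4)].Nodup := by decide
    have := fdd h.of (sg_nodup hs hn) hFF
    rw [cfOf_f hFF, cfOf_w hFF, cfOf_X hFF hn, cfOf_X hFF (perm_last hn), cfOf_D hFF]
    exact this
  · exact ⟨h.db, h.db1⟩
  · have := row_sum (P := P) h.of hba h.hb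
    exact this
  · show -P b x ≤ 1 ∧ -P b y ≤ 1
    exact ⟨tn.x1, tn.y1⟩
  · have hFF : A (sg a b x y 1) (sg a b x y 0) = some F := hF.hF
    rw [cfOf_w hFF]
    show 13 / 20 < 2 + F a ∧ 2 + F a ≤ (P b b - 1) - -P b a ∧ (P b b - 1) - -P b a ≤ 1
    exact ⟨hF.hw, by linarith [tn.wt], by linarith [tn.t1]⟩
  · show -P b a ≤ 0
    linarith [tn.m0]
  · show fo b (A b b) = Pool.Agent.Helper65.TS.mp (P b b - 1) (-P b a) (-P b x) (-P b y) +
      (- -P b a) ^ 3 / 3
    rw [h.hb]
    have bg := TN.big h.of hF hba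
    have m0 := tn.m0
    simp only [fo]
    rw [main_f hba (h.of.main b (P b) h.hb), max_eq_left m0,
      max_eq_right (by linarith : P b x ≤ 0), max_eq_right (by linarith : P b y ≤ 0)]
    unfold Pool.Agent.Helper65.TS.mp
    ring
  · constructor
    · show -P b x - (P b b - 1) ≤ 1 - (cfOf A P a b x y).X 0 2 1
      rcases hG : A a x with _ | G
      · have e : (cfOf A P a b x y).X 0 2 1 = 0 := by
          have hG' : A (sg a b x y 0) (sg a b x y 2) = none := hG
          simp only [cfOf, hG', Option.elim]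
        rw [e]
        linarith [tn.x1, tn.d0]
      · have hG' : A (sg a b x y 0) (sg a b x y 2) = some G := hG
        rw [cfOf_X hG' (z := 3) (by decide)]
        have := tall_A h.of hF hba hG
        show -P b x - (P b b - 1) ≤ 1 - Helper90.TS.cmp a y G
        unfold Helper90.TS.cmp
        linarith
    · show -P b y - (P b b - 1) ≤ 1 - (cfOf A P a b x y).X 0 3 1
      have hba' : [b, a, y, x].Nodup := perm_last hba
      rcases hG : A a y with _ | G
      · have e : (cfOf A P a b x y).X 0 3 1 = 0 := by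
          have hG' : A (sg a b x y 0) (sg a b x y 3) = none := hG
          simp only [cfOf, hG', Option.elim]
        rw [e]
        linarith [tn.y1, tn.d0]
      · have hG' : A (sg a b x y 0) (sg a b x y 3) = some G := hG
        rw [cfOf_X hG' (z := 2) (by decide)]
        have := tall_A h.of hF hba' hG
        show -P b y - (P b b - 1) ≤ 1 - Helper90.TS.cmp a x G
        unfold Helper90.TS.cmp
        linarith
  · rintro hp ⟨G, hG⟩
    obtain ⟨M, hM, h1, h2, h3, h4⟩ := hmain hp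
    rw [cfOf_w hG]
    show 2 + G b ≤ 7 / 20 + (P b b - 1)
    exact tall_G h.of hF hba hM (by linarith) hG

end Pool.Agent.Helper44.TS
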