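import Pool.Agent.Helper44.TS.Fourth2
import Pool.Agent.Helper44.TS.GoodHi
import Pool.Agent.Helper90.TS.N2Frame

/-!
# `CaseTwoMixed` from its two cases

`a` is a class of kind `R2`, `b` is tall (kind `R3`) with the far cell `F`, the classes `c`, `l` are good.
Case (I): `F` is in the column of a good class. Case (II): `F` is in the column `a`.
-/

set_option autoImplicit false

namespace Pool.Agent.Helper44.TS

open Pool.Agent.Helper84.TS Pool.Agent.Helper36.TS

variable {A : Fin 4 → Fin 4 → Option (Fin 4 → ℝ)}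

/-- the common data of the two cases -/
structure MX (A : Fin 4 → Fin 4 → Option (Fin 4 → ℝ)) (P : Fin 4 → Fin 4 → ℝ) (a b c l : Fin 4) :
    Prop where
  of : OF A
  hn : [a, b, c, l].Nodup
  ha : Helper84.TS.R2 A a
  hb : A b b = some (P b)
  hc : A c c = some (P c)
  hl : A l l = some (P l)
  gc : Good A c
  gl : Good A l
  db : 0 ≤ P b b - 1
  db1 : P b b - 1 < 3 / 5
  dc : 0 ≤ P c c - 1
  dl : 0 ≤ P l l - 1
  ds : (P c c - 1) + (P l l - 1) ≤ 59 / 250
  wc : ∀ m H, m ≠ c → A c m = some H → 2 + H m ≤ 13 / 20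
  wl : ∀ m H, m ≠ l → A l m = some H → 2 + H m ≤ 13 / 20

theorem MX.flip {A : Fin 4 → Fin 4 → Option (Fin 4 → ℝ)} {P : Fin 4 → Fin 4 → ℝ} {a b c l : Fin 4}
    (h : MX A P a b c l) : MX A P a b l c :=
  ⟨h.of, by have := h.hn; clear * - this; revert this; revert a b c l; decide, h.ha, h.hb, h.hl,
    h.hc, h.gl, h.gc, h.db, h.db1, h.dl, h.dc, by linarith [h.ds], h.wl, h.wc⟩

/-- case (I): the far cell of the tall class `b` is in the column of the good class `c` -/
def MixedI : Prop := ∀ (A : Fin 4 → Fin 4 → Option (Fin 4 → ℝ)) (P : Fin 4 → Fin 4 → ℝ)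
  (a b c l : Fin 4), MX A P a b c l → ∀ F : Fin 4 → ℝ, TC A b c (P b) F → ∑ i, VV A i ≤ 613 / 200

/-- case (II): the far cell of the tall class `b` is in the column of the class `a` -/
def MixedII : Prop := ∀ (A : Fin 4 → Fin 4 → Option (Fin 4 → ℝ)) (P : Fin 4 → Fin 4 → ℝ)
  (a b c l : Fin 4), MX A P a b c l → ∀ F : Fin 4 → ℝ, TC A b a (P b) F → ∑ i, VV A i ≤ 613 / 200

/-- two good classes with `d_c + d_l > 59/250` -/
theorem two_good_high (h : OF A) {c l : Fin 4} (gc : Good A c) (gl : Good A l) {M N : Fin 4 → ℝ}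
    (hM : A c c = some M) (hN : A l l = some N) (dc : 0 ≤ M c - 1) (dl : 0 ≤ N l - 1)
    (hc : M c - 1 ≤ 3 / 5) (hl : N l - 1 ≤ 3 / 5) (hs : 59 / 250 < (M c - 1) + (N l - 1)) : VV A c + VV A l ≤ 411 / 250 := by
  have vc1 := Helper90.TS.good_le_one h gc
  have vl1 := Helper90.TS.good_le_one h gl
  have c1 := Helper74.TS.good_or h gc hM
  have l1 := Helper74.TS.good_or h gl hN
  have c2 := good_hi h gc hM
  have l2 := good_hi h gl hN
  generalize VV A c = p at *
  generalize VV A l = q at *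
  generalize M c - 1 = x at *
  generalize N l - 1 = y at *
  have key : p ≤ (1 - x) * (1 - 2 / 3 * x) → q ≤ (1 - y) * (1 - 2 / 3 * y) →
      p + q ≤ 411 / 250 := by
    intro h1 h2
    nlinarith [mul_nonneg dc dl, mul_nonneg (by linarith : 0 ≤ x + y - 59 / 250)
      (by linarith : 0 ≤ 6 / 5 - (x + y))]
  rcases c1 with c1 | c1 <;> rcases l1 with l1 | l1
  · exact key c1 l1
  · by_cases hx : x ≤ 1 / 125
    · rcases l2 (by linarith) with l2 | l2
      · exact key c1 l2
      · linarith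
    · push Not at hx
      nlinarith [mul_nonneg (by linarith : 0 ≤ x - 1 / 125) (by linarith : 0 ≤ 3 / 5 - x)]
  · by_cases hx : y ≤ 1 / 125
    · rcases c2 (by linarith) with c2 | c2
      · exact key c2 l1
      · linarith
    · push Not at hx
      nlinarith [mul_nonneg (by linarith : 0 ≤ y - 1 / 125) (by linarith : 0 ≤ 3 / 5 - y)]
  · linarith

/-- **`CaseTwoMixed` from the cases (I) and (II).** -/
theorem caseTwoMixed_of (h1 : MixedI) (h2 : MixedII) : CaseTwoMixed := by
  intro A h a b c l hn ha hb gc gl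
  obtain ⟨B, hB, dB, m, F, hmb, hF, hw⟩ := hb
  obtain ⟨M, hM, hd, hwc⟩ := id gc
  obtain ⟨N, hN, hd', hwl⟩ := id gl
  have n1 : b ≠ c ∧ b ≠ l ∧ c ≠ l := by
    clear * - hn; revert hn; revert a b c l; decide
  obtain ⟨hbc, hbl, hcl⟩ := n1
  have d0 : ∀ (i : Fin 4) (M : Fin 4 → ℝ), A i i = some M → 0 ≤ M i - 1 := by
    intro i M hM
    obtain ⟨j, k, l, hn⟩ := exists_rest3 i
    have := cell_lin (h.cell i i M hM) hn
    linarith [this.2.1, this.2.2.1]
  have db := d0 b B hB
  have dc := d0 c M hM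
  have dl := d0 l N hN
  have tc : TC A b m B F := ⟨hB, dB, hmb, hF, hw⟩
  by_cases hs : (M c - 1) + (N l - 1) ≤ 59 / 250
  · obtain ⟨P, hP⟩ : ∃ P : Fin 4 → Fin 4 → ℝ, P = fun i => if i = b then B else if i = c then M
        else N := ⟨_, rfl⟩
    have pb : P b = B := by rw [hP]; simp
    have pc : P c = M := by rw [hP]; simp [hbc.symm]
    have pl : P l = N := by rw [hP]; simp [hbl.symm, hcl.symm]
    have mx : MX A P a b c l := by
      refine ⟨h, hn, ha, ?_, ?_, ?_, gc, gl, ?_, ?_, ?_, ?_, ?_, hwc, hwl⟩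
      · rw [pb]; exact hB
      · rw [pc]; exact hM
      · rw [pl]; exact hN
      · rw [pb]; exact db
      · rw [pb]; exact dB
      · rw [pc]; exact dc
      · rw [pl]; exact dl
      · rw [pc, pl]; exact hs
    have hm : m = a ∨ m = c ∨ m = l := by
      clear * - hn hmb; revert hn hmb; revert a b c l m; decide
    rcases hm with rfl | rfl | rfl
    · exact h2 A P m b c l mx F (by rw [pb]; exact tc)
    · exact h1 A P a b m l mx F (by rw [pb]; exact tc)
    · exact h1 A P a b m c mx.flip F (by rw [pb]; exact tc)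
  · have va := R2_le h ha
    have vb := tc.le h
    have vv := two_good_high h gc gl hM hN dc dl hd.le hd'.le (not_le.1 hs)
    rw [Helper36.TS.sum4 hn (fun i => VV A i)]
    linarith

end Pool.Agent.Helper44.TS
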