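import Pool.Agent.Helper84.TS.Slot

/-!
# The volume of one cell supported by others
-/

set_option autoImplicit false

namespace Pool.Agent.Helper44.TS

open Pool.Agent.Helper84.TS Pool.Agent.Helper36.TS

/-- the bound for a far cell with the parameter `w` -/
noncomputable def bb (w : ℝ) : ℝ := w / 4 + w ^ 2 / 2 - w ^ 3 / 12

/-- the volume of a far cell -/
noncomputable def fAB (w A B : ℝ) : ℝ :=
  w * A * B - w ^ 3 / 3 + ((max (w - B) 0) ^ 3 + (max (w - A) 0) ^ 3) / 3

theorem fAB_symm (w A B : ℝ) : fAB w A B = fAB w B A := by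
  unfold fAB
  ring

structure Dom (w A B : ℝ) : Prop where
  w0 : 0 < w
  w1 : w ≤ 1
  A0 : 0 < A
  B0 : 0 < B
  lo : w < A + B
  hi : A + B ≤ 1 + w

theorem Dom.symm {w A B : ℝ} (h : Dom w A B) : Dom w B A :=
  ⟨h.w0, h.w1, h.B0, h.A0, by linarith [h.lo], by linarith [h.hi]⟩

theorem far_AB {i j k l : Fin 4} {v : Fin 4 → ℝ} (hv : IsCell i v) (h : [i, j, k, l].Nodup)
    (hf : 1 ≤ -v j) :
    fcl i v = fAB (2 + v j) (1 - (v k + (v i - 1))) (1 - (v l + (v i - 1))) := by
  have a := (cell_lin hv h).1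
  rw [far_formula hv h hf, fAB, show (2 : ℝ) + v j - (1 - (v l + (v i - 1))) = -v k by linarith,
    show (2 : ℝ) + v j - (1 - (v k + (v i - 1))) = -v l by linarith]
  ring

theorem far_dom {i j k l : Fin 4} {v : Fin 4 → ℝ} (hv : IsCell i v) (h : [i, j, k, l].Nodup)
    (hf : 1 ≤ -v j) : Dom (2 + v j) (1 - (v k + (v i - 1))) (1 - (v l + (v i - 1))) := by
  obtain ⟨b1, b2, b3, b4, b5, b6, b7, b8, b9⟩ := far_bounds hv h hf
  exact ⟨b1, b2, by linarith, by linarith, by linarith, by linarith⟩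

theorem fAB_cases {w A B : ℝ} (_h : Dom w A B) :
    (w ≤ A ∧ w ≤ B ∧ fAB w A B = w * A * B - w ^ 3 / 3) ∨
    (B ≤ w ∧ w ≤ A ∧ fAB w A B = w * B * (A + B - w) - B ^ 3 / 3) ∨
    (A ≤ w ∧ w ≤ B ∧ fAB w A B = w * A * (A + B - w) - A ^ 3 / 3) ∨
    (A ≤ w ∧ B ≤ w ∧ fAB w A B = (A + B - w) * A * B - (A + B - w) ^ 3 / 3) := by
  unfold fAB
  rcases le_total (w - B) 0 with h1 | h1 <;> rcases le_total (w - A) 0 with h2 | h2
  · left
    refine ⟨by linarith, by linarith, ?_⟩
    rw [max_eq_right h1, max_eq_right h2]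
    ring
  · right; right; left
    refine ⟨by linarith, by linarith, ?_⟩
    rw [max_eq_right h1, max_eq_left h2]
    ring
  · right; left
    refine ⟨by linarith, by linarith, ?_⟩
    rw [max_eq_left h1, max_eq_right h2]
    ring
  · right; right; right
    refine ⟨by linarith, by linarith, ?_⟩
    rw [max_eq_left h1, max_eq_left h2]
    ring

theorem G_mono {a b : ℝ} (h0 : 0 ≤ a) (hab : a ≤ b) (hb : b ≤ 1) :
    a - a ^ 3 / 3 ≤ b - b ^ 3 / 3 := by
  have : 0 ≤ (b - a) * (1 - (a ^ 2 + a * b + b ^ 2) / 3) := by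
    refine mul_nonneg (by linarith) ?_
    nlinarith
  nlinarith

theorem Gw_mono {w a b : ℝ} (h0 : 0 ≤ a) (hab : a ≤ b) (hb : b ≤ w) (hw : w ≤ 1) :
    w * a - a ^ 3 / 3 ≤ w * b - b ^ 3 / 3 := by
  have : 0 ≤ (b - a) * (w - (a ^ 2 + a * b + b ^ 2) / 3) := by
    refine mul_nonneg (by linarith) ?_
    nlinarith
  nlinarith

/-- the volume is at most `w A B` -/
theorem fAB_le {w A B : ℝ} (h : Dom w A B) : fAB w A B ≤ w * A * B := by
  obtain ⟨h1, h2, h3, h4, h5, h6⟩ := h
  rcases fAB_cases ⟨h1, h2, h3, h4, h5, h6⟩ with ⟨a, b, e⟩ | ⟨a, b, e⟩ | ⟨a, b, e⟩ | ⟨a, b, e⟩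
  · rw [e]
    have : 0 ≤ w ^ 3 := by positivity
    linarith
  · rw [e]
    have e1 : 0 ≤ w * B * (w - B) := by
      refine mul_nonneg (by positivity) (by linarith)
    have : 0 ≤ B ^ 3 := by positivity
    nlinarith
  · rw [e]
    have e1 : 0 ≤ w * A * (w - A) := by
      refine mul_nonneg (by positivity) (by linarith)
    have : 0 ≤ A ^ 3 := by positivity
    nlinarith
  · rw [e]
    have hD : 0 ≤ A + B - w := by linarith
    have e1 : 0 ≤ A * B * (w - (A + B - w)) := by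
      refine mul_nonneg (by positivity) (by linarith)
    have : 0 ≤ (A + B - w) ^ 3 := by positivity
    nlinarith

/-- supported cells, first bound -/
theorem fAB_G {w A B X : ℝ} (h : Dom w A B) (hX : B ≤ X) (hX1 : X ≤ 1) :
    fAB w A B ≤ X - X ^ 3 / 3 := by
  obtain ⟨h1, h2, h3, h4, h5, h6⟩ := h
  refine le_trans ?_ (G_mono h4.le hX hX1)
  have hB1 : B ≤ 1 := hX.trans hX1
  rcases fAB_cases ⟨h1, h2, h3, h4, h5, h6⟩ with ⟨a, b, e⟩ | ⟨a, b, e⟩ | ⟨a, b, e⟩ | ⟨a, b, e⟩
  · rw [e]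
    refine le_trans ?_ (G_mono h1.le b hB1)
    have hA1 : A ≤ 1 := by linarith
    have : w * A * B ≤ w := by
      have := mul_le_one₀ hA1 h4.le hB1
      nlinarith
    linarith
  · rw [e]
    have : w * B * (A + B - w) ≤ B := by
      have h7 : w * (A + B - w) ≤ 1 := mul_le_one₀ h2 (by linarith) (by linarith)
      nlinarith
    linarith
  · rw [e]
    refine le_trans ?_ (G_mono h3.le (a.trans b) hB1)
    have : w * A * (A + B - w) ≤ A := by
      have h7 : w * (A + B - w) ≤ 1 := mul_le_one₀ h2 (by linarith) (by linarith)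
      nlinarith
    linarith
  · rw [e]
    have hD : 0 ≤ A + B - w := by linarith
    refine le_trans ?_ (G_mono hD (by linarith : A + B - w ≤ B) hB1)
    have : (A + B - w) * A * B ≤ A + B - w := by
      have h7 : A * B ≤ 1 := mul_le_one₀ (by linarith) h4.le (by linarith)
      nlinarith
    linarith

/-- supported cells, with the own parameter -/
theorem fAB_w {w A B X : ℝ} (h : Dom w A B) (hX : B ≤ X) (hX1 : X ≤ w) :
    fAB w A B ≤ w * X - X ^ 3 / 3 := by
  obtain ⟨h1, h2, h3, h4, h5, h6⟩ := h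
  refine le_trans ?_ (Gw_mono h4.le hX hX1 h2)
  have hB1 : B ≤ w := hX.trans hX1
  rcases fAB_cases ⟨h1, h2, h3, h4, h5, h6⟩ with ⟨a, b, e⟩ | ⟨a, b, e⟩ | ⟨a, b, e⟩ | ⟨a, b, e⟩
  · rw [e]
    have hb : B = w := le_antisymm hB1 b
    subst hb
    have : B * A * B ≤ B * B := by nlinarith [mul_pos h4 h4]
    linarith
  · rw [e]
    have : w * B * (A + B - w) ≤ w * B := mul_le_of_le_one_right (by positivity) (by linarith)
    linarith
  · rw [e]
    have hb : B = w := le_antisymm hB1 b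
    subst hb
    refine le_trans ?_ (Gw_mono h3.le a le_rfl h2)
    have : B * A * (A + B - B) ≤ B * A := mul_le_of_le_one_right (by positivity) (by linarith)
    linarith
  · rw [e]
    have hD : 0 ≤ A + B - w := by linarith
    refine le_trans ?_ (Gw_mono hD (by linarith : A + B - w ≤ B) hB1 h2)
    have : (A + B - w) * A * B ≤ w * (A + B - w) := by
      have h7 : A * B ≤ w := by nlinarith
      nlinarith
    linarith

/-- supported cells, the middle range -/
theorem fAB_m {w A B X : ℝ} (h : Dom w A B) (hX : B ≤ X) (hX1 : w ≤ X) (hX2 : 2 * X ≤ 1 + w) :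
    fAB w A B ≤ w * X * (1 + w - X) - w ^ 3 / 3 := by
  obtain ⟨h1, h2, h3, h4, h5, h6⟩ := h
  have key : w * w - w ^ 3 / 3 ≤ w * X * (1 + w - X) - w ^ 3 / 3 := by
    have : 0 ≤ w * ((X - w) * (1 - X)) :=
      mul_nonneg h1.le (mul_nonneg (by linarith) (by linarith))
    nlinarith
  rcases fAB_cases ⟨h1, h2, h3, h4, h5, h6⟩ with ⟨a, b, e⟩ | ⟨a, b, e⟩ | ⟨a, b, e⟩ | ⟨a, b, e⟩
  · rw [e]
    have e1 : w * A * B ≤ w * B * (1 + w - B) := by
      have : 0 ≤ w * B * (1 + w - B - A) := mul_nonneg (by positivity) (by linarith)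
      nlinarith
    have e2 : 0 ≤ w * ((X - B) * (1 + w - X - B)) :=
      mul_nonneg h1.le (mul_nonneg (by linarith) (by linarith))
    nlinarith
  · rw [e]
    refine le_trans ?_ key
    refine le_trans ?_ (Gw_mono h4.le a le_rfl h2)
    have : w * B * (A + B - w) ≤ w * B := mul_le_of_le_one_right (by positivity) (by linarith)
    linarith
  · rw [e]
    refine le_trans ?_ key
    refine le_trans ?_ (Gw_mono h3.le a le_rfl h2)
    have : w * A * (A + B - w) ≤ w * A := mul_le_of_le_one_right (by positivity) (by linarith)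
    linarith
  · rw [e]
    refine le_trans ?_ key
    have hD : 0 ≤ A + B - w := by linarith
    refine le_trans ?_ (Gw_mono hD (by linarith : A + B - w ≤ w) le_rfl h2)
    have : (A + B - w) * A * B ≤ w * (A + B - w) := by
      have h7 : A * B ≤ w := by nlinarith
      nlinarith
    linarith

/-- supported cells, crude bound -/
theorem fAB_c {w A B X : ℝ} (h : Dom w A B) (hX : B ≤ X) : fAB w A B ≤ w * X := by
  obtain ⟨h1, h2, h3, h4, h5, h6⟩ := h
  have h7 : w * B ≤ w * X := mul_le_mul_of_nonneg_left hX h1.le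
  refine le_trans ?_ h7
  rcases fAB_cases ⟨h1, h2, h3, h4, h5, h6⟩ with ⟨a, b, e⟩ | ⟨a, b, e⟩ | ⟨a, b, e⟩ | ⟨a, b, e⟩
  · rw [e]
    have : 0 ≤ w ^ 3 := by positivity
    have e1 : w * A * B ≤ w * B := by
      have : 0 ≤ w * B * (1 - A) := mul_nonneg (by positivity) (by linarith)
      nlinarith
    linarith
  · rw [e]
    have : 0 ≤ B ^ 3 := by positivity
    have : w * B * (A + B - w) ≤ w * B := mul_le_of_le_one_right (by positivity) (by linarith)
    linarith
  · rw [e]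
    have : 0 ≤ A ^ 3 := by positivity
    have : w * A * (A + B - w) ≤ w * B := by
      have : A * (A + B - w) ≤ B := by nlinarith
      nlinarith
    linarith
  · rw [e]
    have hD : 0 ≤ A + B - w := by linarith
    have : 0 ≤ (A + B - w) ^ 3 := by positivity
    have : (A + B - w) * A * B ≤ w * B := by
      have : (A + B - w) * A ≤ w := by nlinarith
      nlinarith
    linarith

/-- a cell supported by two cells -/
theorem fAB_two {w A B X Y : ℝ} (h : Dom w A B) (hX : B ≤ X) (hX1 : X ≤ 1) (hY : A ≤ Y)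
    (hY1 : Y ≤ 1) : fAB w A B ≤ Y * (X - X ^ 3 / 3) := by
  obtain ⟨h1, h2, h3, h4, h5, h6⟩ := h
  have hB1 : B ≤ 1 := hX.trans hX1
  have hA1 : A ≤ 1 := hY.trans hY1
  have g0 : ∀ t : ℝ, 0 ≤ t → t ≤ 1 → 0 ≤ t - t ^ 3 / 3 := by
    intro t h0 h1
    have := G_mono le_rfl h0 h1
    linarith
  have key : A * (B - B ^ 3 / 3) ≤ Y * (X - X ^ 3 / 3) :=
    mul_le_mul hY (G_mono h4.le hX hX1) (g0 B h4.le hB1) (by linarith)
  refine le_trans ?_ key
  rcases fAB_cases ⟨h1, h2, h3, h4, h5, h6⟩ with ⟨a, b, e⟩ | ⟨a, b, e⟩ | ⟨a, b, e⟩ | ⟨a, b, e⟩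
  · rw [e]
    have e1 := mul_le_mul_of_nonneg_left (G_mono h1.le b hB1) h3.le
    have e2 : w * A * B - w ^ 3 / 3 ≤ A * (w - w ^ 3 / 3) := by
      have p1 : 0 ≤ w * A * (1 - B) := mul_nonneg (by positivity) (by linarith)
      have p2 : 0 ≤ w ^ 3 * (1 - A) := mul_nonneg (by positivity) (by linarith)
      nlinarith
    linarith
  · rw [e]
    have hD : 0 ≤ A + B - w := by linarith
    have p1 : w * B * (A + B - w) ≤ A * B := by
      have : w * (A + B - w) ≤ A := by nlinarith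
      nlinarith
    have p2 : 0 ≤ B ^ 3 * (1 - A) := mul_nonneg (by positivity) (by linarith)
    nlinarith
  · rw [e]
    have hD : 0 ≤ A + B - w := by linarith
    have p1 : w * (A + B - w) - A ^ 2 / 3 ≤ B - B ^ 3 / 3 := by
      have q1 : w * (A + B - w) ≤ ((A + B) / 2) ^ 2 := by nlinarith [sq_nonneg (A + B - 2 * w)]
      have hAB : A ≤ B := a.trans b
      have q2 : ((A + B) / 2) ^ 2 - A ^ 2 / 3 ≤ 2 / 3 * B ^ 2 := by nlinarith
      have q3 : 2 / 3 * B ^ 2 ≤ B - B ^ 3 / 3 := by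
        have : 0 ≤ B * ((1 - B) * (3 + B)) := mul_nonneg h4.le (mul_nonneg (by linarith) (by linarith))
        nlinarith
      linarith
    have := mul_le_mul_of_nonneg_left p1 h3.le
    nlinarith
  · rw [e]
    have hD : 0 ≤ A + B - w := by linarith
    have e1 := mul_le_mul_of_nonneg_left (G_mono hD (by linarith : A + B - w ≤ B) hB1) h3.le
    have e2 : (A + B - w) * A * B - (A + B - w) ^ 3 / 3 ≤ A * ((A + B - w) - (A + B - w) ^ 3 / 3) := by
      have p1 : 0 ≤ (A + B - w) * A * (1 - B) := mul_nonneg (by positivity) (by linarith)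
      have p2 : 0 ≤ (A + B - w) ^ 3 * (1 - A) := mul_nonneg (by positivity) (by linarith)
      nlinarith
    linarith

theorem far_bb {i j k l : Fin 4} {v : Fin 4 → ℝ} (hv : IsCell i v) (h : [i, j, k, l].Nodup)
    (hf : 1 ≤ -v j) : fcl i v ≤ bb (2 + v j) := by
  refine (far_le hv h hf).trans (le_of_eq ?_)
  unfold bb
  ring

end Pool.Agent.Helper44.TS
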