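import Pool.Agent.Helper44.TS.Small

/-!
# Owners

A far cell is an owner if its `d` is at most `1/5` and its two components are more than `1/5`. The
volume of a cell which is not an owner is at most `PP w`.
-/

set_option autoImplicit false

namespace Pool.Agent.Helper44.TS

open Pool.Agent.Helper84.TS Pool.Agent.Helper36.TS

/-- the bound for a cell which is not an owner -/
noncomputable def PP (w : ℝ) : ℝ := w * (60 + 150 * w - 31 * w ^ 2) / 375

/-- not an owner -/
def NO (w A B : ℝ) : Prop := A + B ≤ w + 4 / 5 ∨ A ≤ 1 / 5 ∨ B ≤ 1 / 5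

theorem NO.symm {w A B : ℝ} (h : NO w A B) : NO w B A := by
  rcases h with h | h | h
  · left; linarith
  · right; right; exact h
  · right; left; exact h

theorem PP_mono {a b : ℝ} (h0 : 0 ≤ a) (hab : a ≤ b) (hb : b ≤ 1) : PP a ≤ PP b := by
  unfold PP
  have : 0 ≤ (b - a) * (60 + 150 * (a + b) - 31 * (a ^ 2 + a * b + b ^ 2)) := by
    refine mul_nonneg (by linarith) ?_
    nlinarith
  nlinarith

theorem PP_one : PP 1 = 179 / 375 := by norm_num [PP]

theorem PP_nonneg {a : ℝ} (h0 : 0 ≤ a) (h1 : a ≤ 1) : 0 ≤ PP a := by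
  have := PP_mono le_rfl h0 h1
  have e : PP 0 = 0 := by norm_num [PP]
  linarith

theorem PP_le {a : ℝ} (h0 : 0 ≤ a) (h1 : a ≤ 1) : PP a ≤ 179 / 375 := by
  have := PP_mono h0 h1 le_rfl
  rwa [PP_one] at this

theorem PP_add {a b : ℝ} (h0 : 0 ≤ a) (h1 : 0 ≤ b) (h : a + b ≤ 1) :
    PP a + PP b ≤ PP (a + b) := by
  unfold PP
  have : 0 ≤ a * b * (300 - 93 * (a + b)) := mul_nonneg (mul_nonneg h0 h1) (by linarith)
  nlinarith

theorem tan_cube {u r w : ℝ} (hu : 0 ≤ u) (hr : 0 ≤ r) (h1 : 0 ≤ 375 * r ^ 2 - 300 * w)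
    (h2 : 0 ≤ 60 * w + 150 * w ^ 2 - 31 * w ^ 3 - 250 * r ^ 3) :
    0 ≤ 60 * w + 150 * w ^ 2 - 31 * w ^ 3 - 300 * w * u + 125 * u ^ 3 := by
  have e1 : 0 ≤ (u - r) ^ 2 * (u + 2 * r) := mul_nonneg (sq_nonneg _) (by linarith)
  have e2 := mul_nonneg hu h1
  nlinarith

/-- `4/5 w u - u^3/3 ≤ PP w` for `u ≤ w` -/
theorem PP_aux {w u : ℝ} (hu : 0 ≤ u) (huw : u ≤ w) (hw : w ≤ 1) :
    4 / 5 * w * u - u ^ 3 / 3 ≤ PP w := by
  have key : 0 ≤ 60 * w + 150 * w ^ 2 - 31 * w ^ 3 - 300 * w * u + 125 * u ^ 3 := by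
    have hw0 : 0 ≤ w := hu.trans huw
    rcases le_total w (4 / 5) with h | h
    · have e1 : 0 ≤ (w - u) * (300 * w - 125 * (w ^ 2 + w * u + u ^ 2)) := by
        refine mul_nonneg (by linarith) ?_
        nlinarith [mul_nonneg hw0 (sub_nonneg.2 h), mul_nonneg hu (sub_nonneg.2 huw),
          mul_nonneg hw0 (sub_nonneg.2 huw)]
      have e2 : 0 ≤ w * (60 - 150 * w + 94 * w ^ 2) := by
        refine mul_nonneg hw0 ?_
        nlinarith [sq_nonneg (w - 4 / 5)]
      nlinarith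
    · rcases le_total w (87 / 100) with h2 | h2
      · refine tan_cube (r := 4087 / 10000 + 4894 / 10000 * w) hu (by linarith) ?_ ?_
        · nlinarith [sq_nonneg (w - 835 / 1000)]
        · nlinarith [mul_nonneg (sub_nonneg.2 h) (sub_nonneg.2 h2),
            mul_nonneg (mul_nonneg (sub_nonneg.2 h) (sub_nonneg.2 h2)) hw0]
      · rcases le_total w (94 / 100) with h3 | h3
        · refine tan_cube (r := 4255 / 10000 + 4701 / 10000 * w) hu (by linarith) ?_ ?_
          · nlinarith [sq_nonneg (w - 905 / 1000)]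
          · nlinarith [mul_nonneg (sub_nonneg.2 h2) (sub_nonneg.2 h3),
              mul_nonneg (mul_nonneg (sub_nonneg.2 h2) (sub_nonneg.2 h3)) hw0]
        · refine tan_cube (r := 4405 / 10000 + 4541 / 10000 * w) hu (by linarith) ?_ ?_
          · nlinarith [sq_nonneg (w - 97 / 100)]
          · nlinarith [mul_nonneg (sub_nonneg.2 h3) (sub_nonneg.2 hw),
              mul_nonneg (mul_nonneg (sub_nonneg.2 h3) (sub_nonneg.2 hw)) hw0]
  unfold PP
  nlinarith

theorem mono_D {D E w : ℝ} (h0 : 0 ≤ D) (h1 : D ≤ E) (h2 : E ≤ w) :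
    D * (D + w) ^ 2 / 4 - D ^ 3 / 3 ≤ E * (E + w) ^ 2 / 4 - E ^ 3 / 3 := by
  have hE : 0 ≤ E := h0.trans h1
  have hw : 0 ≤ w := hE.trans h2
  have : 0 ≤ (E - D) * (-(E ^ 2 + E * D + D ^ 2) / 12 + w * (E + D) / 2 + w ^ 2 / 4) := by
    refine mul_nonneg (by linarith) ?_
    nlinarith [mul_nonneg hE (sub_nonneg.2 h2), mul_nonneg h0 (sub_nonneg.2 h2), mul_nonneg hw hE,
      mul_nonneg h0 (sub_nonneg.2 h1)]
  nlinarith

theorem no_small {w A B : ℝ} (h : Dom w A B) (hB : B ≤ 1 / 5) : fAB w A B ≤ PP w := by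
  refine (fAB_le h).trans ?_
  obtain ⟨h1, h2, h3, h4, h5, h6⟩ := h
  have e1 : w * A * B ≤ w * B * (1 + w - B) := by
    have : 0 ≤ w * B * (1 + w - B - A) := mul_nonneg (by positivity) (by linarith)
    nlinarith
  have e2 : 0 ≤ w * ((1 / 5 - B) * (4 / 5 + w - B)) :=
    mul_nonneg h1.le (mul_nonneg (by linarith) (by linarith))
  have e3 : 0 ≤ w ^ 2 * (75 - 31 * w) := mul_nonneg (sq_nonneg _) (by linarith)
  unfold PP
  nlinarith

/-- the volume of a cell which is not an owner -/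
theorem no_p {w A B : ℝ} (h : Dom w A B) (hn : NO w A B) : fAB w A B ≤ PP w := by
  rcases hn with hn | hn | hn
  · obtain ⟨h1, h2, h3, h4, h5, h6⟩ := h
    rcases fAB_cases ⟨h1, h2, h3, h4, h5, h6⟩ with ⟨a, b, e⟩ | ⟨a, b, e⟩ | ⟨a, b, e⟩ | ⟨a, b, e⟩
    · rw [e]
      have e1 : A * B ≤ (w + 4 / 5) ^ 2 / 4 := by nlinarith [sq_nonneg (A - B)]
      have e2 := mul_le_mul_of_nonneg_left e1 h1.le
      have e3 : 0 ≤ w ^ 3 := by positivity
      unfold PP
      nlinarith
    · rw [e]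
      have e1 : w * B * (A + B - w) ≤ w * B * (4 / 5) :=
        mul_le_mul_of_nonneg_left (by linarith) (by positivity)
      have := PP_aux h4.le a h2
      linarith
    · rw [e]
      have e1 : w * A * (A + B - w) ≤ w * A * (4 / 5) :=
        mul_le_mul_of_nonneg_left (by linarith) (by positivity)
      have := PP_aux h3.le a h2
      linarith
    · rw [e]
      obtain ⟨D, hD⟩ : ∃ D, D = A + B - w := ⟨_, rfl⟩
      rw [← hD]
      have D0 : 0 ≤ D := by linarith
      have e1 : A * B ≤ (D + w) ^ 2 / 4 := by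
        have : D + w = A + B := by linarith
        rw [this]
        nlinarith [sq_nonneg (A - B)]
      have e2 := mul_le_mul_of_nonneg_left e1 D0
      have e3 : D * (D + w) ^ 2 / 4 - D ^ 3 / 3 ≤ PP w := by
        rcases le_total w (4 / 5) with h | h
        · refine (mono_D D0 (by linarith : D ≤ w) le_rfl).trans ?_
          unfold PP
          have : 0 ≤ w * (60 + 150 * w - 281 * w ^ 2) := by
            refine mul_nonneg h1.le ?_
            nlinarith
          nlinarith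
        · refine (mono_D D0 (by linarith : D ≤ 4 / 5) h).trans ?_
          unfold PP
          have : 0 ≤ (1 - w) * (31 * w ^ 2 - 44 * w + 16) := by
            refine mul_nonneg (by linarith) ?_
            nlinarith [sq_nonneg (w - 22 / 31)]
          nlinarith
      linarith
  · rw [fAB_symm]
    exact no_small h.symm hn
  · exact no_small h hn

theorem q_mono {a b : ℝ} (h0 : 0 ≤ a) (hab : a ≤ b) (hb : b ≤ 4 / 5) :
    4 / 5 * a - a ^ 3 / 3 ≤ 4 / 5 * b - b ^ 3 / 3 := by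
  have : 0 ≤ (b - a) * (4 / 5 - (a ^ 2 + a * b + b ^ 2) / 3) := by
    refine mul_nonneg (by linarith) ?_
    nlinarith [mul_nonneg h0 (sub_nonneg.2 hab)]
  nlinarith

theorem n_mono {w a b : ℝ} (h0 : 0 ≤ a) (hab : a ≤ b) (hb : b ≤ 4 / 5) (hbw : b ≤ w) :
    4 / 5 * w * a - a ^ 3 / 3 ≤ 4 / 5 * w * b - b ^ 3 / 3 := by
  have : 0 ≤ (b - a) * (4 / 5 * w - (a ^ 2 + a * b + b ^ 2) / 3) := by
    refine mul_nonneg (by linarith) ?_
    nlinarith [mul_nonneg h0 (sub_nonneg.2 hab), mul_nonneg (h0.trans hab) (sub_nonneg.2 hb),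
      mul_nonneg (h0.trans hab) (sub_nonneg.2 hab)]
  nlinarith

/-- a cell which is not an owner, supported in one column -/
theorem no_q {w A B X : ℝ} (h : Dom w A B) (hn : NO w A B) (hX : B ≤ X)
    (hX0 : 27 / 100 ≤ X) (hX1 : X ≤ 4 / 5) : fAB w A B ≤ 4 / 5 * X - X ^ 3 / 3 := by
  have k : (74 : ℝ) / 375 ≤ 4 / 5 * X - X ^ 3 / 3 := by
    have := q_mono (by norm_num : (0 : ℝ) ≤ 27 / 100) hX0 hX1
    refine le_trans ?_ this
    norm_num
  rcases hn with hn | hn | hn
  · obtain ⟨h1, h2, h3, h4, h5, h6⟩ := h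
    have hB := q_mono h4.le hX hX1
    have hB1 : B ≤ 4 / 5 := hX.trans hX1
    refine le_trans ?_ hB
    rcases fAB_cases ⟨h1, h2, h3, h4, h5, h6⟩ with ⟨a, b, e⟩ | ⟨a, b, e⟩ | ⟨a, b, e⟩ | ⟨a, b, e⟩
    · rw [e]
      refine le_trans ?_ (q_mono h1.le b hB1)
      have : w * A * B ≤ 4 / 5 * w := by
        have : A * B ≤ 4 / 5 := by nlinarith [mul_nonneg h4.le (sub_nonneg.2 b)]
        nlinarith
      linarith
    · rw [e]
      have : w * B * (A + B - w) ≤ 4 / 5 * B := by
        have : w * (A + B - w) ≤ 4 / 5 := by nlinarith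
        nlinarith
      linarith
    · rw [e]
      refine le_trans ?_ (q_mono h3.le (a.trans b) hB1)
      have : w * A * (A + B - w) ≤ 4 / 5 * A := by
        have : w * (A + B - w) ≤ 4 / 5 := by nlinarith
        nlinarith
      linarith
    · rw [e]
      have hD : 0 ≤ A + B - w := by linarith
      refine le_trans ?_ (q_mono hD (by linarith : A + B - w ≤ B) hB1)
      have : (A + B - w) * A * B ≤ 4 / 5 * (A + B - w) := by
        have : A * B ≤ 4 / 5 := by nlinarith
        nlinarith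
      linarith
  · rw [fAB_symm]
    refine le_trans ?_ k
    refine (fAB_G h.symm hn (by norm_num)).trans ?_
    norm_num
  · refine le_trans ?_ k
    refine (fAB_G h hn (by norm_num)).trans ?_
    norm_num

/-- the same with the own parameter -/
theorem no_n {w A B X : ℝ} (h : Dom w A B) (hn : NO w A B) (hX : B ≤ X)
    (hX0 : 27 / 100 ≤ X) (hX1 : X ≤ 4 / 5) (hXw : X ≤ w) :
    fAB w A B ≤ 4 / 5 * w * X - X ^ 3 / 3 := by
  have k : w / 5 - 1 / 375 ≤ 4 / 5 * w * X - X ^ 3 / 3 := by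
    have := n_mono (by norm_num : (0 : ℝ) ≤ 27 / 100) hX0 hX1 hXw
    refine le_trans ?_ this
    nlinarith
  have k' : ∀ {U V : ℝ}, Dom w U V → V ≤ 1 / 5 → fAB w U V ≤ w / 5 - 1 / 375 := by
    intro U V hd hV
    refine (fAB_w hd hV (by linarith)).trans ?_
    norm_num
    linarith
  rcases hn with hn | hn | hn
  · obtain ⟨h1, h2, h3, h4, h5, h6⟩ := h
    have hB := n_mono h4.le hX hX1 hXw
    have hB1 : B ≤ 4 / 5 := hX.trans hX1
    have hBw : B ≤ w := hX.trans hXw
    refine le_trans ?_ hB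
    rcases fAB_cases ⟨h1, h2, h3, h4, h5, h6⟩ with ⟨a, b, e⟩ | ⟨a, b, e⟩ | ⟨a, b, e⟩ | ⟨a, b, e⟩
    · have hb : B = w := le_antisymm hBw b
      rw [e]
      subst hb
      have : B * A * B ≤ 4 / 5 * B * B := by
        have : A ≤ 4 / 5 := by linarith
        nlinarith [mul_pos h4 h4]
      linarith
    · rw [e]
      have : w * B * (A + B - w) ≤ w * B * (4 / 5) :=
        mul_le_mul_of_nonneg_left (by linarith) (by positivity)
      linarith
    · have hb : B = w := le_antisymm hBw b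
      rw [e]
      subst hb
      refine le_trans ?_ (n_mono h3.le a hB1 le_rfl)
      have : B * A * (A + B - B) ≤ B * A * (4 / 5) := by
        refine mul_le_mul_of_nonneg_left ?_ (by positivity)
        linarith
      linarith
    · rw [e]
      have hD : 0 ≤ A + B - w := by linarith
      refine le_trans ?_ (n_mono hD (by linarith : A + B - w ≤ B) hB1 hBw)
      have : (A + B - w) * A * B ≤ 4 / 5 * w * (A + B - w) := by
        have : A * B ≤ 4 / 5 * w := by nlinarith
        nlinarith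
      linarith
  · rw [fAB_symm]
    exact (k' h.symm hn).trans k
  · exact (k' h hn).trans k

/-- a cell supported in both columns, bound with one component -/
theorem fAB_bb {w A B X : ℝ} (h : Dom w A B) (hX : B ≤ X) (hX1 : X ≤ 1) (hA : A ≤ 1) :
    fAB w A B ≤ bb X := by
  -- `A ≤ B ≤ X` or `B ≤ A ≤ 1`
  have core : ∀ {U V : ℝ}, Dom w U V → U ≤ V → fAB w U V ≤ U * (U + V) ^ 2 / 4 - U ^ 3 / 3 := by
    intro U V hd hUV
    obtain ⟨h1, h2, h3, h4, h5, h6⟩ := hd
    rcases fAB_cases ⟨h1, h2, h3, h4, h5, h6⟩ with ⟨a, b, e⟩ | ⟨a, b, e⟩ | ⟨a, b, e⟩ | ⟨a, b, e⟩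
    · rw [e]
      -- increasing in `w`
      have e1 : 0 ≤ (U - w) * (U * V - (U ^ 2 + U * w + w ^ 2) / 3) := by
        refine mul_nonneg (by linarith) ?_
        nlinarith [mul_nonneg h3.le (sub_nonneg.2 hUV), mul_nonneg h3.le (sub_nonneg.2 a),
          mul_nonneg h1.le (sub_nonneg.2 a)]
      have e2 : 0 ≤ U * (U - V) ^ 2 := mul_nonneg h3.le (sq_nonneg _)
      nlinarith
    · have e1 : U = V := le_antisymm hUV (a.trans b)
      subst e1
      have e2 : U = w := le_antisymm a b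
      subst e2
      rw [e]
      nlinarith
    · rw [e]
      have e2 : 0 ≤ U * (U + V - 2 * w) ^ 2 := mul_nonneg h3.le (sq_nonneg _)
      nlinarith
    · rw [e]
      obtain ⟨D, hD⟩ : ∃ D, D = U + V - w := ⟨_, rfl⟩
      rw [← hD]
      have D0 : 0 ≤ D := by linarith
      have DU : D ≤ U := by linarith
      have e1 : 0 ≤ (U - D) * (U * V - (U ^ 2 + U * D + D ^ 2) / 3) := by
        refine mul_nonneg (by linarith) ?_
        nlinarith [mul_nonneg h3.le (sub_nonneg.2 hUV), mul_nonneg h3.le (sub_nonneg.2 DU),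
          mul_nonneg D0 (sub_nonneg.2 DU)]
      have e2 : 0 ≤ U * (U - V) ^ 2 := mul_nonneg h3.le (sq_nonneg _)
      nlinarith
  have mono : ∀ {U V : ℝ}, 0 ≤ U → U ≤ V → V ≤ 1 → U * (U + V) ^ 2 / 4 - U ^ 3 / 3 ≤ bb U := by
    intro U V h0 h1 h2
    have : (U + V) ^ 2 ≤ (U + 1) ^ 2 := by nlinarith
    have := mul_le_mul_of_nonneg_left this h0
    unfold bb
    nlinarith
  rcases le_total A B with hAB | hAB
  · exact (core h hAB).trans ((mono h.A0.le hAB (hX.trans hX1)).trans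
      (bb_mono h.A0.le (hAB.trans hX) hX1))
  · rw [fAB_symm]
    exact (core h.symm hAB).trans ((mono h.B0.le hAB hA).trans (bb_mono h.B0.le hX hX1))

end Pool.Agent.Helper44.TS
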