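import Pool.Agent.Helper44.TS.OwnNum

/-!
# Classes without a main cell and with at most one owner
-/

set_option autoImplicit false

namespace Pool.Agent.Helper44.TS

open Pool.Agent.Helper84.TS Pool.Agent.Helper36.TS

/-- an owner: the cell `(i; m)` has `d` at most `1/5` and both components more than `1/5` -/
def Ow (i m : Fin 4) (F : Fin 4 → ℝ) : Prop :=
  F i - 1 ≤ 1 / 5 ∧ ∀ k, k ≠ i → k ≠ m → F k + (F i - 1) < 4 / 5

theorem fin_cases4 : ∀ {i j k l : Fin 4}, [i, j, k, l].Nodup → ∀ n, n ≠ i → n ≠ j → n = k ∨ n = l := by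
  decide

theorem not_ow {i j k l : Fin 4} {v : Fin 4 → ℝ} (hv : IsCell i v) (h : [i, j, k, l].Nodup)
    (hn : ¬ Ow i j v) : NO (2 + v j) (1 - (v k + (v i - 1))) (1 - (v l + (v i - 1))) := by
  have a := (cell_lin hv h).1
  unfold NO
  by_cases hd : v i - 1 ≤ 1 / 5
  · right
    have : ∃ n, n ≠ i ∧ n ≠ j ∧ 4 / 5 ≤ v n + (v i - 1) := by
      by_contra hcon
      push Not at hcon
      exact hn ⟨hd, fun n h1 h2 => hcon n h1 h2⟩
    obtain ⟨n, h1, h2, h3⟩ := this
    rcases fin_cases4 h n h1 h2 with rfl | rfl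
    · left; linarith
    · right; linarith
  · left
    push Not at hd
    linarith

theorem far_p {i j : Fin 4} {v : Fin 4 → ℝ} (hv : IsCell i v) (hj : j ≠ i)
    (hf : 1 < -v j) (hn : ¬ Ow i j v) : fcl i v ≤ PP (2 + v j) := by
  obtain ⟨k, l, h⟩ := exists_rest2 hj.symm
  rw [far_AB hv h hf.le]
  exact no_p (far_dom hv h hf.le) (not_ow hv h hn)

/-- a far cell `(i; j)` which is not an owner, supported in the column `l` -/
theorem far_ns {i j k l : Fin 4} {v : Fin 4 → ℝ} {S : ℝ} (hv : IsCell i v)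
    (h : [i, j, k, l].Nodup) (hf : 1 < -v j) (hn : ¬ Ow i j v) (h0 : 0 ≤ S)
    (hS : S ≤ v l + (v i - 1)) : NS (fcl i v) (2 + v j) S := by
  have d := far_dom hv h hf.le
  have n := not_ow hv h hn
  refine ⟨far_sup hv h hf h0 hS, fun h1 h2 => ?_, fun h1 h2 h3 => ?_⟩
  · rw [far_AB hv h hf.le]
    exact no_q d n (by linarith) h1 h2
  · rw [far_AB hv h hf.le]
    exact no_n d n (by linarith) h1 h2 (by linarith)

/-- a far cell supported in the two other columns -/
theorem far_two_bb {i j k l : Fin 4} {v : Fin 4 → ℝ} {S T : ℝ} (hv : IsCell i v)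
    (h : [i, j, k, l].Nodup) (hf : 1 < -v j) (h0 : 0 ≤ S) (hS : S ≤ v k + (v i - 1))
    (h1 : 0 ≤ T) (hT : T ≤ v l + (v i - 1)) : fcl i v ≤ bb (1 - S) := by
  rw [far_AB hv h hf.le, fAB_symm]
  exact fAB_bb (far_dom hv h hf.le).symm (by linarith) (by linarith) (by linarith)

theorem pr {W X Y : ℝ} (hW : W ≤ 1) (hX : X ≤ 1) (hY : Y ≤ 1) :
    W * (1 - X) * (1 - Y) ≤ (1 - X) * (1 - Y) := by
  have : 0 ≤ (1 - X) * (1 - Y) := mul_nonneg (by linarith) (by linarith)
  nlinarith

/-- two far cells, the second one is not an owner -/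
theorem two_own {i j k l : Fin 4} {u v : Fin 4 → ℝ} (hu : IsCell i u) (hv : IsCell i v)
    (h : [i, j, k, l].Nodup) (h1 : 1 < -u j) (h2 : 1 < -v k) (hs : Sep u v)
    (nv : ¬ Ow i k v) : fcl i u + fcl i v ≤ 3403 / 5000 := by
  have n := nodup_ne h
  have wu := far_W hu n.1 h1
  have wv := far_W hv n.2.1 h2
  have fu := far_bb' hu n.1 h1
  have fv := far_p hv n.2.1 h2 nv
  rcases sup_pair hu hv hs n.1 n.2.1 h1 h2 with e | e
  · have s := (far_sup hu (perm_kl h) h1 wv.1 e).g
    have := num_two wv.1 wv.2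
    linarith
  · have s := far_ns hv (perm_kl (perm_jk h)) h2 nv wu.1 e
    have := num_2b wu.1 wu.2 s (fv.trans (PP_le wv.1 wv.2))
    linarith

/-- two far cells, no owner -/
theorem two_no {i j k l : Fin 4} {u v : Fin 4 → ℝ} (hu : IsCell i u) (hv : IsCell i v)
    (h : [i, j, k, l].Nodup) (h1 : 1 < -u j) (h2 : 1 < -v k) (hs : Sep u v)
    (nu : ¬ Ow i j u) (nv : ¬ Ow i k v) : fcl i u + fcl i v ≤ 263 / 400 := by
  have n := nodup_ne h
  have wu := far_W hu n.1 h1
  have wv := far_W hv n.2.1 h2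
  have fu := far_p hu n.1 h1 nu
  have fv := far_p hv n.2.1 h2 nv
  rcases sup_pair hu hv hs n.1 n.2.1 h1 h2 with e | e
  · have s := (far_sup hu (perm_kl h) h1 wv.1 e).g
    exact no_two wv.1 wv.2 s (fu.trans (PP_le wu.1 wu.2)) fv
  · have s := (far_sup hv (perm_kl (perm_jk h)) h2 wu.1 e).g
    have := no_two wu.1 wu.2 s (fv.trans (PP_le wv.1 wv.2)) fu
    linarith

/-- three far cells, the second and the third one are not owners, the second one is supported by
the third one -/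
theorem three_own_aux {i j k l : Fin 4} {u v w : Fin 4 → ℝ} (hu : IsCell i u) (hv : IsCell i v)
    (hw : IsCell i w) (h : [i, j, k, l].Nodup) (h1 : 1 < -u j) (h2 : 1 < -v k) (h3 : 1 < -w l)
    (uv : Sep u v) (uw : Sep u w) (nv : ¬ Ow i k v) (nw : ¬ Ow i l w)
    (b : 2 + w l ≤ v l + (v i - 1)) :
    fcl i u + fcl i v + fcl i w ≤ 3403 / 5000 := by
  have n := nodup_ne h
  have wu := far_W hu n.1 h1
  have wv := far_W hv n.2.1 h2
  have ww := far_W hw n.2.2 h3
  have fu := far_bb' hu n.1 h1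
  have fv := far_p hv n.2.1 h2 nv
  have fw := far_p hw n.2.2 h3 nw
  rcases sup_pair hu hv uv n.1 n.2.1 h1 h2 with a | a <;>
    rcases sup_pair hu hw uw n.1 n.2.2 h1 h3 with c | c
  · -- (A)
    obtain ⟨s1, s2, s3⟩ := far_sup_two hu h h1 wv.1 a ww.1 c
    have s := far_sup hv (perm_jk h) h2 ww.1 b
    exact own_A wv.1 ww.1 ww.2 (s1.trans (pr wu.2 wv.2 ww.2)) s2 s fv fw
  · -- (E)
    exact own_E wu.1 wu.2 wv.1 wv.2 ww.1 ww.2 (far_sup hu (perm_kl h) h1 wv.1 a) fu
      (far_sup hv (perm_jk h) h2 ww.1 b) fv (far_ns hw (perm_kl (perm_jl h)) h3 nw wu.1 c) fw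
  · -- (C)
    obtain ⟨s1, s2, s3⟩ := far_sup_two hv (perm_jk h) h2 wu.1 a ww.1 b
    have s4 := far_two_bb hv (perm_jk h) h2 wu.1 a ww.1 b
    exact own_C ww.1 ww.2 wu.1 (far_sup hu h h1 ww.1 c) fu (s1.trans (pr wv.2 wu.2 ww.2)) s4
      (fv.trans (PP_le wv.1 wv.2)) fw
  · -- (D)
    obtain ⟨s1, s2, s3⟩ := far_sup_two hv (perm_jk h) h2 wu.1 a ww.1 b
    have s4 := far_two_bb hv (perm_jk h) h2 wu.1 a ww.1 b
    exact own_D ww.1 ww.2 wu.1 wu.2 fu (s1.trans (pr wv.2 wu.2 ww.2)) s4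
      (fv.trans (PP_le wv.1 wv.2)) (far_ns hw (perm_kl (perm_jl h)) h3 nw wu.1 c) fw

/-- three far cells, the second and the third one are not owners -/
theorem three_own {i j k l : Fin 4} {u v w : Fin 4 → ℝ} (hu : IsCell i u) (hv : IsCell i v)
    (hw : IsCell i w) (h : [i, j, k, l].Nodup) (h1 : 1 < -u j) (h2 : 1 < -v k) (h3 : 1 < -w l)
    (uv : Sep u v) (uw : Sep u w) (vw : Sep v w) (nv : ¬ Ow i k v) (nw : ¬ Ow i l w) :
    fcl i u + fcl i v + fcl i w ≤ 3403 / 5000 := by
  have n := nodup_ne h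
  rcases sup_pair hv hw vw n.2.1 n.2.2 h2 h3 with b | b
  · exact three_own_aux hu hv hw h h1 h2 h3 uv uw nv nw b
  · have := three_own_aux hu hw hv (perm_kl h) h1 h3 h2 uw uv nw nv b
    linarith

/-- three far cells, no owner, the first one supported by the two others -/
theorem three_no_tra {i j k l : Fin 4} {u v w : Fin 4 → ℝ} (hu : IsCell i u) (hv : IsCell i v)
    (hw : IsCell i w) (h : [i, j, k, l].Nodup) (h1 : 1 < -u j) (h2 : 1 < -v k) (h3 : 1 < -w l)
    (vw : Sep v w) (nu : ¬ Ow i j u) (nv : ¬ Ow i k v) (nw : ¬ Ow i l w)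
    (e1 : 2 + v k ≤ u k + (u i - 1)) (e2 : 2 + w l ≤ u l + (u i - 1)) :
    fcl i u + fcl i v + fcl i w ≤ 263 / 400 := by
  have n := nodup_ne h
  have wu := far_W hu n.1 h1
  have wv := far_W hv n.2.1 h2
  have ww := far_W hw n.2.2 h3
  have fu := (far_p hu n.1 h1 nu).trans (PP_le wu.1 wu.2)
  have fv := far_p hv n.2.1 h2 nv
  have fw := far_p hw n.2.2 h3 nw
  obtain ⟨s1, s2, s3⟩ := far_sup_two hu h h1 wv.1 e1 ww.1 e2
  have s1' := s1.trans (pr wu.2 wv.2 ww.2)
  rcases sup_pair hv hw vw n.2.1 n.2.2 h2 h3 with e | e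
  · exact no_T wv.1 wv.2 ww.1 ww.2 s1' s2 fu (far_ns hv (perm_jk h) h2 nv ww.1 e) fv fw
  · have := no_T ww.1 ww.2 wv.1 wv.2 (by linarith) s3 fu
      (far_ns hw (perm_jl h) h3 nw wv.1 e) fw fv
    linarith

theorem three_no {i j k l : Fin 4} {u v w : Fin 4 → ℝ} (hu : IsCell i u) (hv : IsCell i v)
    (hw : IsCell i w) (h : [i, j, k, l].Nodup) (h1 : 1 < -u j) (h2 : 1 < -v k) (h3 : 1 < -w l)
    (uv : Sep u v) (uw : Sep u w) (vw : Sep v w) (nu : ¬ Ow i j u) (nv : ¬ Ow i k v)
    (nw : ¬ Ow i l w) : fcl i u + fcl i v + fcl i w ≤ 263 / 400 := by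
  have n := nodup_ne h
  have wu := far_W hu n.1 h1
  have wv := far_W hv n.2.1 h2
  have ww := far_W hw n.2.2 h3
  have fu := far_p hu n.1 h1 nu
  have fv := far_p hv n.2.1 h2 nv
  have fw := far_p hw n.2.2 h3 nw
  have vu : Sep v u := sep_comm hu.sum hv.sum uv
  have wu' : Sep w u := sep_comm hu.sum hw.sum uw
  rcases sup_pair hu hv uv n.1 n.2.1 h1 h2 with a | a <;>
    rcases sup_pair hv hw vw n.2.1 n.2.2 h2 h3 with b | b <;>
    rcases sup_pair hu hw uw n.1 n.2.2 h1 h3 with c | c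
  · exact three_no_tra hu hv hw h h1 h2 h3 vw nu nv nw a c
  · exact no_Y wu.1 wu.2 wv.1 wv.2 ww.1 ww.2 (far_ns hu (perm_kl h) h1 nu wv.1 a) fu
      (far_ns hv (perm_jk h) h2 nv ww.1 b) fv (far_ns hw (perm_kl (perm_jl h)) h3 nw wu.1 c) fw
  · exact three_no_tra hu hv hw h h1 h2 h3 vw nu nv nw a c
  · have := three_no_tra hw hu hv (perm_jl h) h3 h1 h2 uv nw nu nv c b
    linarith
  · have := three_no_tra hv hu hw (perm_jk h) h2 h1 h3 uw nv nu nw a b
    linarith
  · have := three_no_tra hv hu hw (perm_jk h) h2 h1 h3 uw nv nu nw a b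
    linarith
  · have := no_Y wu.1 wu.2 ww.1 ww.2 wv.1 wv.2 (far_ns hu h h1 nu ww.1 c) fu
      (far_ns hw (perm_jl h) h3 nw wv.1 b) fw (far_ns hv (perm_kl (perm_jk h)) h2 nv wu.1 a) fv
    linarith
  · have := three_no_tra hw hu hv (perm_jl h) h3 h1 h2 uv nw nu nv c b
    linarith

section

variable {A : Fin 4 → Fin 4 → Option (Fin 4 → ℝ)}

theorem nodup_kl : ∀ {i j k l : Fin 4}, [i, j, k, l].Nodup → k ≠ l := by decide

/-- a class without main cell and without owner -/
theorem no_class (h : OF A) {i : Fin 4} (h0 : A i i = none)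
    (ho : ∀ m F, A i m = some F → ¬ Ow i m F) : VV A i ≤ 263 / 400 := by
  obtain ⟨j, k, l, hn⟩ := exists_rest3 i
  have n := nodup_ne hn
  have njk := nodup_jk hn
  have njl := nodup_jl hn
  have nkl := nodup_kl hn
  have one : ∀ {m : Fin 4} {F : Fin 4 → ℝ}, m ≠ i → A i m = some F → fcl i F ≤ 263 / 400 := by
    intro m F hm hF
    have w := far_W (h.cell i m F hF) hm (h.far i m F hm hF)
    have := (far_p (h.cell i m F hF) hm (h.far i m F hm hF) (ho m F hF)).trans (PP_le w.1 w.2)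
    linarith
  rw [VV_eq hn, h0]
  rcases hj : A i j with _ | u <;> rcases hk : A i k with _ | v <;> rcases hl : A i l with _ | w
  · norm_num [fo]
  · have := one n.2.2 hl
    simp only [fo]
    linarith
  · have := one n.2.1 hk
    simp only [fo]
    linarith
  · have := two_no (h.cell i k v hk) (h.cell i l w hl) (perm_jl (perm_jl hn))
      (h.far i k v n.2.1 hk) (h.far i l w n.2.2 hl) (sep' h nkl hk hl) (ho k v hk) (ho l w hl)
    simp only [fo]
    linarith
  · have := one n.1 hj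
    simp only [fo]
    linarith
  · have := two_no (h.cell i j u hj) (h.cell i l w hl) (perm_kl hn)
      (h.far i j u n.1 hj) (h.far i l w n.2.2 hl) (sep' h njl hj hl) (ho j u hj) (ho l w hl)
    simp only [fo]
    linarith
  · have := two_no (h.cell i j u hj) (h.cell i k v hk) hn
      (h.far i j u n.1 hj) (h.far i k v n.2.1 hk) (sep' h njk hj hk) (ho j u hj) (ho k v hk)
    simp only [fo]
    linarith
  · have := three_no (h.cell i j u hj) (h.cell i k v hk) (h.cell i l w hl) hn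
      (h.far i j u n.1 hj) (h.far i k v n.2.1 hk) (h.far i l w n.2.2 hl)
      (sep' h njk hj hk) (sep' h njl hj hl) (sep' h nkl hk hl) (ho j u hj) (ho k v hk) (ho l w hl)
    simp only [fo]
    linarith

/-- a class without main cell and with at most one owner -/
theorem own_class (h : OF A) {i : Fin 4} (h0 : A i i = none)
    (ho : ∀ m m' F F', m ≠ m' → A i m = some F → A i m' = some F' → Ow i m F → ¬ Ow i m' F') :
    VV A i ≤ 3403 / 5000 := by
  obtain ⟨j, k, l, hn⟩ := exists_rest3 i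
  have n := nodup_ne hn
  have njk := nodup_jk hn
  have njl := nodup_jl hn
  have nkl := nodup_kl hn
  have one : ∀ {m : Fin 4} {F : Fin 4 → ℝ}, m ≠ i → A i m = some F → fcl i F ≤ 3403 / 5000 := by
    intro m F hm hF
    have := one_far (h.cell i m F hF) hm (h.far i m F hm hF)
    linarith
  have two : ∀ {m m' p : Fin 4} {F G : Fin 4 → ℝ}, [i, m, m', p].Nodup → A i m = some F →
      A i m' = some G → fcl i F + fcl i G ≤ 3403 / 5000 := by
    intro m m' p F G hn hF hG
    have n := nodup_ne hn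
    have nm := nodup_jk hn
    by_cases o : Ow i m F
    · exact two_own (h.cell i m F hF) (h.cell i m' G hG) hn (h.far i m F n.1 hF)
        (h.far i m' G n.2.1 hG) (sep' h nm hF hG) (ho m m' F G nm hF hG o)
    · have := two_own (h.cell i m' G hG) (h.cell i m F hF) (perm_jk hn) (h.far i m' G n.2.1 hG)
        (h.far i m F n.1 hF) (sep' h nm.symm hG hF) o
      linarith
  rw [VV_eq hn, h0]
  rcases hj : A i j with _ | u <;> rcases hk : A i k with _ | v <;> rcases hl : A i l with _ | w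
  · norm_num [fo]
  · have := one n.2.2 hl
    simp only [fo]
    linarith
  · have := one n.2.1 hk
    simp only [fo]
    linarith
  · have := two (perm_jl (perm_jl hn)) hk hl
    simp only [fo]
    linarith
  · have := one n.1 hj
    simp only [fo]
    linarith
  · have := two (perm_kl hn) hj hl
    simp only [fo]
    linarith
  · have := two hn hj hk
    simp only [fo]
    linarith
  · have cu := h.cell i j u hj
    have cv := h.cell i k v hk
    have cw := h.cell i l w hl
    have fu := h.far i j u n.1 hj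
    have fv := h.far i k v n.2.1 hk
    have fw := h.far i l w n.2.2 hl
    simp only [fo]
    by_cases oj : Ow i j u
    · have := three_own cu cv cw hn fu fv fw (sep' h njk hj hk) (sep' h njl hj hl)
        (sep' h nkl hk hl) (ho j k u v njk hj hk oj) (ho j l u w njl hj hl oj)
      linarith
    · by_cases ok : Ow i k v
      · have := three_own cv cu cw (perm_jk hn) fv fu fw (sep' h njk.symm hk hj)
          (sep' h nkl hk hl) (sep' h njl hj hl) oj (ho k l v w nkl hk hl ok)
        linarith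
      · have := three_own cw cu cv (perm_jl hn) fw fu fv (sep' h njl.symm hl hj)
          (sep' h nkl.symm hl hk) (sep' h njk hj hk) oj ok
        linarith

end

end Pool.Agent.Helper44.TS
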