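import Pool.Agent.Helper44.TS.Own

/-!
# Classes with at most one owner, the numbers
-/

set_option autoImplicit false

namespace Pool.Agent.Helper44.TS

/-- a supported cell which is not an owner: the facts -/
structure NS (f w S : ℝ) : Prop where
  s : Sup f w S
  q : 27 / 100 ≤ 1 - S → 1 - S ≤ 4 / 5 → f ≤ 4 / 5 * (1 - S) - (1 - S) ^ 3 / 3
  n : 27 / 100 ≤ 1 - S → 1 - S ≤ 4 / 5 → 1 ≤ w + S → f ≤ 4 / 5 * w * (1 - S) - (1 - S) ^ 3 / 3

/-- (2a) -/
theorem num_two {b : ℝ} (h0 : 0 ≤ b) (h1 : b ≤ 1) :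
    ((1 - b) - (1 - b) ^ 3 / 3) + PP b ≤ 3403 / 5000 := by
  unfold PP
  obtain ⟨x, hx⟩ : ∃ x, x = 1 - b := ⟨_, rfl⟩
  have hb : b = 1 - x := by linarith
  subst hb
  have x0 : 0 ≤ x := by linarith
  nlinarith [mul_nonneg (by linarith : 0 ≤ x + 11 / 10) (sq_nonneg (x - 853 / 1000))]

/-- (A) -/
theorem num_A {b c : ℝ} (b0 : 0 ≤ b) (c0 : 0 ≤ c) (h : b + c ≤ 1) :
    (1 - c) * ((1 - b) - (1 - b) ^ 3 / 3) + PP b + PP c ≤ 3403 / 5000 := by
  obtain ⟨x, hx⟩ : ∃ x, x = 1 - b := ⟨_, rfl⟩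
  have hb : b = 1 - x := by linarith
  subst hb
  have x1 : x ≤ 1 := by linarith
  have hcx : c ≤ x := by linarith
  have x0 : 0 ≤ x := c0.trans hcx
  have h2 := num_two b0 (by linarith)
  rw [show 1 - (1 - x) = x by ring] at h2 ⊢
  rcases le_total x (29 / 100) with h3 | h3
  · have e1 : PP c ≤ PP (29 / 100) := PP_mono c0 (by linarith) (by norm_num)
    have e3 : PP (1 - x) + (x - x ^ 3 / 3) ≤ 0 + 600 / 1000 := by
      unfold PP
      nlinarith [mul_nonneg x0 x0, mul_nonneg x0 (sub_nonneg.2 h3)]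
    have e4 : PP (29 / 100) ≤ 80 / 1000 := by
      unfold PP
      norm_num
    have e5 : (1 - c) * (x - x ^ 3 / 3) ≤ x - x ^ 3 / 3 := by
      have : 0 ≤ x - x ^ 3 / 3 := by nlinarith [mul_nonneg x0 x0, mul_nonneg (mul_nonneg x0 x0) (sub_nonneg.2 h3)]
      nlinarith
    linarith
  · have e1 : PP c ≤ c * (x - x ^ 3 / 3) := by
      have e2 : (60 + 150 * c - 31 * c ^ 2) / 375 ≤ x - x ^ 3 / 3 := by
        have e3 : (60 + 150 * c - 31 * c ^ 2) / 375 ≤ 4 / 25 + 2 / 5 * x := by nlinarith [sq_nonneg c]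
        have e4 : 4 / 25 + 2 / 5 * x ≤ x - x ^ 3 / 3 := by
          nlinarith [mul_nonneg (sub_nonneg.2 h3) (sub_nonneg.2 x1),
            mul_nonneg (mul_nonneg (sub_nonneg.2 h3) (sub_nonneg.2 x1)) x0]
        linarith
      have := mul_le_mul_of_nonneg_left e2 c0
      unfold PP
      nlinarith
    nlinarith

/-- the bound `x (1 - c) + PP c + bb (1 - x)` -/
theorem num_C2 {x c : ℝ} (x1 : x ≤ 1) (hc : x / 2 ≤ c) (hcx : c ≤ x)
    (hx : 1 / 2 ≤ x) : bb (1 - x) + x * (1 - c) + PP c ≤ 3403 / 5000 := by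
  unfold bb PP
  have x0 : 0 ≤ x := by linarith
  have c0 : 0 ≤ c := by linarith
  have e1 : 0 ≤ (c - x / 2) * (x - c) := mul_nonneg (by linarith) (by linarith)
  have e2 : x / 2 * c ^ 2 ≤ c ^ 3 := by nlinarith [mul_nonneg (sub_nonneg.2 hc) (sq_nonneg c)]
  have e3 : 0 ≤ (2 / 5 - 31 / 750 * x) * ((c - x / 2) * (x - c)) :=
    mul_nonneg (by linarith) e1
  have e4 : 0 ≤ (c - x / 2) * (2 / 5 * x - 4 / 25 + 31 / 500 * x ^ 2) := by
    refine mul_nonneg (by linarith) ?_
    nlinarith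
  have e5 : 0 ≤ 3403 / 5000 - 2 / 3 - 2 / 25 * x + 3 / 20 * x ^ 2 - 73 / 1000 * x ^ 3 := by
    nlinarith [mul_nonneg (sub_nonneg.2 hx) (sub_nonneg.2 x1),
      mul_nonneg (mul_nonneg (sub_nonneg.2 hx) (sub_nonneg.2 x1)) x0]
  nlinarith

/-- (C) and (D) and (E), `c ≤ x` -/
theorem num_C {x c g : ℝ} (x1 : x ≤ 1) (c0 : 0 ≤ c) (hcx : c ≤ x)
    (g1 : g ≤ x * (1 - c)) (g2 : g ≤ bb x) (g3 : g ≤ 179 / 375) :
    bb (1 - x) + g + PP c ≤ 3403 / 5000 := by
  have x0 : 0 ≤ x := c0.trans hcx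
  have e0 : bb (1 - x) + bb x = 2 / 3 - 3 / 4 * x * (1 - x) := by
    unfold bb
    ring
  rcases le_total x (1 / 2) with h | h
  · have e1 := PP_mono c0 hcx x1
    have e2 : PP x ≤ 3 / 4 * x * (1 - x) + 1 / 100 := by
      unfold PP
      have : 0 ≤ x * (59 / 100 - 115 / 100 * x) := mul_nonneg x0 (by linarith)
      have : 0 ≤ x ^ 3 := by positivity
      nlinarith
    linarith
  · rcases le_total (x / 2) c with h2 | h2
    · have := num_C2 x1 h2 hcx h
      linarith
    · have e1 := PP_mono c0 h2 (by linarith)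
      rcases le_total x (4 / 5) with h3 | h3
      · have e2 : PP (x / 2) ≤ 3 / 4 * x * (1 - x) + 1 / 100 := by
          unfold PP
          nlinarith [mul_nonneg (sub_nonneg.2 h) (sub_nonneg.2 h3),
            mul_nonneg (mul_nonneg (sub_nonneg.2 h) (sub_nonneg.2 h3)) x0]
        linarith
      · have e2 : bb (1 - x) + PP (x / 2) ≤ 3403 / 5000 - 179 / 375 := by
          unfold bb PP
          nlinarith [mul_nonneg (sub_nonneg.2 h3) (sub_nonneg.2 x1),
            mul_nonneg (mul_nonneg (sub_nonneg.2 h3) (sub_nonneg.2 x1)) x0]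
        linarith

theorem PP_le_bb {x : ℝ} (h0 : 0 ≤ x) (h1 : x ≤ 1) : PP x ≤ bb x := by
  unfold PP bb
  have : 0 ≤ x ^ 2 * (1 - x) := mul_nonneg (sq_nonneg _) (by linarith)
  nlinarith [sq_nonneg x]

/-- `2/3 - x + x^2/4 + x^3/12` -/
theorem bb_one_sub (a : ℝ) :
    bb a = 2 / 3 - (1 - a) + (1 - a) ^ 2 / 4 + (1 - a) ^ 3 / 12 := by
  unfold bb
  ring

/-- a cell which is not an owner supported by an owner with the parameter `a` -/
theorem num_2b {a c k : ℝ} (a0 : 0 ≤ a) (a1 : a ≤ 1) (hk : NS k c a) (kp : k ≤ 179 / 375) :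
    bb a + k ≤ 3403 / 5000 := by
  obtain ⟨x, hx⟩ : ∃ x, x = 1 - a := ⟨_, rfl⟩
  have e0 := bb_one_sub a
  have e1 := hk.s.g
  have e2 := hk.q
  rw [← hx] at e0 e1 e2
  have x0 : 0 ≤ x := by linarith
  have x1 : x ≤ 1 := by linarith
  rcases le_total x (27 / 100) with h | h
  · have : x ^ 2 * (1 - x) ≤ 73 / 1000 * (1 - x) := by
      refine mul_le_mul_of_nonneg_right ?_ (by linarith)
      nlinarith
    have : x ^ 2 * (1 - x) ≤ 54 / 1000 := by
      nlinarith [mul_nonneg x0 (sub_nonneg.2 h), mul_nonneg (mul_nonneg x0 x0) (sub_nonneg.2 h)]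
    nlinarith
  · rcases le_total x (4 / 5) with h2 | h2
    · have := e2 h h2
      have : 0 ≤ x * (4 - 5 * x + 5 * x ^ 2) := by
        refine mul_nonneg x0 ?_
        nlinarith [sq_nonneg (x - 1 / 2)]
      nlinarith
    · have : 2 / 3 - x + x ^ 2 / 4 + x ^ 3 / 12 ≤ 1 / 10 := by
        nlinarith [mul_nonneg (sub_nonneg.2 h2) (sub_nonneg.2 x1),
          mul_nonneg (mul_nonneg (sub_nonneg.2 h2) (sub_nonneg.2 x1)) x0]
      linarith

/-- (D), `1 ≤ c + a` -/
theorem num_D {a c g k : ℝ} (a0 : 0 ≤ a) (a1 : a ≤ 1) (hac : 1 ≤ c + a) (c1 : c ≤ 1)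
    (g1 : g ≤ (1 - a) * (1 - c)) (hk : NS k c a) (kp : k ≤ PP c) :
    bb a + g + k ≤ 3403 / 5000 := by
  obtain ⟨x, hx⟩ : ∃ x, x = 1 - a := ⟨_, rfl⟩
  have e0 := bb_one_sub a
  have e1 := hk.s.a hac
  have e2 := fun h h' => hk.n h h' hac
  rw [← hx] at e0 e1 e2 g1
  have x0 : 0 ≤ x := by linarith
  have x1 : x ≤ 1 := by linarith
  have hxc : x ≤ c := by linarith
  rcases le_total x (27 / 100) with h | h
  · have : x ^ 2 * (1 - x) ≤ 54 / 1000 := by
      nlinarith [mul_nonneg x0 (sub_nonneg.2 h), mul_nonneg (mul_nonneg x0 x0) (sub_nonneg.2 h)]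
    nlinarith
  · rcases le_total x (4 / 5) with h2 | h2
    · have e3 := e2 h h2
      -- total at most `2/3 + x^2/4 - x^3/4 - x c / 5`
      have e4 : x * x ≤ x * c := mul_le_mul_of_nonneg_left hxc x0
      have e5 : x ^ 2 * (1 / 20 - x / 4) ≤ 0 := by
        refine mul_nonpos_of_nonneg_of_nonpos (sq_nonneg _) (by linarith)
      nlinarith
    · have e3 : PP c ≤ 179 / 375 * c := by
        unfold PP
        nlinarith [mul_nonneg (by linarith : 0 ≤ c) (sub_nonneg.2 c1),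
          mul_nonneg (mul_nonneg (by linarith : 0 ≤ c) (by linarith : 0 ≤ c)) (sub_nonneg.2 c1)]
      have e4 : 2 / 3 - x + x ^ 2 / 4 + x ^ 3 / 12 ≤ 2 / 25 := by
        nlinarith [mul_nonneg (sub_nonneg.2 h2) (sub_nonneg.2 x1),
          mul_nonneg (mul_nonneg (sub_nonneg.2 h2) (sub_nonneg.2 x1)) x0]
      have e5 : x * (1 - c) ≤ 1 * (1 - c) := mul_le_mul_of_nonneg_right x1 (by linarith)
      nlinarith

/-- (C): `2` supported by `1` and `3`, `1` by `3`; the owner is `1` -/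
theorem own_C {f g k a c : ℝ} (c0 : 0 ≤ c) (c1 : c ≤ 1) (a0 : 0 ≤ a)
    (hf : Sup f a c) (fb : f ≤ bb a) (g1 : g ≤ (1 - a) * (1 - c)) (g2 : g ≤ bb (1 - a))
    (g3 : g ≤ 179 / 375) (kp : k ≤ PP c) : f + g + k ≤ 3403 / 5000 := by
  rcases le_total 1 (a + c) with h | h
  · have e1 := hf.a h
    have e2 := num_two c0 c1
    nlinarith
  · have := num_C (x := 1 - a) (by linarith) c0 (by linarith) g1 g2 g3
    rw [show 1 - (1 - a) = a by ring] at this
    linarith

/-- (D): `2` supported by `1` and `3`, `3` by `1` -/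
theorem own_D {f g k a c : ℝ} (c0 : 0 ≤ c) (c1 : c ≤ 1) (a0 : 0 ≤ a) (a1 : a ≤ 1)
    (fb : f ≤ bb a) (g1 : g ≤ (1 - a) * (1 - c)) (g2 : g ≤ bb (1 - a))
    (g3 : g ≤ 179 / 375) (hk : NS k c a) (kp : k ≤ PP c) : f + g + k ≤ 3403 / 5000 := by
  rcases le_total 1 (c + a) with h | h
  · have := num_D a0 a1 h c1 g1 hk kp
    linarith
  · have := num_C (x := 1 - a) (by linarith) c0 (by linarith) g1 g2 g3
    rw [show 1 - (1 - a) = a by ring] at this
    linarith

/-- (E): `1` supported by `2`, `2` by `3`, `3` by `1` -/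
theorem own_E {f g k a b c : ℝ} (a0 : 0 ≤ a) (a1 : a ≤ 1) (b0 : 0 ≤ b) (b1 : b ≤ 1)
    (c0 : 0 ≤ c) (c1 : c ≤ 1) (hf : Sup f a b) (fb : f ≤ bb a) (hg : Sup g b c)
    (gp : g ≤ PP b) (hk : NS k c a) (kp : k ≤ PP c) : f + g + k ≤ 3403 / 5000 := by
  rcases le_total 1 (a + b) with hab | hab
  · have e1 := hf.a hab
    rcases le_total 1 (b + c) with hbc | hbc
    · have e2 := hg.a hbc
      rcases le_total 1 (c + a) with hca | hca
      · have e3 := hk.s.a hca
        have := pairs_num (x := 1 - a) (y := 1 - b) (z := 1 - c) (by linarith) (by linarith)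
          (by linarith) (by linarith) (by linarith) (by linarith)
        nlinarith
      · have e3 := num_two c0 c1
        have e4 : a * (1 - b) ≤ (1 - c) * (1 - b) :=
          mul_le_mul_of_nonneg_right (by linarith) (by linarith)
        have e5 : 0 ≤ (1 - b) ^ 3 := by
          have : 0 ≤ 1 - b := by linarith
          positivity
        nlinarith
    · have e2 := hk.s.c
      have e3 := num_two b0 b1
      have e4 : c * (1 - a) ≤ (1 - b) * (1 - a) :=
        mul_le_mul_of_nonneg_right (by linarith) (by linarith)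
      nlinarith
  · have e1 : b * (1 - c) ≤ (1 - a) * (1 - c) :=
      mul_le_mul_of_nonneg_right (by linarith) (by linarith)
    have g1 := hg.c.trans e1
    have g3 := gp.trans (PP_le b0 b1)
    have g2 : g ≤ bb (1 - a) :=
      gp.trans ((PP_mono b0 (by linarith) (by linarith)).trans (PP_le_bb (by linarith) (by linarith)))
    exact own_D c0 c1 a0 a1 fb g1 g2 g3 hk kp

/-- (A): the owner `1` supported by `2` and `3`, `2` by `3` -/
theorem own_A {f g k b c : ℝ} (b0 : 0 ≤ b) (c0 : 0 ≤ c) (c1 : c ≤ 1)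
    (f1 : f ≤ (1 - b) * (1 - c)) (f2 : f ≤ (1 - c) * ((1 - b) - (1 - b) ^ 3 / 3))
    (hg : Sup g b c) (gp : g ≤ PP b) (kp : k ≤ PP c) : f + g + k ≤ 3403 / 5000 := by
  rcases le_total 1 (b + c) with h | h
  · have e1 := hg.a h
    have e2 := num_two c0 c1
    nlinarith
  · have := num_A b0 c0 h
    linarith

/-! ### No owner -/

theorem num_P1 {a : ℝ} (h : 4 / 5 ≤ a) (h1 : a ≤ 1) : PP a + (1 - a) ≤ 542 / 1000 := by
  unfold PP
  nlinarith [mul_nonneg (sub_nonneg.2 h) (sub_nonneg.2 h1),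
    mul_nonneg (mul_nonneg (sub_nonneg.2 h) (sub_nonneg.2 h1)) (by linarith : 0 ≤ a)]

theorem num_P2 {Z : ℝ} (h : 27 / 100 ≤ Z) (h1 : Z ≤ 4 / 5) :
    Z * (1 - Z / 5) - Z ^ 3 / 3 + PP (1 - Z) ≤ 263 / 400 := by
  unfold PP
  nlinarith [mul_nonneg (sub_nonneg.2 h) (sub_nonneg.2 h1), sq_nonneg (Z - 3 / 5),
    mul_nonneg (mul_nonneg (sub_nonneg.2 h) (sub_nonneg.2 h1)) (by linarith : 0 ≤ Z)]

theorem num_P3 {Z : ℝ} (h : 0 ≤ Z) (h1 : Z ≤ 29 / 100) :
    (Z - Z ^ 3 / 3) + PP (1 - Z) ≤ 57 / 100 := by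
  unfold PP
  nlinarith [mul_nonneg h (sub_nonneg.2 h1), mul_nonneg (mul_nonneg h h) (sub_nonneg.2 h1)]

theorem PP_fifth {b : ℝ} (h0 : 0 ≤ b) (h : b ≤ 1 / 5) : PP b ≤ 1 / 20 := by
  refine (PP_mono h0 h (by norm_num)).trans ?_
  unfold PP
  norm_num

/-- two cells, no owner -/
theorem no_two {f g b : ℝ} (b0 : 0 ≤ b) (b1 : b ≤ 1) (hf : f ≤ (1 - b) - (1 - b) ^ 3 / 3)
    (fp : f ≤ 179 / 375) (gp : g ≤ PP b) : f + g ≤ 263 / 400 := by
  rcases le_total b (1 / 2) with h | h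
  · have e1 : PP b ≤ 9 / 50 := by
      refine (PP_mono b0 h (by norm_num)).trans ?_
      unfold PP
      norm_num
    linarith
  · obtain ⟨x, hx⟩ : ∃ x, x = 1 - b := ⟨_, rfl⟩
    have hb : b = 1 - x := by linarith
    subst hb
    rw [show 1 - (1 - x) = x by ring] at hf
    have x0 : 0 ≤ x := by linarith
    have x1 : x ≤ 1 / 2 := by linarith
    have : (x - x ^ 3 / 3) + PP (1 - x) ≤ 263 / 400 := by
      unfold PP
      nlinarith [mul_nonneg x0 (sub_nonneg.2 x1), mul_nonneg (mul_nonneg x0 x0) (sub_nonneg.2 x1)]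
    linarith

/-- `(1 - c) G(1 - b) + PP b + PP c` for `1/2 ≤ b + c ≤ 1` -/
theorem num_A0 {b c : ℝ} (b0 : 0 ≤ b) (c0 : 0 ≤ c) (h : b + c ≤ 1) (h' : 1 / 2 ≤ b + c) :
    (1 - c) * ((1 - b) - (1 - b) ^ 3 / 3) + PP b + PP c ≤ 263 / 400 := by
  obtain ⟨x, hx⟩ : ∃ x, x = 1 - b := ⟨_, rfl⟩
  have hb : b = 1 - x := by linarith
  subst hb
  have x1 : x ≤ 1 := by linarith
  have hcx : c ≤ x := by linarith
  have x0 : 0 ≤ x := c0.trans hcx
  have h2 := num_two b0 (by linarith)
  rw [show 1 - (1 - x) = x by ring] at h2 ⊢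
  rcases le_total x (29 / 100) with h3 | h3
  · have e1 : PP c ≤ PP (29 / 100) := PP_mono c0 (by linarith) (by norm_num)
    have e3 := num_P3 x0 h3
    have e4 : PP (29 / 100) ≤ 80 / 1000 := by
      unfold PP
      norm_num
    have e5 : (1 - c) * (x - x ^ 3 / 3) ≤ x - x ^ 3 / 3 := by
      have : 0 ≤ x - x ^ 3 / 3 := by nlinarith [mul_nonneg x0 x0, mul_nonneg (mul_nonneg x0 x0) (sub_nonneg.2 h3)]
      nlinarith
    linarith
  · have e4 : 4 / 25 + 2 / 5 * x ≤ x - x ^ 3 / 3 := by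
      nlinarith [mul_nonneg (sub_nonneg.2 h3) (sub_nonneg.2 x1),
        mul_nonneg (mul_nonneg (sub_nonneg.2 h3) (sub_nonneg.2 x1)) x0]
    rcases le_total x (63 / 100) with h4 | h4
    · have e1 : PP c ≤ c * (x - x ^ 3 / 3) := by
        have e2 : (60 + 150 * c - 31 * c ^ 2) / 375 ≤ x - x ^ 3 / 3 := by
          have e3 : (60 + 150 * c - 31 * c ^ 2) / 375 ≤ 4 / 25 + 2 / 5 * x := by nlinarith [sq_nonneg c]
          linarith
        have := mul_le_mul_of_nonneg_left e2 c0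
        unfold PP
        nlinarith
      have e5 : (x - x ^ 3 / 3) + PP (1 - x) ≤ 263 / 400 := by
        unfold PP
        nlinarith [mul_nonneg x0 (sub_nonneg.2 h4), mul_nonneg (mul_nonneg x0 x0) (sub_nonneg.2 h4)]
      nlinarith
    · -- `c ≥ x - 1/2 ≥ 13/100`
      have e6 : 0 ≤ (c - (x - 1 / 2)) * (x - c) := mul_nonneg (by linarith) (by linarith)
      have e7 : PP c + 24 / 1000 ≤ c * (x - x ^ 3 / 3) := by
        have e8 : PP c ≤ c * (4 / 25 + 2 / 5 * c) := by
          unfold PP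
          have : 0 ≤ c ^ 3 := by positivity
          nlinarith
        have e9 : 34 / 100 + 32 / 100 * x ≤ x - x ^ 3 / 3 := by
          nlinarith [mul_nonneg (sub_nonneg.2 h4) (sub_nonneg.2 x1),
            mul_nonneg (mul_nonneg (sub_nonneg.2 h4) (sub_nonneg.2 x1)) x0]
        have e10 := mul_le_mul_of_nonneg_left e9 c0
        rcases le_total x (79 / 100) with h5 | h5
        · nlinarith [mul_nonneg (by linarith : 0 ≤ 38 / 100 - 48 / 100 * x) (by linarith : 0 ≤ c - (x - 1 / 2))]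
        · nlinarith [mul_nonneg (by linarith : 0 ≤ 48 / 100 * x - 37 / 100) (by linarith : 0 ≤ x - c)]
      linarith

/-- three cells, no owner, transitive -/
theorem no_T {f g k b c : ℝ} (b0 : 0 ≤ b) (b1 : b ≤ 1) (c0 : 0 ≤ c) (c1 : c ≤ 1)
    (f1 : f ≤ (1 - b) * (1 - c)) (f2 : f ≤ (1 - c) * ((1 - b) - (1 - b) ^ 3 / 3))
    (f3 : f ≤ 179 / 375) (hg : NS g b c) (gp : g ≤ PP b) (kp : k ≤ PP c) :
    f + g + k ≤ 263 / 400 := by
  rcases le_total 1 (b + c) with h | h
  · obtain ⟨Z, hZ⟩ : ∃ Z, Z = 1 - c := ⟨_, rfl⟩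
    have hc : c = 1 - Z := by linarith
    subst hc
    have e1 := hg.s.a h
    have e2 := hg.n
    rw [show 1 - (1 - Z) = Z by ring] at e1 e2 f1
    have Z0 : 0 ≤ Z := by linarith
    rcases le_total Z (27 / 100) with h2 | h2
    · have := num_P3 Z0 (by linarith)
      nlinarith
    · rcases le_total Z (4 / 5) with h3 | h3
      · have e3 := e2 h2 h3 h
        have e4 := num_P2 h2 h3
        have e5 : Z * Z ≤ b * Z := mul_le_mul_of_nonneg_right (by linarith) Z0
        nlinarith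
      · have e3 := num_P1 (a := b) (by linarith) b1
        have e4 := PP_fifth (b := 1 - Z) (by linarith) (by linarith)
        have e5 : (1 - b) * Z ≤ (1 - b) * 1 := mul_le_mul_of_nonneg_left (by linarith) (by linarith)
        linarith
  · rcases le_total (b + c) (1 / 2) with h2 | h2
    · have e1 := PP_add b0 c0 (by linarith)
      have e2 : PP (b + c) ≤ 9 / 50 := by
        refine (PP_mono (by linarith) h2 (by norm_num)).trans ?_
        unfold PP
        norm_num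
      linarith
    · have := num_A0 b0 c0 h h2
      linarith

/-- three cells, no owner, cyclic, mixed -/
theorem no_Y1 {f g k a b c : ℝ} (a1 : a ≤ 1) (b0 : 0 ≤ b) (b1 : b ≤ 1)
    (c1 : c ≤ 1) (hab : 1 ≤ a + b) (hbc : b + c ≤ 1) (hf : NS f a b)
    (fp : f ≤ PP a) (gp : g ≤ PP b) (hk : k ≤ c * (1 - a)) : f + g + k ≤ 263 / 400 := by
  obtain ⟨X, hX⟩ : ∃ X, X = 1 - b := ⟨_, rfl⟩
  have hb : b = 1 - X := by linarith
  subst hb
  have e1 := hf.s.a hab
  have e2 := hf.n
  rw [show 1 - (1 - X) = X by ring] at e1 e2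
  have X0 : 0 ≤ X := by linarith
  have e3 : c * (1 - a) ≤ X * (1 - a) := mul_le_mul_of_nonneg_right (by linarith) (by linarith)
  rcases le_total X (27 / 100) with h2 | h2
  · have := num_P3 X0 (by linarith)
    nlinarith
  · rcases le_total X (4 / 5) with h3 | h3
    · have e4 := e2 h2 h3 hab
      have e5 := num_P2 h2 h3
      have e6 : X * X ≤ a * X := mul_le_mul_of_nonneg_right (by linarith) X0
      nlinarith
    · have e4 := num_P1 (a := a) (by linarith) a1
      have e5 := PP_fifth (b := 1 - X) (by linarith) (by linarith)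
      have e6 : c * (1 - a) ≤ 1 * (1 - a) := mul_le_mul_of_nonneg_right c1 (by linarith)
      linarith

/-- three cells, no owner, cyclic, all sums at least `1`, one parameter at most `73/100` -/
theorem no_Y2 {f g k a b c : ℝ} (a1 : a ≤ 1)
    (c1 : c ≤ 1) (hab : 1 ≤ a + b) (hbc : 1 ≤ b + c) (hca : 1 ≤ c + a)
    (hb : b ≤ 73 / 100) (hf : NS f a b) (fp : f ≤ PP a) (hg : Sup g b c) (hk : Sup k c a) :
    f + g + k ≤ 263 / 400 := by
  rcases le_total (1 - b) (4 / 5) with h3 | h3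
  · have e1 := hf.n (by linarith) h3 hab
    have e2 := hg.a hbc
    have e3 := hk.a hca
    have := pairs_num (x := 1 - a) (y := 1 - b) (z := 1 - c) (by linarith) (by linarith)
      (by linarith) (by linarith) (by linarith) (by linarith)
    have e4 : 27 / 100 * (27 / 100) ≤ a * (1 - b) := by
      have : (1 - b) * (1 - b) ≤ a * (1 - b) := mul_le_mul_of_nonneg_right (by linarith) (by linarith)
      nlinarith
    nlinarith
  · have e4 := num_P1 (a := a) (by linarith) a1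
    have e1 := hk.c
    have e2 := hg.c
    have e3 : c * (1 - a) ≤ 1 * (1 - a) := mul_le_mul_of_nonneg_right c1 (by linarith)
    have e5 : b * (1 - c) ≤ 1 / 5 * (1 / 5) := mul_le_mul (by linarith) (by linarith) (by linarith) (by norm_num)
    linarith

/-- three cells, no owner, cyclic -/
theorem no_Y {f g k a b c : ℝ} (a0 : 0 ≤ a) (a1 : a ≤ 1) (b0 : 0 ≤ b) (b1 : b ≤ 1)
    (c0 : 0 ≤ c) (c1 : c ≤ 1) (hf : NS f a b) (fp : f ≤ PP a) (hg : NS g b c) (gp : g ≤ PP b)
    (hk : NS k c a) (kp : k ≤ PP c) : f + g + k ≤ 263 / 400 := by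
  rcases le_total 1 (a + b) with hab | hab <;> rcases le_total 1 (b + c) with hbc | hbc <;>
    rcases le_total 1 (c + a) with hca | hca
  · rcases le_total b (73 / 100) with h1 | h1
    · exact no_Y2 a1 c1 hab hbc hca h1 hf fp hg.s hk.s
    · rcases le_total c (73 / 100) with h2 | h2
      · have := no_Y2 b1 a1 hbc hca hab h2 hg gp hk.s hf.s
        linarith
      · rcases le_total a (73 / 100) with h3 | h3
        · have := no_Y2 c1 b1 hca hab hbc h3 hk kp hf.s hg.s
          linarith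
        · have e1 := hf.s.a hab
          have e2 := hg.s.a hbc
          have e3 := hk.s.a hca
          obtain ⟨x, hx⟩ : ∃ x, x = 1 - a := ⟨_, rfl⟩
          obtain ⟨y, hy⟩ : ∃ y, y = 1 - b := ⟨_, rfl⟩
          obtain ⟨z, hz⟩ : ∃ z, z = 1 - c := ⟨_, rfl⟩
          have ha : a = 1 - x := by linarith
          have hb : b = 1 - y := by linarith
          have hc : c = 1 - z := by linarith
          subst ha hb hc
          rw [show 1 - (1 - x) = x by ring] at e3
          rw [show 1 - (1 - y) = y by ring] at e1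
          rw [show 1 - (1 - z) = z by ring] at e2
          have x0 : 0 ≤ x := by linarith
          have y0 : 0 ≤ y := by linarith
          have z0 : 0 ≤ z := by linarith
          have : 0 ≤ x ^ 3 := by positivity
          have : 0 ≤ y ^ 3 := by positivity
          have : 0 ≤ z ^ 3 := by positivity
          nlinarith [mul_nonneg (by linarith : 0 ≤ 27 / 100 - x) (by linarith : 0 ≤ 27 / 100 - y),
            mul_nonneg (by linarith : 0 ≤ 27 / 100 - y) (by linarith : 0 ≤ 27 / 100 - z),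
            mul_nonneg (by linarith : 0 ≤ 27 / 100 - z) (by linarith : 0 ≤ 27 / 100 - x)]
  · -- `b + c ≥ 1`, `c + a ≤ 1`
    have := no_Y1 b1 c0 c1 a1 hbc hca hg gp kp hf.s.c
    linarith
  · exact no_Y1 a1 b0 b1 c1 hab hbc hf fp gp hk.s.c
  · exact no_Y1 a1 b0 b1 c1 hab hbc hf fp gp hk.s.c
  · -- `c + a ≥ 1`, `a + b ≤ 1`
    have := no_Y1 c1 a0 a1 b1 hca hab hk kp fp hg.s.c
    linarith
  · have := no_Y1 b1 c0 c1 a1 hbc hca hg gp kp hf.s.c
    linarith
  · have := no_Y1 c1 a0 a1 b1 hca hab hk kp fp hg.s.c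
    linarith
  · have lin : ∀ {t : ℝ}, 0 ≤ t → t ≤ 1 / 2 → PP t ≤ 17 / 50 * t := by
      intro t h0 h1
      unfold PP
      nlinarith [mul_nonneg h0 (sub_nonneg.2 h1), mul_nonneg (mul_nonneg h0 h0) h0]
    have one : ∀ {s t u : ℝ}, 1 / 2 ≤ s → s ≤ 1 → 0 ≤ t → t ≤ 1 - s → 0 ≤ u → u ≤ 1 - s →
        PP s + PP t + PP u ≤ 263 / 400 := by
      intro s t u h1 h2 h3 h4 h5 h6
      have e1 := lin h3 (by linarith)
      have e2 := lin h5 (by linarith)
      have e3 : PP s ≤ 179 / 375 * s := by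
        unfold PP
        nlinarith [mul_nonneg (by linarith : 0 ≤ s) (sub_nonneg.2 h2),
          mul_nonneg (mul_nonneg (by linarith : 0 ≤ s) (by linarith : 0 ≤ s)) (sub_nonneg.2 h2)]
      linarith
    rcases le_total a (1 / 2) with h1 | h1
    · rcases le_total b (1 / 2) with h2 | h2
      · rcases le_total c (1 / 2) with h3 | h3
        · have := lin a0 h1
          have := lin b0 h2
          have := lin c0 h3
          linarith
        · have := one h3 c1 a0 (by linarith) b0 (by linarith)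
          linarith
      · have := one h2 b1 a0 (by linarith) c0 (by linarith)
        linarith
    · have := one h1 a1 b0 (by linarith) c0 (by linarith)
      linarith

end Pool.Agent.Helper44.TS
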