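import Pool.Agent.Helper44.TS.Box

/-!
# The box search for three cells
-/

set_option autoImplicit false

namespace Pool.Agent.Helper44.TS

open Pool.Agent.Helper84.TS Pool.Agent.Helper36.TS

/-- branch and bound on a box with corners in units `1 / 128` -/
def srch (U : ℕ → ℕ → ℕ → ℕ → ℕ → ℕ → ℕ) (T : ℕ) : ℕ → ℕ → ℕ → ℕ → ℕ → ℕ → ℕ → Bool
  | 0, a, a', b, b', c, c' => Nat.ble (U a a' b b' c c') T
  | n + 1, a, a', b, b', c, c' => Nat.ble (U a a' b b' c c') T ||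
      (match n % 3 with
      | 0 => srch U T n a a' b b' c ((c + c') / 2) && srch U T n a a' b b' ((c + c') / 2) c'
      | 1 => srch U T n a a' b ((b + b') / 2) c c' && srch U T n a a' ((b + b') / 2) b' c c'
      | _ => srch U T n a ((a + a') / 2) b b' c c' && srch U T n ((a + a') / 2) a' b b' c c')

theorem mid_le {a a' : ℕ} {w : ℝ} (h1 : (a : ℝ) ≤ 128 * w) (h2 : 128 * w ≤ a') (h3 : a' ≤ 128) :
    (a + a') / 2 ≤ 128 := by
  have : (a : ℝ) ≤ a' := h1.trans h2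
  have : a ≤ a' := by exact_mod_cast this
  omega

theorem srch_sound {U : ℕ → ℕ → ℕ → ℕ → ℕ → ℕ → ℕ} {T : ℕ} {p q r F : ℝ}
    (hU : ∀ a a' b b' c c' : ℕ, (a : ℝ) ≤ 128 * p → 128 * p ≤ a' → a' ≤ 128 →
      (b : ℝ) ≤ 128 * q → 128 * q ≤ b' → b' ≤ 128 → (c : ℝ) ≤ 128 * r → 128 * r ≤ c' →
      c' ≤ 128 → F ≤ U a a' b b' c c') :
    ∀ (n a a' b b' c c' : ℕ), srch U T n a a' b b' c c' = true →
      (a : ℝ) ≤ 128 * p → 128 * p ≤ a' → a' ≤ 128 →
      (b : ℝ) ≤ 128 * q → 128 * q ≤ b' → b' ≤ 128 → (c : ℝ) ≤ 128 * r → 128 * r ≤ c' →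
      c' ≤ 128 → F ≤ T := by
  intro n
  induction n with
  | zero =>
    intro a a' b b' c c' h h1 h2 h3 h4 h5 h6 h7 h8 h9
    rw [srch] at h
    have e1 : U a a' b b' c c' ≤ T := Nat.le_of_ble_eq_true h
    have e2 : (U a a' b b' c c' : ℝ) ≤ T := by exact_mod_cast e1
    exact (hU a a' b b' c c' h1 h2 h3 h4 h5 h6 h7 h8 h9).trans e2
  | succ n ih =>
    intro a a' b b' c c' h h1 h2 h3 h4 h5 h6 h7 h8 h9
    rw [srch, Bool.or_eq_true] at h
    rcases h with h | h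
    · have e1 : U a a' b b' c c' ≤ T := Nat.le_of_ble_eq_true h
      have e2 : (U a a' b b' c c' : ℝ) ≤ T := by exact_mod_cast e1
      exact (hU a a' b b' c c' h1 h2 h3 h4 h5 h6 h7 h8 h9).trans e2
    · split at h
      · rw [Bool.and_eq_true] at h
        rcases le_total (128 * r) (((c + c') / 2 : ℕ) : ℝ) with hm | hm
        · exact ih a a' b b' c _ h.1 h1 h2 h3 h4 h5 h6 h7 hm (mid_le h7 h8 h9)
        · exact ih a a' b b' _ c' h.2 h1 h2 h3 h4 h5 h6 hm h8 h9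
      · rw [Bool.and_eq_true] at h
        rcases le_total (128 * q) (((b + b') / 2 : ℕ) : ℝ) with hm | hm
        · exact ih a a' b _ c c' h.1 h1 h2 h3 h4 hm (mid_le h4 h5 h6) h7 h8 h9
        · exact ih a a' _ b' c c' h.2 h1 h2 h3 hm h5 h6 h7 h8 h9
      · rw [Bool.and_eq_true] at h
        rcases le_total (128 * p) (((a + a') / 2 : ℕ) : ℝ) with hm | hm
        · exact ih a _ b b' c c' h.1 h1 hm (mid_le h1 h2 h3) h4 h5 h6 h7 h8 h9
        · exact ih _ a' b b' c c' h.2 hm h2 h3 h4 h5 h6 h7 h8 h9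

/-- types and caps (in units `1 / 128`, `256`: no cap) -/
structure Spec where
  t1 : Knd
  t2 : Knd
  t3 : Knd
  a1 : ℕ
  b1 : ℕ
  a2 : ℕ
  b2 : ℕ
  a3 : ℕ
  b3 : ℕ

/-- the bound on a box; `o1`: the first cell supported by the second one, `o2`: the first one by the
third one, `o3`: the second one by the third one -/
def UU (s : Spec) (o1 o2 o3 : Bool) (a a' b b' c c' : ℕ) : ℕ :=
  cell s.t1 a a' (mn s.a1 (bif o1 then 128 - b else 256)) (mn s.b1 (bif o2 then 128 - c else 256)) +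
  cell s.t2 b b' (mn s.a2 (bif o1 then 256 else 128 - a)) (mn s.b2 (bif o3 then 128 - c else 256)) +
  cell s.t3 c c' (mn s.a3 (bif o2 then 256 else 128 - a)) (mn s.b3 (bif o3 then 256 else 128 - b))

def srchO (s : Spec) (T n : ℕ) (o1 o2 o3 : Bool) : Bool :=
  srch (UU s o1 o2 o3) T n 0 128 0 128 0 128

def srchAll (s : Spec) (T n : ℕ) : Bool :=
  srchO s T n true true true && srchO s T n true true false && srchO s T n true false true &&
  srchO s T n true false false && srchO s T n false true true && srchO s T n false true false &&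
  srchO s T n false false true && srchO s T n false false false

theorem srchAll_iff {s : Spec} {T n : ℕ} (h : srchAll s T n = true) (o1 o2 o3 : Bool) :
    srchO s T n o1 o2 o3 = true := by
  unfold srchAll at h
  simp only [Bool.and_eq_true] at h
  obtain ⟨⟨⟨⟨⟨⟨⟨h1, h2⟩, h3⟩, h4⟩, h5⟩, h6⟩, h7⟩, h8⟩ := h
  cases o1 <;> cases o2 <;> cases o3 <;> assumption

/-- the facts about one cell (or no cell) -/
structure CB (τ : Knd) (ca cb : ℕ) (f w A B : ℝ) : Prop where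
  bd : ∀ l h x y : ℕ, (l : ℝ) ≤ 128 * w → 128 * w ≤ h → h ≤ 128 → 128 * A ≤ x → 128 * B ≤ y →
    402653184000 * f ≤ cell τ l h x y
  w0 : 0 ≤ w
  w1 : w ≤ 1
  ca : 128 * A ≤ ca
  cb : 128 * B ≤ cb
  A2 : A ≤ 2
  B2 : B ≤ 2

theorem CB.none (τ : Knd) (ca cb : ℕ) : CB τ ca cb 0 0 0 0 where
  bd l h x y _ _ _ _ _ := by
    rw [mul_zero]
    exact Nat.cast_nonneg _
  w0 := le_rfl
  w1 := zero_le_one
  ca := by
    rw [mul_zero]
    exact Nat.cast_nonneg _
  cb := by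
    rw [mul_zero]
    exact Nat.cast_nonneg _
  A2 := zero_le_two
  B2 := zero_le_two

theorem CB.some {τ : Knd} {ca cb : ℕ} {w A B : ℝ} (h : Dom w A B) (hτ : τ.Ok w A B)
    (hA : 128 * A ≤ ca) (hB : 128 * B ≤ cb) : CB τ ca cb (fAB w A B) w A B where
  bd _ _ _ _ h1 h2 h3 h4 h5 := cell_sound τ h hτ h1 h2 h3 h4 h5
  w0 := h.w0.le
  w1 := h.w1
  ca := hA
  cb := hB
  A2 := by linarith [h.B0, h.hi, h.w1]
  B2 := by linarith [h.A0, h.hi, h.w1]

theorem sup_cast {A w : ℝ} {b : ℕ} (h : A ≤ 1 - w) (hb : (b : ℝ) ≤ 128 * w) :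
    128 * A ≤ ((128 - b : ℕ) : ℝ) := by
  refine sub_cast ?_
  push_cast
  linarith

/-- the bound for a component -/
theorem comp_le {A w : ℝ} {b ca : ℕ} {o : Bool} (h1 : 128 * A ≤ ca) (h2 : A ≤ 2)
    (h3 : o = true → A ≤ 1 - w) (hb : (b : ℝ) ≤ 128 * w) :
    128 * A ≤ mn ca (bif o then 128 - b else 256) := by
  refine le_mn h1 ?_
  cases o with
  | true =>
    simp only [cond_true]
    exact sup_cast (h3 rfl) hb
  | false =>
    simp only [cond_false]
    push_cast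
    linarith

theorem comp_le' {A w : ℝ} {b ca : ℕ} {o : Bool} (h1 : 128 * A ≤ ca) (h2 : A ≤ 2)
    (h3 : o = false → A ≤ 1 - w) (hb : (b : ℝ) ≤ 128 * w) :
    128 * A ≤ mn ca (bif o then 256 else 128 - b) := by
  refine le_mn h1 ?_
  cases o with
  | true =>
    simp only [cond_true]
    push_cast
    linarith
  | false =>
    simp only [cond_false]
    exact sup_cast (h3 rfl) hb

theorem pick {A w A' w' : ℝ} (h : A ≤ 1 - w' ∨ A' ≤ 1 - w) :
    ∃ o : Bool, (o = true → A ≤ 1 - w') ∧ (o = false → A' ≤ 1 - w) := by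
  rcases h with h | h
  · exact ⟨true, fun _ => h, fun h' => absurd h' (by simp)⟩
  · exact ⟨false, fun h' => absurd h' (by simp), fun _ => h⟩

/-- **Three cells of one class.** The component `A1` is towards the second cell, `B1` towards the
third one, and so on. -/
theorem three_box (s : Spec) (T n : ℕ) (hc : srchAll s T n = true)
    {f1 w1 A1 B1 f2 w2 A2 B2 f3 w3 A3 B3 : ℝ}
    (h1 : CB s.t1 s.a1 s.b1 f1 w1 A1 B1) (h2 : CB s.t2 s.a2 s.b2 f2 w2 A2 B2)
    (h3 : CB s.t3 s.a3 s.b3 f3 w3 A3 B3)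
    (p12 : A1 ≤ 1 - w2 ∨ A2 ≤ 1 - w1) (p13 : B1 ≤ 1 - w3 ∨ A3 ≤ 1 - w1)
    (p23 : B2 ≤ 1 - w3 ∨ B3 ≤ 1 - w2) : 402653184000 * (f1 + f2 + f3) ≤ T := by
  obtain ⟨o1, q1, q1'⟩ := pick p12
  obtain ⟨o2, q2, q2'⟩ := pick p13
  obtain ⟨o3, q3, q3'⟩ := pick p23
  refine srch_sound (U := UU s o1 o2 o3) (p := w1) (q := w2) (r := w3) ?_ n 0 128 0 128 0 128
    (srchAll_iff hc o1 o2 o3) ?_ ?_ le_rfl ?_ ?_ le_rfl ?_ ?_ le_rfl
  · intro a a' b b' c c' ha ha' ha1 hb hb' hb1 hc hc' hc1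
    have e1 := h1.bd a a' _ _ ha ha' ha1 (comp_le (o := o1) h1.ca h1.A2 q1 hb)
      (comp_le (o := o2) h1.cb h1.B2 q2 hc)
    have e2 := h2.bd b b' _ _ hb hb' hb1 (comp_le' (o := o1) h2.ca h2.A2 q1' ha)
      (comp_le (o := o3) h2.cb h2.B2 q3 hc)
    have e3 := h3.bd c c' _ _ hc hc' hc1 (comp_le' (o := o2) h3.ca h3.A2 q2' ha)
      (comp_le' (o := o3) h3.cb h3.B2 q3' hb)
    unfold UU
    push_cast
    linarith
  · push_cast
    linarith [h1.w0]
  · push_cast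
    linarith [h1.w1]
  · push_cast
    linarith [h2.w0]
  · push_cast
    linarith [h2.w1]
  · push_cast
    linarith [h3.w0]
  · push_cast
    linarith [h3.w1]

end Pool.Agent.Helper44.TS
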