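import Pool.Agent.Helper44.TS.Class

/-!
# The gains of the far cells of one class without main cell

For a class `a` the gain `Γ z` of its far cell in the column `z` is bounded by functions of `w` and of
the two caps of the cell; then the sum of the three gains is bounded.
-/

set_option autoImplicit false

namespace Pool.Agent.Helper44.TS

open Pool.Agent.Helper84.TS Pool.Agent.Helper36.TS

/-- the bounds for the gain `Γ` of the far cell `C` of the class `a` in the column `z`; the number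
`C o + (C a - 1)` is the cap of `C` on the third row, and the cell `(a; o)` has `w` at most this
number if `C` supports it -/
structure Gn (φ : Fin 4 → ℝ → ℝ) (B : Fin 4 → ℝ → ℝ → ℝ) (g τ : ℝ) (a z : Fin 4)
    (C : Fin 4 → ℝ) (Γ : ℝ) : Prop where
  G1 : Γ ≤ φ z (2 + C z)
  G2 : ∀ o, o ≠ a → o ≠ z → 0 ≤ C o + (C a - 1) → Γ + φ o (C o + (C a - 1)) ≤ g
  G3 : ∀ o p, [a, z, o, p].Nodup → 0 ≤ C o + (C a - 1) → 0 ≤ C p + (C a - 1) →
    Γ + φ o (C o + (C a - 1)) + φ p (C p + (C a - 1)) ≤ g + τ ∨ Γ ≤ τ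
  G4 : ∀ o c, o ≠ a → o ≠ z → 0 ≤ c → c ≤ C o + (C a - 1) → Γ ≤ B z (2 + C z) c

section

variable {A : Fin 4 → Fin 4 → Option (Fin 4 → ℝ)} {φ : Fin 4 → ℝ → ℝ} {B : Fin 4 → ℝ → ℝ → ℝ}
  {g τ : ℝ} {a : Fin 4}

/-- one gain -/
theorem gain_one (φ0 : ∀ z, z ≠ a → ∀ w, 0 ≤ w → w ≤ 1 → 0 ≤ φ z w) (h : OF A) {z : Fin 4}
    {C : Fin 4 → ℝ} {Γ : ℝ} (hz : z ≠ a) (hC : A a z = some C) (hG : Gn φ B g τ a z C Γ) :
    Γ ≤ g := by
  obtain ⟨o, p, hn⟩ := exists_rest2 hz.symm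
  have n := nodup_ne hn
  have ho : o ≠ z := (nodup_jk hn).symm
  have hp : p ≠ z := (nodup_jl hn).symm
  have d := far_dom (h.cell a z C hC) hn (h.far a z C hz hC).le
  have d1 := d.w1
  have d2 := d.A0
  have d3 := d.B0
  have d4 := d.hi
  rcases le_total 0 (C o + (C a - 1)) with h1 | h1
  · have := hG.G2 o n.2.1 ho h1
    have := φ0 o n.2.1 _ h1 (by linarith)
    linarith
  · have h2 : 0 ≤ C p + (C a - 1) := by linarith
    have := hG.G2 p n.2.2 hp h2
    have := φ0 p n.2.2 _ h2 (by linarith)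
    linarith

/-- two gains, the cell in the column `z` supports the one in the column `o` -/
theorem gain_sup (mono : ∀ z, z ≠ a → ∀ u v, 0 ≤ u → u ≤ v → v ≤ 1 → φ z u ≤ φ z v) (h : OF A)
    {z o p : Fin 4} (hn : [a, z, o, p].Nodup) {C D : Fin 4 → ℝ} {Δ : ℝ}
    (hC : A a z = some C) (hD : A a o = some D) (hG' : Δ ≤ φ o (2 + D o))
    (e : 2 + D o ≤ C o + (C a - 1)) : 0 ≤ C o + (C a - 1) ∧ Δ ≤ φ o (C o + (C a - 1)) := by
  have n := nodup_ne hn
  have d := far_dom (h.cell a z C hC) hn (h.far a z C n.1 hC).le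
  have w := far_W (h.cell a o D hD) n.2.1 (h.far a o D n.2.1 hD)
  have d2 := d.A0
  refine ⟨by linarith [w.1], hG'.trans (mono o n.2.1 _ _ w.1 e (by linarith))⟩

/-- two gains -/
theorem gain_two (mono : ∀ z, z ≠ a → ∀ u v, 0 ≤ u → u ≤ v → v ≤ 1 → φ z u ≤ φ z v) (h : OF A)
    {z o p : Fin 4} (hn : [a, z, o, p].Nodup) {C D : Fin 4 → ℝ} {Γ Δ : ℝ}
    (hC : A a z = some C) (hD : A a o = some D) (hG : Gn φ B g τ a z C Γ)
    (hG' : Gn φ B g τ a o D Δ) : Γ + Δ ≤ g := by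
  have n := nodup_ne hn
  have hzo := nodup_jk hn
  rcases sup_pair (h.cell a z C hC) (h.cell a o D hD) (sep' h hzo hC hD) n.1 n.2.1
    (h.far a z C n.1 hC) (h.far a o D n.2.1 hD) with e | e
  · have s := gain_sup mono h hn hC hD hG'.G1 e
    have := hG.G2 o n.2.1 hzo.symm s.1
    linarith [s.2]
  · have s := gain_sup mono h (perm_jk hn) hD hC hG.G1 e
    have := hG'.G2 z n.1 hzo s.1
    linarith [s.2]

/-- three gains, the cell in the column `z` supports both others -/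
theorem gain_tra (mono : ∀ z, z ≠ a → ∀ u v, 0 ≤ u → u ≤ v → v ≤ 1 → φ z u ≤ φ z v) (h : OF A)
    {z o p : Fin 4} (hn : [a, z, o, p].Nodup) {C D E : Fin 4 → ℝ} {Γ Δ Θ : ℝ}
    (hC : A a z = some C) (hD : A a o = some D) (hE : A a p = some E) (hG : Gn φ B g τ a z C Γ)
    (hG' : Gn φ B g τ a o D Δ) (hG'' : Gn φ B g τ a p E Θ) (hτ : τ < Γ)
    (e : 2 + D o ≤ C o + (C a - 1)) (e' : 2 + E p ≤ C p + (C a - 1)) : Γ + Δ + Θ ≤ g + τ := by
  have s := gain_sup mono h hn hC hD hG'.G1 e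
  have s' := gain_sup mono h (perm_kl hn) hC hE hG''.G1 e'
  rcases hG.G3 o p hn s.1 s'.1 with h1 | h1
  · linarith [s.2, s'.2]
  · linarith

/-- **The gains of the three far cells of one class.** -/
theorem side (h : OF A) {x y t : Fin 4} (hn : [a, x, y, t].Nodup) {Γ : Fin 4 → ℝ} (τ0 : 0 ≤ τ)
    (g0 : 0 ≤ g) (φ0 : ∀ z, z ≠ a → ∀ w, 0 ≤ w → w ≤ 1 → 0 ≤ φ z w)
    (mono : ∀ z, z ≠ a → ∀ u v, 0 ≤ u → u ≤ v → v ≤ 1 → φ z u ≤ φ z v)
    (hN : ∀ z, z ≠ a → A a z = none → Γ z ≤ 0)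
    (hG : ∀ z C, z ≠ a → A a z = some C → Gn φ B g τ a z C (Γ z))
    (cyc1 : ∀ u v w, 0 ≤ u → u ≤ 1 → 0 ≤ v → v ≤ 1 → 0 ≤ w → w ≤ 1 →
      B x u v + B y v w + B t w u ≤ g + τ)
    (cyc2 : ∀ u v w, 0 ≤ u → u ≤ 1 → 0 ≤ v → v ≤ 1 → 0 ≤ w → w ≤ 1 →
      B x u w + B t w v + B y v u ≤ g + τ) : Γ x + Γ y + Γ t ≤ g + τ := by
  have n := nodup_ne hn
  have hxy := nodup_jk hn
  have hxt := nodup_jl hn
  have hyt := nodup_jk (perm_jk hn |> perm_kl)
  have hyt' : y ≠ t := hyt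
  have one : ∀ z C, z ≠ a → A a z = some C → Γ z ≤ g := fun z C hz hC =>
    gain_one φ0 h hz hC (hG z C hz hC)
  have two : ∀ z o p C D, [a, z, o, p].Nodup → A a z = some C → A a o = some D →
      Γ z + Γ o ≤ g := fun z o p C D hn' hC hD =>
    gain_two mono h hn' hC hD (hG z C (nodup_ne hn').1 hC) (hG o D (nodup_ne hn').2.1 hD)
  rcases hx : A a x with _ | C <;> rcases hy : A a y with _ | D <;> rcases ht : A a t with _ | E
  · linarith [hN x n.1 hx, hN y n.2.1 hy, hN t n.2.2 ht]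
  · linarith [hN x n.1 hx, hN y n.2.1 hy, one t E n.2.2 ht]
  · linarith [hN x n.1 hx, one y D n.2.1 hy, hN t n.2.2 ht]
  · linarith [hN x n.1 hx, two y t x D E (perm_kl (perm_jk hn)) hy ht]
  · linarith [one x C n.1 hx, hN y n.2.1 hy, hN t n.2.2 ht]
  · linarith [two x t y C E (perm_kl hn) hx ht, hN y n.2.1 hy]
  · linarith [two x y t C D hn hx hy, hN t n.2.2 ht]
  · have t1 := two x y t C D hn hx hy
    have t2 := two x t y C E (perm_kl hn) hx ht
    have t3 := two y t x D E (perm_kl (perm_jk hn)) hy ht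
    have gx := hG x C n.1 hx
    have gy := hG y D n.2.1 hy
    have gt := hG t E n.2.2 ht
    have wx := far_W (h.cell a x C hx) n.1 (h.far a x C n.1 hx)
    have wy := far_W (h.cell a y D hy) n.2.1 (h.far a y D n.2.1 hy)
    have wt := far_W (h.cell a t E ht) n.2.2 (h.far a t E n.2.2 ht)
    by_cases h1 : Γ x ≤ τ
    · linarith
    by_cases h2 : Γ y ≤ τ
    · linarith
    by_cases h3 : Γ t ≤ τ
    · linarith
    rw [not_le] at h1 h2 h3
    rcases sup_pair (h.cell a x C hx) (h.cell a y D hy) (sep' h hxy hx hy) n.1 n.2.1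
      (h.far a x C n.1 hx) (h.far a y D n.2.1 hy) with a1 | a1 <;>
    rcases sup_pair (h.cell a y D hy) (h.cell a t E ht) (sep' h hyt' hy ht) n.2.1 n.2.2
      (h.far a y D n.2.1 hy) (h.far a t E n.2.2 ht) with b1 | b1 <;>
    rcases sup_pair (h.cell a x C hx) (h.cell a t E ht) (sep' h hxt hx ht) n.1 n.2.2
      (h.far a x C n.1 hx) (h.far a t E n.2.2 ht) with c1 | c1
    · exact gain_tra mono h hn hx hy ht gx gy gt h1 a1 c1
    · have k1 := gx.G4 y _ n.2.1 hxy.symm wy.1 a1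
      have k2 := gy.G4 t _ n.2.2 hyt'.symm wt.1 b1
      have k3 := gt.G4 x _ n.1 hxt wx.1 c1
      have := cyc1 (2 + C x) (2 + D y) (2 + E t) wx.1 wx.2 wy.1 wy.2 wt.1 wt.2
      linarith
    · exact gain_tra mono h hn hx hy ht gx gy gt h1 a1 c1
    · have := gain_tra mono h (perm_jl hn) ht hx hy gt gx gy h3 c1 b1
      linarith
    · have := gain_tra mono h (perm_jk hn) hy hx ht gy gx gt h2 a1 b1
      linarith
    · have := gain_tra mono h (perm_jk hn) hy hx ht gy gx gt h2 a1 b1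
      linarith
    · have k1 := gx.G4 t _ n.2.2 hxt.symm wt.1 c1
      have k2 := gt.G4 y _ n.2.1 hyt' wy.1 b1
      have k3 := gy.G4 x _ n.1 hxy wx.1 a1
      have := cyc2 (2 + C x) (2 + D y) (2 + E t) wx.1 wx.2 wy.1 wy.2 wt.1 wt.2
      linarith
    · have := gain_tra mono h (perm_jl hn) ht hx hy gt gx gy h3 c1 b1
      linarith

end

end Pool.Agent.Helper44.TS
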