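import Pool.Agent.Helper44.TS.Class

/-!
# Of two cells of one class at least one is small
-/

set_option autoImplicit false

namespace Pool.Agent.Helper44.TS

open Pool.Agent.Helper84.TS Pool.Agent.Helper36.TS

section

variable {A : Fin 4 → Fin 4 → Option (Fin 4 → ℝ)}

/-- a far cell in a class of value more than `18/25` is small -/
theorem far_small (h : OF A) {i j : Fin 4} (hj : j ≠ i) {F : Fin 4 → ℝ} (hF : A i j = some F)
    (hV : 18 / 25 < VV A i) : 2 + F j ≤ 16 / 25 ∧ fcl i F < 9 / 25 := by
  have h1 := vv_far h hj hF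
  have h2 := h.far i j F hj hF
  obtain ⟨k, l, hn⟩ := exists_rest2 hj.symm
  have hc := h.cell i j F hF
  have h3 := far_le hc hn (by linarith)
  have h4 := cell_lin hc hn
  set w := 2 + F j with hw
  have w0 : 0 ≤ w := by linarith
  have w1 : w < 1 := by linarith
  have hw2 : w ≤ 16 / 25 := by
    rcases le_max_iff.1 h1 with h5 | h5
    · linarith
    · by_contra h6
      push Not at h6
      nlinarith [mul_pos (by linarith : 0 < w - 16 / 25) (by linarith : 0 < 1 - w),
        mul_nonneg w0 (mul_pos (by linarith : 0 < w - 16 / 25) (by linarith : 0 < 1 - w)).le]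
  refine ⟨hw2, lt_of_le_of_lt h3 ?_⟩
  nlinarith [mul_nonneg w0 (by linarith : 0 ≤ 16 / 25 - w),
    mul_nonneg (mul_nonneg w0 w0) (by linarith : 0 ≤ 16 / 25 - w)]

/-- a subfamily of a family is a family -/
theorem OF_sub (h : OF A) {B : Fin 4 → Fin 4 → Option (Fin 4 → ℝ)}
    (hB : ∀ a b v, B a b = some v → A a b = some v) : OF B :=
  ⟨fun i j v hv => h.cell i j v (hB i j v hv), fun i v hv => h.main i v (hB i i v hv),
    fun i j v hj hv => h.far i j v hj (hB i j v hv),
    fun i j i' j' v w hv hw hne => h.sep i j i' j' v w (hB i j v hv) (hB i' j' w hw) hne⟩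

theorem small_cell (h : OF A) {i j k : Fin 4} (hjk : j ≠ k) {u v : Fin 4 → ℝ}
    (hu : A i j = some u) (hv : A i k = some v) (hle : fcl i u ≤ fcl i v) : fcl i u ≤ 9 / 25 := by
  classical
  by_contra hcon
  push Not at hcon
  obtain ⟨B, hBd⟩ : ∃ B : Fin 4 → Fin 4 → Option (Fin 4 → ℝ),
      B = fun a b => if a = i ∧ (b = j ∨ b = k) then A a b else none := ⟨_, rfl⟩
  have hB : ∀ a b w, B a b = some w → A a b = some w := by
    intro a b w hw
    rw [hBd] at hw
    simp only at hw
    split_ifs at hw with hc
    exact hw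
  have hOB := OF_sub h hB
  have hBj : B i j = some u := by rw [hBd]; simp [hu]
  have hBk : B i k = some v := by rw [hBd]; simp [hv]
  have hBo : ∀ b, b ≠ j → b ≠ k → B i b = none := by
    intro b h1 h2
    rw [hBd]
    simp [h1, h2]
  have hsum : VV B i = fcl i u + fcl i v := by
    have h1 : ∑ m ∈ ({j, k} : Finset (Fin 4)), fo i (B i m) = VV B i := by
      refine Finset.sum_subset (Finset.subset_univ _) fun m _ hm => ?_
      simp only [Finset.mem_insert, Finset.mem_singleton, not_or] at hm
      rw [hBo m hm.1 hm.2]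
      rfl
    rw [Finset.sum_pair hjk, hBj, hBk] at h1
    rw [← h1]
    simp only [fo]
  have hV : 18 / 25 < VV B i := by linarith
  by_cases hj : j = i
  · have hk : k ≠ i := by rintro rfl; exact hjk hj
    have := (far_small hOB hk hBk hV).2
    linarith
  · have := (far_small hOB hj hBj hV).2
    linarith

end

end Pool.Agent.Helper44.TS
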