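import Pool.Agent.Helper44.TS.ClassBox
import Pool.Agent.Helper44.TS.ThreeR2

/-!
# Classes with a main cell with `d < 3/5` and a far cell with `w > 13/20`
-/

set_option autoImplicit false

namespace Pool.Agent.Helper44.TS

open Pool.Agent.Helper84.TS Pool.Agent.Helper36.TS

/-- the exact volume of a main cell with a positive entry -/
theorem main_sup_e {i j k l : Fin 4} {v : Fin 4 → ℝ} (hv : IsCell i v)
    (h : [i, j, k, l].Nodup) (hm : ∀ m, m ≠ i → -v m ≤ 1) (h0 : 0 ≤ v j) :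
    fcl i v = HH (v j + (v i - 1)) -
      (v i - 1) * ((1 - (v j + (v i - 1))) * (5 - (v j + (v i - 1)))) / 4 -
      (1 - (v i - 1)) * (v k + (1 + (v j + (v i - 1))) / 2) ^ 2 := by
  obtain ⟨a1, a2, a3, a4, a5, a6, a7, a8, a9⟩ := cell_lin hv h
  obtain ⟨b1, b2, b3⟩ := main_ent h hm
  have hk0 : v k ≤ 0 := by linarith
  have hl0 : v l ≤ 0 := by linarith
  rw [main_f h hm, max_eq_right hk0, max_eq_right hl0, max_eq_left h0]
  obtain ⟨d, hd⟩ : ∃ d, d = v i - 1 := ⟨_, rfl⟩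
  obtain ⟨r, hr⟩ : ∃ r, r = v j := ⟨_, rfl⟩
  rw [← hd, ← hr]
  have e : v l = -(1 + d + r + v k) := by rw [hd, hr]; linarith
  rw [e]
  unfold HH
  ring

variable {A : Fin 4 → Fin 4 → Option (Fin 4 → ℝ)}

/-- a tall class -/
structure TC (A : Fin 4 → Fin 4 → Option (Fin 4 → ℝ)) (i m : Fin 4) (M F : Fin 4 → ℝ) : Prop where
  hM : A i i = some M
  hd : M i - 1 < 3 / 5
  ne : m ≠ i
  hF : A i m = some F
  hw : 13 / 20 < 2 + F m

/-- the numbers of a tall class: `t`, `d`, `w` and the volumes -/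
structure TN (A : Fin 4 → Fin 4 → Option (Fin 4 → ℝ)) (i m x y : Fin 4) (M F : Fin 4 → ℝ) : Prop where
  w1 : 2 + F m ≤ 1
  wt : 2 + F m ≤ M m + (M i - 1)
  t1 : M m + (M i - 1) ≤ 1
  d0 : 0 ≤ M i - 1
  m0 : 0 ≤ M m
  x1 : -M x ≤ 1
  y1 : -M y ≤ 1
  xy : M x + M y = -(1 + (M m + (M i - 1)))
  vv : VV A i = fcl i M + fcl i F
  fM : fcl i M = HH (M m + (M i - 1)) -
      (M i - 1) * ((1 - (M m + (M i - 1))) * (5 - (M m + (M i - 1)))) / 4 -
      (1 - (M i - 1)) * (M x + (1 + (M m + (M i - 1))) / 2) ^ 2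

theorem TC.nums (h : OF A) {i m x y : Fin 4} {M F : Fin 4 → ℝ} (hc : TC A i m M F)
    (hn : [i, m, x, y].Nodup) : TN A i m x y M F := by
  have n := nodup_ne hn
  have cM := h.cell i i M hc.hM
  have mM := h.main i M hc.hM
  have cF := h.cell i m F hc.hF
  have fF := h.far i m F hc.ne hc.hF
  have w := far_W cF hc.ne fF
  have ow := own' cM cF (sep' h hc.ne.symm hc.hM hc.hF) hc.ne mM fF
  have aM := cell_lin cM hn
  have eM := main_ent hn mM
  have hd := hc.hd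
  have hw := hc.hw
  have m0 : 0 ≤ M m := by linarith
  have none_x : ∀ {p q : Fin 4}, [i, m, p, q].Nodup → A i p = none := by
    intro p q hpq
    have np := nodup_ne hpq
    rcases hG : A i p with _ | G
    · rfl
    · exfalso
      have cG := h.cell i p G hG
      have fG := h.far i p G np.2.1 hG
      have wG := far_W cG np.2.1 fG
      have oG := own' cM cG (sep' h np.2.1.symm hc.hM hG) np.2.1 mM fG
      have aM' := cell_lin cM hpq
      have eM' := main_ent hpq mM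
      linarith
  refine ⟨w.2, ow, by linarith, by linarith, m0, eM.2.1, eM.2.2, by linarith, ?_, ?_⟩
  · rw [VV_eq hn, hc.hM, hc.hF, none_x hn, none_x (perm_kl hn)]
    simp only [fo]
    ring
  · exact main_sup_e cM hn mM m0

/-- `HH t + bb t` -/
theorem psi_le {t : ℝ} (h0 : 13 / 20 ≤ t) (h1 : t ≤ 1) :
    HH t + bb t ≤ 1793 / 2500 - 23 / 100 * (t - 13 / 20) + 23 / 50 * (t - 13 / 20) ^ 2 := by
  unfold HH bb
  nlinarith [mul_nonneg (sub_nonneg.2 h0) (sub_nonneg.2 h1),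
    mul_nonneg (mul_nonneg (sub_nonneg.2 h0) (sub_nonneg.2 h1)) (sub_nonneg.2 h0)]

theorem TN.le_bb (h : OF A) {i m x y : Fin 4} {M F : Fin 4 → ℝ} (hc : TC A i m M F)
    (ht : TN A i m x y M F) : fcl i F ≤ bb (M m + (M i - 1)) := by
  have cF := h.cell i m F hc.hF
  have fF := h.far i m F hc.ne hc.hF
  exact (far_bb' cF hc.ne fF).trans (bb_mono (by linarith [hc.hw]) ht.wt ht.t1)

theorem star_d {t d y : ℝ} (t0 : 13 / 20 ≤ t) (t1 : t ≤ 1) (d1 : d ≤ 3 / 5)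
    (hV : 3403 / 5000 < HH t - d * ((1 - t) * (5 - t)) / 4 - (1 - d) * y ^ 2 + bb t) :
    d < 1 / 10 := by
  by_contra hd
  push Not at hd
  have e1 : 0 ≤ (1 - d) * y ^ 2 := mul_nonneg (by linarith) (sq_nonneg _)
  have e2 : 0 ≤ (d - 1 / 10) * ((1 - t) * (5 - t)) :=
    mul_nonneg (by linarith) (mul_nonneg (by linarith) (by linarith))
  have e3 : HH t + bb t - 1 / 10 * ((1 - t) * (5 - t)) / 4 ≤ 3403 / 5000 := by
    unfold HH bb
    nlinarith [mul_nonneg (sub_nonneg.2 t0) (sub_nonneg.2 t1),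
      mul_nonneg (mul_nonneg (sub_nonneg.2 t0) (sub_nonneg.2 t1)) (sub_nonneg.2 t0)]
  linarith

theorem star_x {t d m : ℝ} (t0 : 13 / 20 ≤ t) (t1 : t ≤ 1) (d0 : 0 ≤ d) (d1 : d ≤ 3 / 5)
    (hm : m ≤ -t)
    (hV : 3403 / 5000 < HH t - d * ((1 - t) * (5 - t)) / 4 - (1 - d) * (m + (1 + t) / 2) ^ 2
      + bb t) : 1 + m + d ≤ 19 / 50 := by
  have hd := star_d t0 t1 d1 hV
  by_contra hx
  push Not at hx
  have hp := psi_le t0 t1
  obtain ⟨s, hs⟩ : ∃ s, s = t - 13 / 20 := ⟨_, rfl⟩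
  obtain ⟨z, hz⟩ : ∃ z, z = 41 / 200 + s / 2 - d := ⟨_, rfl⟩
  have ht : t = s + 13 / 20 := by linarith
  have s0 : 0 ≤ s := by linarith
  have s1 : s ≤ 7 / 100 := by linarith
  have hds : d = 41 / 200 + s / 2 - z := by linarith
  have z0 : 0 ≤ z := by linarith
  have hy : z ≤ m + (1 + t) / 2 := by linarith
  have z1 : z ≤ 7 / 40 - s / 2 := by linarith
  have e1 : z ^ 2 ≤ (m + (1 + t) / 2) ^ 2 := pow_le_pow_left₀ z0 hy 2
  have e2 : 9 / 10 * z ^ 2 ≤ (1 - d) * (m + (1 + t) / 2) ^ 2 := by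
    have h1 : 9 / 10 * z ^ 2 ≤ 9 / 10 * (m + (1 + t) / 2) ^ 2 := by linarith
    have h2 : 9 / 10 * (m + (1 + t) / 2) ^ 2 ≤ (1 - d) * (m + (1 + t) / 2) ^ 2 :=
      mul_le_mul_of_nonneg_right (by linarith) (sq_nonneg _)
    linarith
  have e3 : d * (1522 / 1000) - 47 / 100 * s ≤ d * ((1 - t) * (5 - t)) := by
    rw [ht]
    nlinarith [mul_nonneg s0 (by linarith : 0 ≤ 1 / 10 - d), mul_nonneg d0 (mul_nonneg s0 s0)]
  have e4 : s ^ 2 ≤ 7 / 100 * s := by nlinarith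
  rw [← hs] at hp
  have e5 : 0 ≤ (7 / 40 - s / 2 - z) * (1 / 5) := by linarith
  nlinarith [mul_nonneg z0 (by linarith : 0 ≤ 7 / 40 - s / 2 - z)]

theorem star_q {t d m : ℝ} (t0 : 13 / 20 ≤ t) (t1 : t ≤ 1) (d0 : 0 ≤ d) (d1 : d ≤ 3 / 5)
    (hV : 3519 / 5000 < HH t - d * ((1 - t) * (5 - t)) / 4 - (1 - d) * (m + (1 + t) / 2) ^ 2
      + bb t) : -m ≤ 19 / 20 := by
  by_contra hx
  push Not at hx
  have hp := psi_le t0 t1
  obtain ⟨s, hs⟩ : ∃ s, s = t - 13 / 20 := ⟨_, rfl⟩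
  have ht : t = s + 13 / 20 := by linarith
  have s0 : 0 ≤ s := by linarith
  rw [← hs] at hp
  have e0 : 0 ≤ (1 - d) * (m + (1 + t) / 2) ^ 2 := mul_nonneg (by linarith) (sq_nonneg _)
  have e1 : 0 ≤ d * ((1 - t) * (5 - t)) :=
    mul_nonneg d0 (mul_nonneg (by linarith) (by linarith))
  have s1 : s ≤ 7 / 100 := by
    by_contra hcon
    push Not at hcon
    have : s ≤ 7 / 20 := by linarith
    nlinarith [mul_nonneg (by linarith : 0 ≤ s - 7 / 100) (by linarith : 0 ≤ 7 / 20 - s)]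
  have z0 : 0 ≤ 1 / 8 - s / 2 := by linarith
  have hy : 1 / 8 - s / 2 ≤ -(m + (1 + t) / 2) := by linarith
  have e2 : (1 / 8 - s / 2) ^ 2 ≤ (m + (1 + t) / 2) ^ 2 := by
    have := pow_le_pow_left₀ z0 hy 2
    nlinarith
  have e3 : (1 - d) * (1 / 8 - s / 2) ^ 2 ≤ (1 - d) * (m + (1 + t) / 2) ^ 2 :=
    mul_le_mul_of_nonneg_left e2 (by linarith)
  have e4 : d * (1 / 8 - s / 2) ^ 2 ≤ d * ((1 - t) * (5 - t)) / 4 := by
    have : (1 / 8 - s / 2) ^ 2 ≤ (1 - t) * (5 - t) / 4 := by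
      rw [ht]
      nlinarith
    have := mul_le_mul_of_nonneg_left this d0
    linarith
  nlinarith

/-- `V ≤ .7172` for a tall class -/
theorem TC.le (h : OF A) {i m : Fin 4} {M F : Fin 4 → ℝ} (hc : TC A i m M F) :
    VV A i ≤ 1793 / 2500 := by
  obtain ⟨x, y, hn⟩ := exists_rest2 hc.ne.symm
  have ht := hc.nums h hn
  have e1 := TN.le_bb h hc ht
  have e2 := ht.fM
  have e3 := ht.vv
  have t0 : 13 / 20 ≤ M m + (M i - 1) := by linarith [hc.hw, ht.wt]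
  have e4 := psi_le t0 ht.t1
  have e5 : 0 ≤ (M i - 1) * ((1 - (M m + (M i - 1))) * (5 - (M m + (M i - 1)))) :=
    mul_nonneg ht.d0 (mul_nonneg (by linarith [ht.t1]) (by linarith [ht.t1]))
  have e6 : 0 ≤ (1 - (M i - 1)) * (M x + (1 + (M m + (M i - 1))) / 2) ^ 2 :=
    mul_nonneg (by linarith [hc.hd]) (sq_nonneg _)
  nlinarith [mul_nonneg (by linarith : 0 ≤ M m + (M i - 1) - 13 / 20)
    (by linarith [ht.t1] : 0 ≤ 1 - (M m + (M i - 1)))]

/-- a tall class without owner -/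
theorem TC.no (h : OF A) {i m : Fin 4} {M F : Fin 4 → ℝ} (hc : TC A i m M F)
    (ho : ¬ Ow i m F) : VV A i ≤ 31 / 50 := by
  obtain ⟨x, y, hn⟩ := exists_rest2 hc.ne.symm
  have ht := hc.nums h hn
  have e1 := (far_p (h.cell i m F hc.hF) hc.ne (h.far i m F hc.ne hc.hF) ho).trans
    (PP_mono (by linarith [hc.hw]) ht.wt ht.t1)
  have e2 := ht.fM
  have e3 := ht.vv
  have t0 : 13 / 20 ≤ M m + (M i - 1) := by linarith [hc.hw, ht.wt]
  have t1 := ht.t1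
  have e5 : 0 ≤ (M i - 1) * ((1 - (M m + (M i - 1))) * (5 - (M m + (M i - 1)))) :=
    mul_nonneg ht.d0 (mul_nonneg (by linarith [ht.t1]) (by linarith [ht.t1]))
  have e6 : 0 ≤ (1 - (M i - 1)) * (M x + (1 + (M m + (M i - 1))) / 2) ^ 2 :=
    mul_nonneg (by linarith [hc.hd]) (sq_nonneg _)
  obtain ⟨t, htt⟩ : ∃ t, t = M m + (M i - 1) := ⟨_, rfl⟩
  rw [← htt] at e1 e2 t0 t1 e5 e6
  have e4 : HH t + PP t ≤ 31 / 50 := by
    unfold HH PP
    nlinarith [mul_nonneg (sub_nonneg.2 t0) (sub_nonneg.2 t1),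
      mul_nonneg (mul_nonneg (sub_nonneg.2 t0) (sub_nonneg.2 t1)) (sub_nonneg.2 t0)]
  linarith

/-- a tall class with a small component of the far cell -/
theorem TC.cap (h : OF A) {i m x y : Fin 4} {M F : Fin 4 → ℝ} (hc : TC A i m M F)
    (hn : [i, m, x, y].Nodup) (hC : 1 - (F y + (F i - 1)) ≤ 19 / 50) : VV A i ≤ 3 / 5 := by
  have ht := hc.nums h hn
  have cF := h.cell i m F hc.hF
  have fF := h.far i m F hc.ne hc.hF
  have e1 : fcl i F ≤ (2 + F m) * (19 / 50) - (19 / 50) ^ 3 / 3 := by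
    rw [far_AB cF hn fF.le]
    exact fAB_w (far_dom cF hn fF.le) hC (by linarith [hc.hw])
  have e2 := ht.fM
  have e3 := ht.vv
  have t0 : 13 / 20 ≤ M m + (M i - 1) := by linarith [hc.hw, ht.wt]
  have t1 := ht.t1
  have wt := ht.wt
  have e5 : 0 ≤ (M i - 1) * ((1 - (M m + (M i - 1))) * (5 - (M m + (M i - 1)))) :=
    mul_nonneg ht.d0 (mul_nonneg (by linarith [ht.t1]) (by linarith [ht.t1]))
  have e6 : 0 ≤ (1 - (M i - 1)) * (M x + (1 + (M m + (M i - 1))) / 2) ^ 2 :=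
    mul_nonneg (by linarith [hc.hd]) (sq_nonneg _)
  obtain ⟨t, htt⟩ : ∃ t, t = M m + (M i - 1) := ⟨_, rfl⟩
  rw [← htt] at e2 t0 t1 e5 e6 wt
  have e4 : HH t + (t * (19 / 50) - (19 / 50) ^ 3 / 3) ≤ 3 / 5 := by
    unfold HH
    nlinarith [mul_nonneg (sub_nonneg.2 t0) (sub_nonneg.2 t1),
      mul_nonneg (mul_nonneg (sub_nonneg.2 t0) (sub_nonneg.2 t1)) (sub_nonneg.2 t0)]
  linarith

end Pool.Agent.Helper44.TS
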