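import Pool.Agent.Helper44.TS.Tall

/-!
# A tall class and the cells of the other classes
-/

set_option autoImplicit false

namespace Pool.Agent.Helper44.TS

open Pool.Agent.Helper84.TS Pool.Agent.Helper36.TS

variable {A : Fin 4 → Fin 4 → Option (Fin 4 → ℝ)}

/-- the only far cell of a tall class -/
theorem TC.only (h : OF A) {i m : Fin 4} {M F : Fin 4 → ℝ} (hc : TC A i m M F) {p : Fin 4}
    {G : Fin 4 → ℝ} (hp : p ≠ i) (hG : A i p = some G) : p = m := by
  by_contra hpm
  obtain ⟨q, hn⟩ := exists_rest1 (i := i) (j := m) (k := p)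
    (by simp [hc.ne.symm, hp.symm, Ne.symm hpm])
  have n := nodup_ne hn
  have cM := h.cell i i M hc.hM
  have mM := h.main i M hc.hM
  have cF := h.cell i m F hc.hF
  have fF := h.far i m F hc.ne hc.hF
  have w := far_W cF hc.ne fF
  have ow := own' cM cF (sep' h hc.ne.symm hc.hM hc.hF) hc.ne mM fF
  have cG := h.cell i p G hG
  have fG := h.far i p G hp hG
  have wG := far_W cG hp fG
  have oG := own' cM cG (sep' h hp.symm hc.hM hG) hp mM fG
  have aM := cell_lin cM hn
  have eM := main_ent hn mM
  have hd := hc.hd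
  have hw := hc.hw
  linarith

/-- the two other entries of the main cell are at least `13/20` -/
theorem TN.big (h : OF A) {i m x y : Fin 4} {M F : Fin 4 → ℝ} (hc : TC A i m M F)
    (hn : [i, m, x, y].Nodup) : 13 / 20 < -M x ∧ 13 / 20 < -M y := by
  have ht := hc.nums h hn
  have := hc.hw
  constructor <;> linarith [ht.wt, ht.x1, ht.y1, ht.xy]

/-- the cells of the class `c` in the two other columns, when the tall class `b` has its far cell in
the column `c` -/
theorem tall_A (h : OF A) {b c p q : Fin 4} {M F G : Fin 4 → ℝ} (hc : TC A b c M F)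
    (hn : [b, c, p, q].Nodup) (hG : A c p = some G) :
    1 - (G q + (G c - 1)) ≤ 1 + M p + (M b - 1) := by
  have ht := hc.nums h hn
  have hw := hc.hw
  have hd := hc.hd
  have hpc : p ≠ c := by
    clear * - hn
    revert hn
    revert b c p q
    decide
  have cG := h.cell c p G hG
  have fG := h.far c p G hpc hG
  have aG := cell_lin cG (swap_nodup hn)
  have hs := (sep_min (h.cell b b M hc.hM) cG hn).1 (h.sep b b c p M G hc.hM hG
    (by simp [hc.ne.symm]))
  rw [min_eq_left (by linarith [ht.x1] : -M p ≤ -G p)] at hs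
  rcases min_cases (-M q) (-G q) with ⟨e, -⟩ | ⟨e, -⟩
  · rw [e] at hs
    linarith [ht.xy, ht.wt]
  · rw [e] at hs
    linarith

/-- the cells of the class `e` in the column `a`, when the tall class `b` has its far cell in the
column `c` -/
theorem tall_AB (h : OF A) {b c a e : Fin 4} {M F G : Fin 4 → ℝ} (hc : TC A b c M F)
    (hn : [b, c, a, e].Nodup) (hG : A e a = some G) :
    1 - (G c + (G e - 1)) ≤ 1 + M a + (M b - 1) ∨ 1 - (G e - 1) ≤ -M e := by
  have ht := hc.nums h hn
  have hae : a ≠ e := by
    clear * - hn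
    revert hn
    revert b c a e
    decide
  have hbe : b ≠ e := (nodup_ne hn).2.2.symm
  have hn' : [b, e, c, a].Nodup := by
    clear * - hn
    revert hn
    revert b c a e
    decide
  have cG := h.cell e a G hG
  have fG := h.far e a G hae hG
  have cM := h.cell b b M hc.hM
  have aM := cell_lin cM hn
  have hs := (sep_min cM cG hn').1 (h.sep b b e a M G hc.hM hG (by simp [hbe]))
  rw [min_eq_left (by linarith [ht.x1] : -M a ≤ -G a)] at hs
  rcases min_cases (-M c) (-G c) with ⟨e1, -⟩ | ⟨e1, -⟩
  · rw [e1] at hs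
    right
    linarith
  · rw [e1] at hs
    left
    linarith

/-- two tall classes do not point at each other -/
theorem tall_two (h : OF A) {b c : Fin 4} {M F N G : Fin 4 → ℝ} (hb : TC A b c M F)
    (hc : TC A c b N G) : False := by
  obtain ⟨x, y, hn⟩ := exists_rest2 hb.ne.symm
  have b1 := TN.big h hb hn
  have b2 := TN.big h hc (swap_nodup hn)
  have hs := (sep_min (h.cell b b M hb.hM) (h.cell c c N hc.hM) hn).1
    (h.sep b b c c M N hb.hM hc.hM (by simp [hb.ne.symm]))
  have h1 := hb.hd
  have h2 := hc.hd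
  have m1 : 13 / 20 < min (-M x) (-N x) := lt_min b1.1 b2.1
  have m2 : 13 / 20 < min (-M y) (-N y) := lt_min b1.2 b2.2
  linarith

/-- the main cell of the class `a`, when the tall class `r` has its far cell in the column `a` -/
theorem tall_N (h : OF A) {r a x y : Fin 4} {M F N : Fin 4 → ℝ} (hc : TC A r a M F)
    (hn : [r, a, x, y].Nodup) (hN : A a a = some N) (hd : N a - 1 < 3 / 5) :
    1 - (M r - 1) ≤ -N r ∨ (13 / 20 ≤ -N x ∧ -N y ≤ (N a - 1) + (M r - 1) - 13 / 20) ∨
      (13 / 20 ≤ -N y ∧ -N x ≤ (N a - 1) + (M r - 1) - 13 / 20) := by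
  have b1 := TN.big h hc hn
  have cN := h.cell a a N hN
  have aN := cell_lin cN (swap_nodup hn)
  have h1 := hc.hd
  have hs := (sep_min (h.cell r r M hc.hM) cN hn).1
    (h.sep r r a a M N hc.hM hN (by simp [hc.ne.symm]))
  rcases min_cases (-M x) (-N x) with ⟨e1, f1⟩ | ⟨e1, f1⟩ <;>
    rcases min_cases (-M y) (-N y) with ⟨e2, f2⟩ | ⟨e2, f2⟩ <;> rw [e1, e2] at hs
  · linarith
  · right; left
    constructor <;> linarith
  · right; right
    constructor <;> linarith
  · left
    linarith

end Pool.Agent.Helper44.TS
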