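import Pool.Agent.Helper44.TS.One

/-!
# Two or three far cells of one class, the numbers
-/

set_option autoImplicit false

namespace Pool.Agent.Helper44.TS

theorem two_num {x : ℝ} (h0 : 0 ≤ x) (_h1 : x ≤ 1) :
    (x - x ^ 3 / 3) + bb (1 - x) ≤ 19 / 27 := by
  unfold bb
  have : 0 ≤ (x - 2 / 3) ^ 2 * (x + 1 / 3) := mul_nonneg (sq_nonneg _) (by linarith)
  nlinarith

theorem bb_mono {a b : ℝ} (h0 : 0 ≤ a) (hab : a ≤ b) (hb : b ≤ 1) : bb a ≤ bb b := by
  unfold bb
  have : 0 ≤ (b - a) * (1 / 4 + (a + b) / 2 - (a ^ 2 + a * b + b ^ 2) / 12) := by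
    refine mul_nonneg (by linarith) ?_
    nlinarith
  nlinarith

theorem bb_nonneg {a : ℝ} (h0 : 0 ≤ a) (h1 : a ≤ 1) : 0 ≤ bb a := by
  have := bb_mono le_rfl h0 h1
  have e : bb 0 = 0 := by norm_num [bb]
  linarith

theorem bb_le {a : ℝ} (h0 : 0 ≤ a) (h1 : a ≤ 1) : bb a ≤ 2 / 3 := by
  have := bb_mono h0 h1 le_rfl
  have e : bb 1 = 2 / 3 := by norm_num [bb]
  linarith

theorem bb_add {a b : ℝ} (h0 : 0 ≤ a) (h1 : 0 ≤ b) (h : a + b ≤ 1) :
    bb a + bb b ≤ bb (a + b) := by
  unfold bb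
  have : 0 ≤ a * b * (1 - (a + b) / 4) := mul_nonneg (mul_nonneg h0 h1) (by linarith)
  nlinarith

/-- one cell supported by another one: the facts -/
structure Sup (f W S : ℝ) : Prop where
  a : 1 ≤ W + S → f ≤ W * (1 - S) - (1 - S) ^ 3 / 3
  b : W + S ≤ 1 → 1 ≤ W + 2 * S → f ≤ W * (1 - S) * (W + S) - W ^ 3 / 3
  c : f ≤ W * (1 - S)
  g : f ≤ (1 - S) - (1 - S) ^ 3 / 3

theorem sup_of {w A B S : ℝ} (h : Dom w A B) (hS : B ≤ 1 - S) (h0 : 0 ≤ S) :
    Sup (fAB w A B) w S := by
  refine ⟨fun h1 => ?_, fun h1 h2 => ?_, fAB_c h hS, fAB_G h hS (by linarith)⟩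
  · exact fAB_w h hS (by linarith)
  · refine (fAB_m h hS (by linarith) (by linarith)).trans (le_of_eq ?_)
    ring

theorem pairs_num {x y z : ℝ} (hx : 0 ≤ x) (hy : 0 ≤ y) (hz : 0 ≤ z) (hxy : x + y ≤ 1)
    (hyz : y + z ≤ 1) (hzx : z + x ≤ 1) :
    x + y + z - x * y - y * z - z * x - (x ^ 3 + y ^ 3 + z ^ 3) / 3 ≤ 2 / 3 := by
  rcases le_total (x + y + z) 1 with h | h
  · have p : 0 ≤ (1 - (x + y + z)) * (x * y + y * z + z * x) :=
      mul_nonneg (by linarith) (by positivity)
    have q : 0 ≤ x * y * z := by positivity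
    have r : 0 ≤ (1 - (x + y + z)) ^ 2 * (2 + (x + y + z)) := by positivity
    nlinarith
  · have p : 0 ≤ (1 - x - y) * (1 - y - z) * (1 - z - x) :=
      mul_nonneg (mul_nonneg (by linarith) (by linarith)) (by linarith)
    have r : 0 ≤ (x + y + z - 1) ^ 3 := by
      have : 0 ≤ x + y + z - 1 := by linarith
      positivity
    nlinarith

/-- the cyclic case, the first parameter is the largest one -/
theorem cyc_max {f g k a b c : ℝ} (a0 : 0 ≤ a) (b0 : 0 ≤ b) (c0 : 0 ≤ c) (a1 : a ≤ 1)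
    (b1 : b ≤ a) (c1 : c ≤ a) (fb : f ≤ bb a) (gb : g ≤ bb b) (kb : k ≤ bb c)
    (hf : Sup f a b) (hg : Sup g b c) (hk : Sup k c a) : f + g + k ≤ 19 / 27 := by
  rcases le_total 1 (a + b) with hab | hab
  · have e1 := hf.a hab
    rcases le_total 1 (b + c) with hbc | hbc
    · have e2 := hg.a hbc
      have e3 := hk.a (by linarith)
      have := pairs_num (x := 1 - a) (y := 1 - b) (z := 1 - c) (by linarith) (by linarith)
        (by linarith) (by linarith) (by linarith) (by linarith)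
      nlinarith
    · have e3 := hk.c
      have e4 : c * (1 - a) ≤ (1 - b) * (1 - a) :=
        mul_le_mul_of_nonneg_right (by linarith) (by linarith)
      have e5 := two_num (x := 1 - b) (by linarith) (by linarith)
      rw [show 1 - (1 - b) = b by ring] at e5
      nlinarith
  · rcases le_total 1 (a + c) with hac | hac
    · have e3 := hk.a (by linarith)
      have e4 : c * (1 - a) ≤ a * (1 - a) := mul_le_mul_of_nonneg_right c1 (by linarith)
      -- `f + g` is at most its value at `b = 1 - a`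
      have e5 : f + g ≤ a ^ 2 - a ^ 3 / 3 + bb (1 - a) := by
        rcases le_total 1 (a + 2 * b) with h2 | h2
        · have e6 := hf.b hab h2
          have e7 : 0 ≤ (1 - a - b) * (1 / 4 + ((1 - a) + b) / 2
              - ((1 - a) ^ 2 + (1 - a) * b + b ^ 2) / 12 - a * b) := by
            refine mul_nonneg (by linarith) ?_
            nlinarith [sq_nonneg (a - 1 / 2), mul_nonneg a0 b0]
          unfold bb at gb ⊢
          nlinarith
        · have e7 : bb b ≤ bb ((1 - a) / 2) := bb_mono b0 (by linarith) (by linarith)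
          have e8 : bb a + bb ((1 - a) / 2) ≤ a ^ 2 - a ^ 3 / 3 + bb (1 - a) := by
            unfold bb
            have : 0 ≤ (1 - a) * (1 / 8 + 3 / 8 * (1 - a) - 7 / 96 * (1 - a) ^ 2 - a * (1 - a) / 4) := by
              refine mul_nonneg (by linarith) ?_
              nlinarith [sq_nonneg (a - 1 / 2)]
            nlinarith
          linarith
      have e6 := two_num (x := a) a0 a1
      have e7 : 0 ≤ (1 - a) ^ 3 := by
        have : 0 ≤ 1 - a := by linarith
        positivity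
      nlinarith
    · rcases le_total (a + b + c) 1 with hs | hs
      · have e1 := bb_add a0 b0 (by linarith)
        have e2 := bb_add (by linarith : 0 ≤ a + b) c0 (by linarith)
        have e3 := bb_le (by linarith : 0 ≤ a + b + c) hs
        linarith
      · have e3 := hk.b (by linarith) (by linarith)
        rcases le_total a (1 / 2) with h2 | h2
        · have e4 : bb b ≤ bb a := bb_mono b0 b1 a1
          have e5 : c * (1 - a) * (c + a) - c ^ 3 / 3 ≤ a * (1 - a) * (a + a) - a ^ 3 / 3 := by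
            have : 0 ≤ (a - c) * ((1 - a) * (2 * a + c) - (a ^ 2 + a * c + c ^ 2) / 3) := by
              refine mul_nonneg (by linarith) ?_
              nlinarith
            nlinarith
          have e6 : 2 * bb a + (a * (1 - a) * (a + a) - a ^ 3 / 3) ≤ 19 / 27 := by
            unfold bb
            nlinarith [mul_nonneg a0 (by linarith : (0 : ℝ) ≤ 1 / 2 - a),
              mul_nonneg (mul_nonneg a0 a0) (by linarith : (0 : ℝ) ≤ 1 / 2 - a)]
          linarith
        · have e4 : bb b ≤ bb (1 - a) := bb_mono b0 (by linarith) (by linarith)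
          have e5 : c * (1 - a) * (c + a) - c ^ 3 / 3 ≤ (1 - a) ^ 2 - (1 - a) ^ 3 / 3 := by
            have : 0 ≤ (1 - a - c) * ((1 - a) * (1 + c) - ((1 - a) ^ 2 + (1 - a) * c + c ^ 2) / 3) := by
              refine mul_nonneg (by linarith) ?_
              nlinarith
            nlinarith
          have e6 : bb a + bb (1 - a) + ((1 - a) ^ 2 - (1 - a) ^ 3 / 3) ≤ 19 / 27 := by
            unfold bb
            nlinarith [mul_nonneg (by linarith : (0 : ℝ) ≤ a - 1 / 2) (by linarith : (0 : ℝ) ≤ 1 - a)]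
          linarith

/-- **Three cells of one class, the cyclic case.** -/
theorem cyc {f g k a b c : ℝ} (a0 : 0 ≤ a) (b0 : 0 ≤ b) (c0 : 0 ≤ c) (a1 : a ≤ 1)
    (b1 : b ≤ 1) (c1 : c ≤ 1) (fb : f ≤ bb a) (gb : g ≤ bb b) (kb : k ≤ bb c)
    (hf : Sup f a b) (hg : Sup g b c) (hk : Sup k c a) : f + g + k ≤ 19 / 27 := by
  rcases le_total a b with h1 | h1 <;> rcases le_total b c with h2 | h2 <;>
    rcases le_total a c with h3 | h3
  · have := cyc_max c0 a0 b0 c1 h3 h2 kb fb gb hk hf hg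
    linarith
  · have := cyc_max c0 a0 b0 c1 (h1.trans h2) h2 kb fb gb hk hf hg
    linarith
  · have := cyc_max b0 c0 a0 b1 h2 h1 gb kb fb hg hk hf
    linarith
  · have := cyc_max b0 c0 a0 b1 h2 h1 gb kb fb hg hk hf
    linarith
  · have := cyc_max c0 a0 b0 c1 h3 h2 kb fb gb hk hf hg
    linarith
  · exact cyc_max a0 b0 c0 a1 h1 h3 fb gb kb hf hg hk
  · have := cyc_max a0 b0 c0 a1 h1 (h2.trans h1) fb gb kb hf hg hk
    linarith
  · exact cyc_max a0 b0 c0 a1 h1 h3 fb gb kb hf hg hk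

theorem quart_num {z : ℝ} (h0 : 0 ≤ z) (h1 : z ≤ 1) :
    z / 4 - z ^ 2 / 2 - z ^ 3 / 12 + z ^ 4 / 3 ≤ 1 / 27 := by
  nlinarith [sq_nonneg (z ^ 2 - z), sq_nonneg (z - 1 / 4), sq_nonneg (z ^ 2 - 1 / 16),
    mul_nonneg h0 (by linarith : (0 : ℝ) ≤ 1 - z), mul_nonneg (mul_nonneg h0 h0) (by linarith : (0 : ℝ) ≤ 1 - z)]

/-- **Three cells of one class, one of them supported by the two others** -/
theorem tra {f g k p q r : ℝ} (q0 : 0 ≤ q) (r0 : 0 ≤ r) (p1 : p ≤ 1)
    (q1 : q ≤ 1) (r1 : r ≤ 1) (gb : g ≤ bb q) (kb : k ≤ bb r)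
    (hf1 : f ≤ p * (1 - q) * (1 - r))
    (hf2 : f ≤ (1 - r) * ((1 - q) - (1 - q) ^ 3 / 3))
    (hg : Sup g q r) : f + g + k ≤ 19 / 27 := by
  rcases le_total 1 (q + r) with h | h
  · have e1 := hg.a h
    have e2 : p * (1 - q) * (1 - r) ≤ (1 - q) * (1 - r) := by
      have : 0 ≤ (1 - q) * (1 - r) := mul_nonneg (by linarith) (by linarith)
      nlinarith
    have e3 := two_num (x := 1 - r) (by linarith) (by linarith)
    rw [show 1 - (1 - r) = r by ring] at e3
    nlinarith
  · rcases le_total 1 (q + 2 * r) with h2 | h2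
    · have e1 := hg.b h h2
      have e2 := quart_num r0 r1
      have e3 : r * (1 / 4 - (1 - q) ^ 2 + (1 - q) ^ 3 / 3) + r ^ 2 * ((1 - q) - 1 / 2) - r ^ 3 / 12 ≤
          r / 4 - r ^ 2 / 2 - r ^ 3 / 12 + r ^ 4 / 3 := by
        have : 0 ≤ r * ((1 - q - r) * ((1 - q) + r - r - ((1 - q) ^ 2 + (1 - q) * r + r ^ 2) / 3)) := by
          refine mul_nonneg r0 (mul_nonneg (by linarith) ?_)
          nlinarith
        nlinarith
      unfold bb at kb
      nlinarith
    · -- `r ≤ (1 - q) / 2`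
      obtain ⟨x, hx⟩ : ∃ x, x = 1 - q := ⟨_, rfl⟩
      have hq : q = 1 - x := by linarith
      subst hq
      have x0 : 0 ≤ x := by linarith
      have x1 : x ≤ 1 := by linarith
      have hrx : 2 * r ≤ x := by linarith
      have key : (1 - r) * (x - x ^ 3 / 3) + bb (1 - x) + bb r ≤ 19 / 27 := by
        unfold bb
        have t := two_num x0 x1
        unfold bb at t
        rcases le_total x (3 / 8) with h3 | h3
        · have e4 : r * (1 / 4 + r / 2 - r ^ 2 / 12 - x + x ^ 3 / 3) ≤ 1 / 27 - x ^ 2 * (1 - x) / 4 := by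
            have e5 : r * (1 / 4 + r / 2 - r ^ 2 / 12 - x + x ^ 3 / 3) ≤ r * (1 / 4 - 3 / 4 * x + x ^ 3 / 3) := by
              refine mul_le_mul_of_nonneg_left ?_ r0
              nlinarith [sq_nonneg r]
            have e6 : x ^ 3 ≤ x ^ 2 * (3 / 8) := by nlinarith [sq_nonneg x]
            have e7 : r * (1 / 4 - 3 / 4 * x + x ^ 3 / 3) ≤ x / 2 * (1 / 4 - 3 / 4 * x + x ^ 3 / 3) + x / 2 * (1 / 16) := by
              rcases le_total 0 (1 / 4 - 3 / 4 * x + x ^ 3 / 3) with h4 | h4
              · have := mul_le_mul_of_nonneg_right (by linarith : r ≤ x / 2) h4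
                have : 0 ≤ x / 2 * (1 / 16) := by positivity
                linarith
              · have h5 : r * (1 / 4 - 3 / 4 * x + x ^ 3 / 3) ≤ 0 := mul_nonpos_of_nonneg_of_nonpos r0 h4
                have h6 : 0 ≤ 1 / 4 - 3 / 4 * x + x ^ 3 / 3 + 1 / 16 := by
                  have : 0 ≤ x ^ 3 := by positivity
                  linarith
                have := mul_nonneg (by linarith : 0 ≤ x / 2) h6
                linarith
            nlinarith [sq_nonneg x, sq_nonneg (x - 1 / 4), mul_nonneg x0 (sub_nonneg.2 h3)]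
          nlinarith
        · have e4 : r * (1 / 4 + r / 2 - r ^ 2 / 12 - x + x ^ 3 / 3) ≤ 0 := by
            refine mul_nonpos_of_nonneg_of_nonpos r0 ?_
            have e5 : x ^ 3 ≤ x := by nlinarith [mul_nonneg x0 (sub_nonneg.2 x1)]
            nlinarith [sq_nonneg r, mul_nonneg x0 (sub_nonneg.2 x1), mul_nonneg (sub_nonneg.2 h3) (sub_nonneg.2 x1)]
          nlinarith
      rw [show (1 : ℝ) - (1 - x) = x by ring] at hf2
      linarith

end Pool.Agent.Helper44.TS
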